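import Mathlib

/-!
# The assembly map on the `K₀`-part of the rational source: definitions

For a group `Γ`, `Cyc Γ n` is the set of the cycles of degree `n + 1` of the chain complex computing `H_*(Γ; ℤ)`: the
chains of degree `m` are the integral combinations of the tuples `(x_0, …, x_m)` in `Γ`, modulo
`(g x_0, …, g x_m) = (x_0, …, x_m)`; `bnd Γ (n + 1)` contains the boundaries of degree `n + 1` and these relations.

`KQ A n` is generated by the pairs `[N, z]` of `N : ℕ` and a cycle `z` of degree `n + 1` of `GL_N(A)`, modulo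
additivity in `z`, `[N, z] = 0` for boundaries `z` and `[N + M, ⊕ w] = [N, pr₁ w] + [M, pr₂ w]` for cycles `w` of
`GL_N(A) × GL_M(A)`, where `⊕ w` is the image of `w` under the block sum.

`HnK0 R G n` is generated by the symbols `[F, e, z]`, `F` a finite subgroup of `G`, `e` an idempotent matrix over
`R[F]` and `z` a cycle of degree `n + 1` of the centralizer `Z_G(F)`, modulo the relations of `K₀(R[F])` in `e`, the
relations of `H_{n+1}(Z_G(F); ℤ)` in `z` and `[F', c_g(e), z'] = [F, e, c_{g⁻¹}(z')]` for `g F g⁻¹ ⊆ F'`.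

The assembly map sends `[F, e, z]` to `[N, z']` where `N` is the size of `e` and `z'` the image of `z` under
`Z_G(F) → GL_N(R[G])`, `γ ↦ 1 + e (γ - 1)`.
-/

set_option autoImplicit false

open Matrix

universe u v w

namespace Pool.Agent.H71.FQS

section Cycles

/-- the chains with `n + 1` vertices in `Γ` -/
abbrev Ch (Γ : Type v) (n : ℕ) : Type v := (Fin (n + 1) → Γ) →₀ ℤ

/-- the boundary, the alternating sum over the omissions of a vertex -/
noncomputable def bd (Γ : Type v) (n : ℕ) (c : Ch Γ (n + 1)) : Ch Γ n :=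
  c.sum fun x a => ∑ i : Fin (n + 2),
    Finsupp.single (fun j => x (i.succAbove j)) ((-1) ^ (i : ℕ) * a)

/-- the chain map of a map of the vertices -/
noncomputable def push {Γ : Type v} {Γ' : Type w} {n : ℕ} (f : Γ → Γ') (c : Ch Γ n) : Ch Γ' n :=
  c.mapDomain fun x j => f (x j)

/-- the relations `(g x_0, …, g x_n) = (x_0, …, x_n)` -/
noncomputable def coi (Γ : Type v) [Group Γ] (n : ℕ) : AddSubgroup (Ch Γ n) :=
  AddSubgroup.closure {c | ∃ (g : Γ) (x : Fin (n + 1) → Γ),
    c = Finsupp.single (fun j => g * x j) 1 - Finsupp.single x 1}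

/-- the boundaries and these relations -/
noncomputable def bnd (Γ : Type v) [Group Γ] (n : ℕ) : AddSubgroup (Ch Γ n) :=
  AddSubgroup.closure {c | c ∈ coi Γ n ∨ ∃ b : Ch Γ (n + 1), c = bd Γ n b}

/-- the cycles of degree `n + 1` -/
def Cyc (Γ : Type v) [Group Γ] (n : ℕ) : Type v := {c : Ch Γ (n + 1) // bd Γ n c ∈ coi Γ n}

/-- the chain of a cycle -/
def Cyc.ch {Γ : Type v} [Group Γ] {n : ℕ} (z : Cyc Γ n) : Ch Γ (n + 1) := z.1

/-- The classes in `H_{n+1}(Γ; ℤ)` which, modulo torsion, are divisible by all powers of `p` have finite order. -/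
def PSep (p : ℕ) (Γ : Type v) [Group Γ] (n : ℕ) : Prop :=
  ∀ z : Cyc Γ n, (∀ k : ℕ, ∃ (y : Cyc Γ n) (m : ℤ), m ≠ 0 ∧
      m • (z.ch - (p : ℤ) ^ k • y.ch) ∈ bnd Γ (n + 1)) →
    ∃ m : ℤ, m ≠ 0 ∧ m • z.ch ∈ bnd Γ (n + 1)

end Cycles

section K

/-- the block sum of two matrices -/
def blkM {A : Type u} [Zero A] {N M : ℕ} (X : Matrix (Fin N) (Fin N) A)
    (Y : Matrix (Fin M) (Fin M) A) : Matrix (Fin (N + M)) (Fin (N + M)) A :=
  (fromBlocks X 0 0 Y).submatrix finSumFinEquiv.symm finSumFinEquiv.symm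

variable (A : Type u) [Ring A] (n : ℕ)

/-- The group `GL_N(A)`. -/
abbrev GLm (N : ℕ) (A : Type u) [Ring A] : Type u := (Matrix (Fin N) (Fin N) A)ˣ

/-- the pairs `[N, z]` -/
structure KSym where
  /-- the size -/
  N : ℕ
  /-- a cycle of `GL_N(A)` -/
  z : Cyc (GLm N A) n

/-- additivity and boundaries -/
def kRelA : Set (FreeAbelianGroup (KSym A n)) :=
  {y | ∃ (N : ℕ) (z z' z'' : Cyc (GLm N A) n), z''.ch = z.ch + z'.ch ∧
      y = FreeAbelianGroup.of ⟨N, z''⟩ - (FreeAbelianGroup.of ⟨N, z⟩ + FreeAbelianGroup.of ⟨N, z'⟩)} ∪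
    {y | ∃ (N : ℕ) (z : Cyc (GLm N A) n), z.ch ∈ bnd (GLm N A) (n + 1) ∧
      y = FreeAbelianGroup.of ⟨N, z⟩}

/-- the relations of the block sums -/
def kRelB : Set (FreeAbelianGroup (KSym A n)) :=
  {y | ∃ (N M : ℕ) (w : Cyc (GLm N A × GLm M A) n) (β : GLm N A × GLm M A → GLm (N + M) A)
      (z : Cyc (GLm (N + M) A) n) (a : Cyc (GLm N A) n) (b : Cyc (GLm M A) n),
      (∀ u, (β u).val = blkM u.1.val u.2.val) ∧
      z.ch = push β w.ch ∧ a.ch = push Prod.fst w.ch ∧ b.ch = push Prod.snd w.ch ∧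
      y = FreeAbelianGroup.of ⟨N + M, z⟩ - (FreeAbelianGroup.of ⟨N, a⟩ + FreeAbelianGroup.of ⟨M, b⟩)}

/-- The group `KQ A n`; its tensor product with `ℚ` is `K_{n+1}(A) ⊗ ℚ`. -/
def KQ : Type u := FreeAbelianGroup (KSym A n) ⧸ AddSubgroup.closure (kRelA A n ∪ kRelB A n)

instance instKQ : AddCommGroup (KQ A n) := QuotientAddGroup.Quotient.addCommGroup _

variable {A n}

/-- the class of `[N, z]` -/
def KQ.mk (N : ℕ) (z : Cyc (GLm N A) n) : KQ A n := QuotientAddGroup.mk (FreeAbelianGroup.of ⟨N, z⟩)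

end K

section H

/-- the group ring of a subgroup -/
def RF (R : Type u) [Ring R] {G : Type v} [Group G] (F : Subgroup G) : Type (max u v) :=
  MonoidAlgebra R F

noncomputable instance instRF (R : Type u) [Ring R] {G : Type v} [Group G] (F : Subgroup G) :
    Ring (RF R F) := MonoidAlgebra.ring

/-- the centralizer of a subgroup -/
def Cent {G : Type v} [Group G] (F : Subgroup G) : Type v := Subgroup.centralizer (F : Set G)

instance instCent {G : Type v} [Group G] (F : Subgroup G) : Group (Cent F) :=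
  Subgroup.toGroup _

/-- an element of the centralizer as an element of `G` -/
def Cent.val {G : Type v} [Group G] {F : Subgroup G} (γ : Cent F) : G := γ.1

/-- equivalence of idempotent matrices: `e = x y`, `f = y x` -/
def MatEquiv {A : Type u} [Ring A] {N M : ℕ} (e : Matrix (Fin N) (Fin N) A)
    (f : Matrix (Fin M) (Fin M) A) : Prop :=
  ∃ (x : Matrix (Fin N) (Fin M) A) (y : Matrix (Fin M) (Fin N) A), x * y = e ∧ y * x = f

/-- idempotent matrices -/
def Idem {A : Type u} [Ring A] {N : ℕ} (e : Matrix (Fin N) (Fin N) A) : Prop := e * e = e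

variable (R : Type u) [Ring R] (G : Type v) [Group G] (n : ℕ)

/-- the symbols `[F, e, z]` -/
structure HSym where
  /-- a finite subgroup -/
  F : Subgroup G
  fin : Finite F
  /-- the size of the matrix -/
  N : ℕ
  /-- an idempotent matrix over the group ring of `F` -/
  e : Matrix (Fin N) (Fin N) (RF R F)
  idem : Idem e
  /-- a cycle of the centralizer of `F` -/
  z : Cyc (Cent F) n

/-- the relation `[F, e, z] = [F, f, z]` for `e = x y`, `f = y x` -/
def relE : Set (FreeAbelianGroup (HSym R G n)) :=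
  {y | ∃ (F : Subgroup G) (hF : Finite F) (N M : ℕ) (e : Matrix (Fin N) (Fin N) (RF R F))
      (f : Matrix (Fin M) (Fin M) (RF R F)) (he : Idem e) (hf : Idem f) (z : Cyc (Cent F) n),
      MatEquiv e f ∧
      y = FreeAbelianGroup.of ⟨F, hF, N, e, he, z⟩ - FreeAbelianGroup.of ⟨F, hF, M, f, hf, z⟩}

/-- the relation `[F, e ⊕ f, z] = [F, e, z] + [F, f, z]` -/
def relS : Set (FreeAbelianGroup (HSym R G n)) :=
  {y | ∃ (F : Subgroup G) (hF : Finite F) (N M : ℕ) (e : Matrix (Fin N) (Fin N) (RF R F))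
      (f : Matrix (Fin M) (Fin M) (RF R F)) (he : Idem e) (hf : Idem f) (h : Idem (blkM e f))
      (z : Cyc (Cent F) n),
      y = FreeAbelianGroup.of ⟨F, hF, N + M, blkM e f, h, z⟩ -
        (FreeAbelianGroup.of ⟨F, hF, N, e, he, z⟩ + FreeAbelianGroup.of ⟨F, hF, M, f, hf, z⟩)}

/-- additivity in `z` and boundaries -/
def relZ : Set (FreeAbelianGroup (HSym R G n)) :=
  {y | ∃ (F : Subgroup G) (hF : Finite F) (N : ℕ) (e : Matrix (Fin N) (Fin N) (RF R F))
      (he : Idem e) (z z' z'' : Cyc (Cent F) n), z''.ch = z.ch + z'.ch ∧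
      y = FreeAbelianGroup.of ⟨F, hF, N, e, he, z''⟩ -
        (FreeAbelianGroup.of ⟨F, hF, N, e, he, z⟩ + FreeAbelianGroup.of ⟨F, hF, N, e, he, z'⟩)} ∪
    {y | ∃ (F : Subgroup G) (hF : Finite F) (N : ℕ) (e : Matrix (Fin N) (Fin N) (RF R F))
      (he : Idem e) (z : Cyc (Cent F) n), z.ch ∈ bnd (Cent F) (n + 1) ∧
      y = FreeAbelianGroup.of ⟨F, hF, N, e, he, z⟩}

/-- the relation `[F', c_g(e), z'] = [F, e, c_{g⁻¹}(z')]` for `g F g⁻¹ ⊆ F'` -/
def relC : Set (FreeAbelianGroup (HSym R G n)) :=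
  {y | ∃ (F F' : Subgroup G) (hF : Finite F) (hF' : Finite F') (g : G) (N : ℕ)
      (e : Matrix (Fin N) (Fin N) (RF R F)) (e' : Matrix (Fin N) (Fin N) (RF R F'))
      (he : Idem e) (he' : Idem e') (z : Cyc (Cent F) n) (z' : Cyc (Cent F') n)
      (c : F → F') (κ : Cent F' → Cent F),
      (∀ a, (c a : G) = g * a * g⁻¹) ∧ (∀ γ, (κ γ).val = g⁻¹ * γ.val * g) ∧
      (∀ i j, e' i j = MonoidAlgebra.mapDomain c (e i j)) ∧ z.ch = push κ z'.ch ∧
      y = FreeAbelianGroup.of ⟨F', hF', N, e', he', z'⟩ - FreeAbelianGroup.of ⟨F, hF, N, e, he, z⟩}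

/-- The group generated by the symbols `[F, e, z]`. -/
def HnK0 : Type (max u v) :=
  FreeAbelianGroup (HSym R G n) ⧸
    AddSubgroup.closure (relE R G n ∪ relS R G n ∪ relZ R G n ∪ relC R G n)

instance instHnK0 : AddCommGroup (HnK0 R G n) := QuotientAddGroup.Quotient.addCommGroup _

variable {R G n}

/-- the class of `[F, e, z]` -/
def HnK0.mk (s : HSym R G n) : HnK0 R G n := QuotientAddGroup.mk (FreeAbelianGroup.of s)

/-- `ρ` is the homomorphism `γ ↦ 1 + e (γ - 1)` from the centralizer of `F` to `GL_N(R[G])`. -/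
def IsRho (F : Subgroup G) {N : ℕ} (e : Matrix (Fin N) (Fin N) (RF R F))
    (ρ : Cent F → GLm N (MonoidAlgebra R G)) : Prop :=
  ∀ (γ : Cent F) (i j : Fin N), (ρ γ).val i j = (if i = j then 1 else 0) +
    (MonoidAlgebra.mapDomain (fun a : F => (a : G) * γ.val) (e i j) -
      MonoidAlgebra.mapDomain (fun a : F => (a : G)) (e i j))

/-- `α` is the assembly map: `α [F, e, z] = [N, ρ z]`. -/
def IsAssembly (α : HnK0 R G n → KQ (MonoidAlgebra R G) n) : Prop :=
  ∀ (s : HSym R G n) (ρ : Cent s.F → GLm s.N (MonoidAlgebra R G))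
    (z' : Cyc (GLm s.N (MonoidAlgebra R G)) n),
    IsRho s.F s.e ρ → z'.ch = push ρ s.z.ch → α (HnK0.mk s) = KQ.mk s.N z'

end H

section Classes

/-- `R` has a surjective homomorphism with nilpotent kernel onto a finite product of finite-dimensional algebras over
fields of positive characteristic. -/
def NilFin (R : Type u) [Ring R] : Prop :=
  ∃ (m : ℕ) (A : Fin m → Type u) (_ : ∀ i, Ring (A i)) (φ : R →+* ∀ i, A i),
    Function.Surjective φ ∧ (∃ N : ℕ, RingHom.ker φ ^ N = ⊥) ∧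
    ∀ i, ∃ (p : ℕ) (k : Type u) (_ : Field k) (_ : Algebra k (A i)),
      p.Prime ∧ CharP k p ∧ Module.Finite k (A i)

/-- Every finite subset of `R` lies in a subring which is finite or satisfies `NilFin`. -/
def LocRing (R : Type u) [Ring R] : Prop :=
  ∀ S : Finset R, ∃ R' : Subring R, (∀ x ∈ S, x ∈ R') ∧ (Finite R' ∨ NilFin R')

end Classes

/-- `α` becomes injective after tensoring with `ℚ` over `ℤ`. -/
def RatInj {A : Type u} [AddCommGroup A] {B : Type v} [AddCommGroup B] (α : A →+ B) : Prop :=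
  Function.Injective (LinearMap.lTensor ℚ α.toIntLinearMap)

end Pool.Agent.H71.FQS
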