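import Pool.Agent.H13.TFQ.H71.FQ.FRing
import Pool.Agent.H13.TFQ.M25

/-!
# Project FQ: the functions `TB`

`TB c Φ b` is the value of the functional of `Φ` on the power `(∏_j io j (b j)) ^ q`.

PROOFS. `TB_congr`: `lam_pow` with the subring `balR`; if `b' j = b j + p • d j` then the product of the `io j (b' j)` is
the product of the `io j (b j)` plus `p • y`, `y` in `balR`. `TB_merge_succ`: in `(∏_j io j (b j)) ^ q` replace
successively each `io i (b i) * io (i + 1) (b (i + 1))` by `io i (b i * b (i + 1))` (`lam_merge`, the label `i + 1` is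
not read), then change the labels (`lam_relR`; extend `succAbove` to an injection of `ℕ`) and use `wf_comp` for the
left side. `TB_merge_zero`: first move the first letter to the end (`wf_rot` with `r = 0`, the label `0` is not read).
-/

set_option autoImplicit false

open Matrix

universe u v w

namespace Pool.Agent.H71.FQ

section

variable {G : Type u} [Group G] {ι : Type v} [Fintype ι] [DecidableEq ι] {B : Type w} [CommRing B]

/-- The value on the power of the product. -/
noncomputable def TB {k q : ℕ} (c : G) (Φ : (Fin k → Fin q → G) → B)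
    (b : Fin k → Matrix ι ι (MonoidAlgebra B G)) : B :=
  lam (wf c Φ fun j => (j : ℕ)) ((List.ofFn fun j : Fin k => (io (j : ℕ) (b j) : FR G ι B)).prod ^ q)

theorem TB_sum {κ : Type*} (s : Finset κ) (a : κ → ℤ) {k q : ℕ} (c : G)
    (Φ : κ → (Fin k → Fin q → G) → B) (b : Fin k → Matrix ι ι (MonoidAlgebra B G)) :
    TB c (fun v => ∑ i ∈ s, a i • Φ i v) b = ∑ i ∈ s, a i • TB c (Φ i) b := by
  unfold TB
  have h : (wf c (fun v => ∑ i ∈ s, a i • Φ i v) fun j : Fin k => (j : ℕ)) =
      fun W => ∑ i ∈ s, a i • wf c (Φ i) (fun j : Fin k => (j : ℕ)) W := by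
    funext W
    exact wf_sum s a Φ _ W
  rw [h]
  exact lam_sum s a _ _

end

section

variable {G : Type u} [Group G] {B : Type w} [CommRing B]

theorem TB_blk {N M : ℕ} {k q : ℕ} (hk : 0 < k) (hq : 0 < q) (c : G)
    (Φ : (Fin k → Fin q → G) → B) (b : Fin k → Matrix (Fin N) (Fin N) (MonoidAlgebra B G))
    (b' : Fin k → Matrix (Fin M) (Fin M) (MonoidAlgebra B G)) :
    TB c Φ (fun j => (fromBlocks (b j) 0 0 (b' j)).submatrix finSumFinEquiv.symm
      finSumFinEquiv.symm) = TB c Φ b + TB c Φ b' :=
  lam_blk _ hk hq b b'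

end

end Pool.Agent.H71.FQ
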