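import Pool.Agent.H13.TFQ.H71.FQ.KQ_1
import Pool.Agent.H13.TFQ.M26

/-!
# Project FQ: the functionals of the K-groups of `K[G]`

`LD K p m` is a commutative ring `B` with `p ^ (m + 1) = 0` and a surjection to `K` with kernel `p B`. A function `Φ`
of tuples (`IsPhi`) defines the cocycle `TK Φ` of `GL_N(K[G])` with values in `B`: lift the matrices
`h_j⁻¹ h_{j+1}` (`j` cyclic) to matrices over `B[G]` and take `TB`. These cocycles are compatible with block sums and
define `trT : KQ (K[G]) n →+ B`.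

PROOFS. `TK_eq`: `TB_congr`; if two matrices over `B[G]` have the same image over `K[G]` their difference is
`p • d`. `TK_face`: `TB_merge_zero`, `TB_merge_succ` and `TK_eq` (the product of two lifts is a lift of the product).
`TK_blk`: `TB_blk` with the block sums of the lifts. `isCoc_TK`: left invariance is clear; the sum of the faces is the
`TK` of `v ↦ ∑ i, (-1) ^ i • Φ (v without v i) = 0` by `TK_face`, `TB_sum`. `trT_cob`: `TK` of a coboundary is the
coboundary of a `TK`; `HG.ev_cob`.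
-/

set_option autoImplicit false

open Matrix

universe u v w

namespace Pool.Agent.H71.FQ

section

variable {K : Type u} [CommRing K] {p m : ℕ} (L : LD K p m) {G : Type v} [Group G]

/-- The cochain of `GL(K[G])` defined by `Φ`. -/
noncomputable def TK {ι : Type*} [Fintype ι] [DecidableEq ι] {k : ℕ} (c : G)
    (Φ : (Fin (k + 1) → Fin (p ^ m) → G) → L.B)
    (h : Fin (k + 1) → (Matrix ι ι (MonoidAlgebra K G))ˣ) : L.B :=
  TB c Φ fun j => L.lft ((h j)⁻¹ * h (j + 1)).val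

theorem TK_eq {ι : Type*} [Fintype ι] [DecidableEq ι] {k : ℕ} {c : G}
    {Φ : (Fin (k + 1) → Fin (p ^ m) → G) → L.B} (hΦ : IsInv c Φ)
    (h : Fin (k + 1) → (Matrix ι ι (MonoidAlgebra K G))ˣ)
    (b : Fin (k + 1) → Matrix ι ι (MonoidAlgebra L.B G))
    (hb : ∀ j, L.red (b j) = ((h j)⁻¹ * h (j + 1)).val) : TK L c Φ h = TB c Φ b := by
  refine TB_congr L.hp L.hB hΦ b _ fun j => L.eq_add_smul _ _ ?_
  rw [L.red_lft, hb j]

theorem TK_congr_arg {ι : Type*} [Fintype ι] [DecidableEq ι] {k : ℕ} (c : G)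
    (Φ : (Fin (k + 1) → Fin (p ^ m) → G) → L.B)
    (h h' : Fin (k + 1) → (Matrix ι ι (MonoidAlgebra K G))ˣ)
    (hh : ∀ j, (h j)⁻¹ * h (j + 1) = (h' j)⁻¹ * h' (j + 1)) : TK L c Φ h = TK L c Φ h' := by
  unfold TK
  congr 1
  funext j
  rw [hh j]

theorem TK_inv {ι : Type*} [Fintype ι] [DecidableEq ι] {k : ℕ} (c : G)
    (Φ : (Fin (k + 1) → Fin (p ^ m) → G) → L.B)
    (g : (Matrix ι ι (MonoidAlgebra K G))ˣ) (h : Fin (k + 1) → (Matrix ι ι (MonoidAlgebra K G))ˣ) :
    TK L c Φ (fun j => g * h j) = TK L c Φ h := by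
  refine TK_congr_arg L c Φ _ _ fun j => ?_
  rw [_root_.mul_inv_rev, mul_assoc, inv_mul_cancel_left]

/-- **The faces.** -/
theorem TK_face {ι : Type*} [Fintype ι] [DecidableEq ι] {k : ℕ} {c : G}
    {Φ : (Fin (k + 1) → Fin (p ^ m) → G) → L.B} (hΦ : IsInv c Φ)
    (h : Fin (k + 2) → (Matrix ι ι (MonoidAlgebra K G))ˣ) (i : Fin (k + 2)) :
    TK L c (fun v : Fin (k + 2) → Fin (p ^ m) → G => Φ fun j => v (i.succAbove j)) h =
      TK L c Φ fun j => h (i.succAbove j) := by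
  induction i using Fin.cases with
  | zero =>
    simp only [Fin.zero_succAbove]
    refine (TB_merge_zero (pow_pos L.hp.pos m) hΦ _).trans (TK_eq L hΦ _ _ fun j => ?_).symm
    by_cases hj : j = Fin.last k
    · rw [if_pos hj, L.red_mul, L.red_lft, L.red_lft, ← Units.val_mul, hj, Fin.last_add_one,
        Fin.last_add_one, Fin.succ_last, zero_add, mul_assoc, mul_inv_cancel_left]
      rfl
    · have h1 : (j + 1).succ = j.succ + 1 := by
        apply Fin.ext
        rw [Fin.val_succ, Fin.val_add_one, if_neg hj, Fin.val_add_one,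
          if_neg (fun hc => hj (Fin.succ_injective _ (by rw [hc, Fin.succ_last]))), Fin.val_succ]
      rw [if_neg hj, L.red_lft, h1]
  | succ i =>
    refine (TB_merge_succ (pow_pos L.hp.pos m) hΦ _ i).trans (TK_eq L hΦ _ _ fun j => ?_).symm
    rcases lt_trichotomy j i with hj | hj | hj
    · rw [if_pos hj, L.red_lft, succAbove_add_one_of_lt hj,
        Fin.succAbove_of_castSucc_lt _ _ (by rw [Fin.lt_def, Fin.val_castSucc, Fin.val_succ]; have := Fin.lt_def.mp hj; omega)]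
    · subst hj
      rw [if_neg (lt_irrefl _), if_pos rfl, L.red_mul, L.red_lft, L.red_lft, ← Units.val_mul,
        succAbove_add_one_of_le le_rfl, Fin.coeSucc_eq_succ, mul_assoc, mul_inv_cancel_left,
        Fin.succAbove_of_castSucc_lt _ _ Fin.castSucc_lt_succ]
    · rw [if_neg (not_lt.mpr hj.le), if_neg hj.ne', L.red_lft, succAbove_add_one_of_le hj.le,
        Fin.succAbove_of_le_castSucc _ _ (by rw [Fin.le_def, Fin.val_castSucc, Fin.val_succ]; have := Fin.lt_def.mp hj; omega)]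

theorem TK_sum {κ : Type*} (s : Finset κ) (a : κ → ℤ) {ι : Type*} [Fintype ι] [DecidableEq ι]
    {k : ℕ} (c : G) (Φ : κ → (Fin (k + 1) → Fin (p ^ m) → G) → L.B)
    (h : Fin (k + 1) → (Matrix ι ι (MonoidAlgebra K G))ˣ) :
    TK L c (fun v => ∑ i ∈ s, a i • Φ i v) h = ∑ i ∈ s, a i • TK L c (Φ i) h :=
  TB_sum s a c Φ _

theorem TK_blk {N M k : ℕ} {c : G} {Φ : (Fin (k + 1) → Fin (p ^ m) → G) → L.B} (hΦ : IsInv c Φ)
    (h : Fin (k + 1) → GLm N (MonoidAlgebra K G) × GLm M (MonoidAlgebra K G)) :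
    TK L c Φ (fun j => blk N M (MonoidAlgebra K G) (h j)) =
      TK L c Φ (fun j => (h j).1) + TK L c Φ (fun j => (h j).2) := by
  rw [TK_eq L hΦ (fun j => blk N M (MonoidAlgebra K G) (h j))
    (fun j => (fromBlocks (L.lft ((h j).1⁻¹ * (h (j + 1)).1).val) 0 0
      (L.lft ((h j).2⁻¹ * (h (j + 1)).2).val)).submatrix finSumFinEquiv.symm finSumFinEquiv.symm)]
  · exact TB_blk (Nat.succ_pos k) (pow_pos L.hp.pos m) c Φ _ _
  · intro j
    rw [← map_inv, ← map_mul, blk_val]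
    have h1 : ∀ (A : Matrix (Fin N) (Fin N) (MonoidAlgebra L.B G)) (A' : Matrix (Fin M) (Fin M) (MonoidAlgebra L.B G)),
        L.red ((fromBlocks A 0 0 A').submatrix finSumFinEquiv.symm finSumFinEquiv.symm) =
          blkM (L.red A) (L.red A') := by
      intro A A'
      unfold LD.red blkM
      rw [← Matrix.submatrix_map, Matrix.fromBlocks_map, Matrix.map_zero _ (map_zero _),
        Matrix.map_zero _ (map_zero _)]
    rw [h1, L.red_lft, L.red_lft]
    rfl

/-- The functions of tuples which define functionals on `KQ (K[G]) n`. -/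
structure IsPhi {B : Type w} [CommRing B] (c : G) {n q : ℕ} (Φ : (Fin (n + 2) → Fin q → G) → B) : Prop
    extends IsInv c Φ where
  coc : ∀ v : Fin (n + 3) → Fin q → G,
    ∑ i : Fin (n + 3), (-1 : ℤ) ^ (i : ℕ) • Φ (fun j => v (i.succAbove j)) = 0

variable {n : ℕ} {c : G}

theorem TK_zero {ι : Type*} [Fintype ι] [DecidableEq ι] {k : ℕ}
    (h : Fin (k + 1) → (Matrix ι ι (MonoidAlgebra K G))ˣ) :
    TK L c (fun _ : Fin (k + 1) → Fin (p ^ m) → G => 0) h = 0 := by
  have h1 := TK_sum L (∅ : Finset Unit) (fun _ => 0) c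
    (fun _ (_ : Fin (k + 1) → Fin (p ^ m) → G) => (0 : L.B)) h
  simpa only [Finset.sum_empty] using h1

theorem isCoc_TK (N : ℕ) {Φ : (Fin (n + 2) → Fin (p ^ m) → G) → L.B} (hΦ : IsPhi c Φ) :
    IsCoc (GLm N (MonoidAlgebra K G)) n fun h => TK L c Φ h where
  inv g x := TK_inv L c Φ g x
  coc x := by
    have h1 : ∀ i : Fin (n + 3), TK L c Φ (fun j => x (i.succAbove j)) =
        TK L c (fun v : Fin (n + 3) → Fin (p ^ m) → G => Φ fun j => v (i.succAbove j)) x :=
      fun i => (TK_face L hΦ.toIsInv x i).symm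
    simp only [h1]
    rw [← TK_sum L Finset.univ (fun i : Fin (n + 3) => (-1 : ℤ) ^ (i : ℕ)) c
      (fun i (v : Fin (n + 3) → Fin (p ^ m) → G) => Φ fun j => v (i.succAbove j)) x]
    have h2 : (fun v : Fin (n + 3) → Fin (p ^ m) → G =>
        ∑ i : Fin (n + 3), (-1 : ℤ) ^ (i : ℕ) • Φ fun j => v (i.succAbove j)) = fun _ => 0 :=
      funext hΦ.coc
    rw [h2]
    exact TK_zero L x

/-- **The functional defined by `Φ`.** -/
noncomputable def trT {Φ : (Fin (n + 2) → Fin (p ^ m) → G) → L.B} (hΦ : IsPhi c Φ) :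
    KQ (MonoidAlgebra K G) n →+ L.B :=
  KQ.lift (fun N => HG.ev (isCoc_TK L N hΦ)) (by
    intro N M w
    rw [HG.ev_map, HG.ev_map, HG.ev_map]
    exact HG.ev_add _ _ _ (fun h => TK_blk L hΦ.toIsInv h) w)

theorem trT_cls {Φ : (Fin (n + 2) → Fin (p ^ m) → G) → L.B} (hΦ : IsPhi c Φ) (N : ℕ)
    (x : HG (GLm N (MonoidAlgebra K G)) n) :
    trT L hΦ (KQ.cls (MonoidAlgebra K G) n N x) = HG.ev (isCoc_TK L N hΦ) x :=
  KQ.lift_cls _ _ N x

theorem TK_smul {ι : Type*} [Fintype ι] [DecidableEq ι] {k : ℕ} (a : ℤ)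
    (Φ : (Fin (k + 1) → Fin (p ^ m) → G) → L.B)
    (h : Fin (k + 1) → (Matrix ι ι (MonoidAlgebra K G))ˣ) :
    TK L c (fun v => a • Φ v) h = a • TK L c Φ h := by
  have h1 := TK_sum L (Finset.univ : Finset Unit) (fun _ => a) c (fun _ => Φ) h
  simpa only [Finset.univ_unique, Finset.sum_singleton] using h1

theorem trT_smul {Φ : (Fin (n + 2) → Fin (p ^ m) → G) → L.B} (hΦ : IsPhi c Φ) (a : ℤ)
    (h : IsPhi c fun v => a • Φ v) (x : KQ (MonoidAlgebra K G) n) :
    trT L h x = a • trT L hΦ x := by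
  suffices H : trT L h = a • trT L hΦ by rw [H]; rfl
  apply KQ.hom_ext
  intro N x
  change trT L h (KQ.cls (MonoidAlgebra K G) n N x) = a • trT L hΦ (KQ.cls (MonoidAlgebra K G) n N x)
  rw [trT_cls, trT_cls]
  have hc : IsCoc (GLm N (MonoidAlgebra K G)) n
      fun y => (DistribSMul.toAddMonoidHom L.B a) (TK L c Φ y) :=
    ⟨fun g y => by rw [(isCoc_TK L N hΦ).inv], fun y => by
      have h2 := congrArg (DistribSMul.toAddMonoidHom L.B a) ((isCoc_TK L N hΦ).coc y)
      rw [map_zero, map_sum] at h2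
      rw [← h2]
      exact Finset.sum_congr rfl fun i _ => (map_zsmul _ _ _).symm⟩
  rw [HG.ev_congr (isCoc_TK L N h) hc (fun y => TK_smul L a Φ y) x,
    HG.ev_comp (isCoc_TK L N hΦ) (DistribSMul.toAddMonoidHom L.B a) hc x]
  rfl

/-- Coboundaries vanish. -/
theorem trT_cob {Φ : (Fin (n + 2) → Fin (p ^ m) → G) → L.B} (hΦ : IsPhi c Φ)
    {Ψ : (Fin (n + 1) → Fin (p ^ m) → G) → L.B} (hΨ : IsInv c Ψ)
    {Φ' : (Fin (n + 2) → Fin (p ^ m) → G) → L.B} (hΦ' : IsPhi c Φ')
    (h : ∀ v, Φ' v = Φ v + ∑ i : Fin (n + 2), (-1 : ℤ) ^ (i : ℕ) • Ψ (fun j => v (i.succAbove j)))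
    (x : KQ (MonoidAlgebra K G) n) : trT L hΦ' x = trT L hΦ x := by
  suffices H : trT L hΦ' = trT L hΦ by rw [H]
  apply KQ.hom_ext
  intro N x
  rw [trT_cls, trT_cls]
  have key : ∀ y : Fin (n + 2) → GLm N (MonoidAlgebra K G), TK L c Φ' y = TK L c Φ y +
      ∑ i : Fin (n + 2), (-1 : ℤ) ^ (i : ℕ) • TK L c Ψ (fun j => y (i.succAbove j)) := by
    intro y
    have h1 : Φ' = fun v => ∑ o : Option (Fin (n + 2)), (o.elim (1 : ℤ) fun i => (-1 : ℤ) ^ (i : ℕ)) •
        (o.elim Φ fun i (v : Fin (n + 2) → Fin (p ^ m) → G) => Ψ fun j => v (i.succAbove j)) v := by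
      funext v
      rw [h v, Fintype.sum_option]
      simp only [Option.elim_none, Option.elim_some, one_smul]
    have h2 := TK_sum L Finset.univ (fun o : Option (Fin (n + 2)) =>
      o.elim (1 : ℤ) fun i => (-1 : ℤ) ^ (i : ℕ)) c
      (fun o => o.elim Φ fun i (v : Fin (n + 2) → Fin (p ^ m) → G) => Ψ fun j => v (i.succAbove j)) y
    rw [← h1, Fintype.sum_option] at h2
    rw [h2]
    simp only [Option.elim_none, Option.elim_some, one_smul]
    congr 1
    refine Finset.sum_congr rfl fun i _ => ?_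
    congr 1
    exact TK_face L hΨ y i
  have hc : IsCoc (GLm N (MonoidAlgebra K G)) n fun y =>
      ∑ i : Fin (n + 2), (-1 : ℤ) ^ (i : ℕ) • TK L c Ψ (fun j => y (i.succAbove j)) := by
    have e : (fun y : Fin (n + 2) → GLm N (MonoidAlgebra K G) =>
        ∑ i : Fin (n + 2), (-1 : ℤ) ^ (i : ℕ) • TK L c Ψ (fun j => y (i.succAbove j))) =
          fun y => TK L c Φ' y - TK L c Φ y := funext fun y => by rw [key y, add_sub_cancel_left]
    rw [e]
    refine ⟨fun g y => ?_, fun y => ?_⟩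
    · exact congrArg₂ (· - ·) ((isCoc_TK L N hΦ').inv g y) ((isCoc_TK L N hΦ).inv g y)
    · simp only [smul_sub, Finset.sum_sub_distrib]
      rw [(isCoc_TK L N hΦ').coc, (isCoc_TK L N hΦ).coc, sub_zero]
  rw [HG.ev_add (isCoc_TK L N hΦ') (isCoc_TK L N hΦ) hc key x,
    HG.ev_cob (fun y => TK L c Ψ y) (fun g y => TK_inv L c Ψ g y) hc x, add_zero]

end

end Pool.Agent.H71.FQ
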