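import Pool.Agent.H13.TFQ.H71.FJ.Main
import Pool.Agent.H13.TFQ.M45
import Pool.Agent.H13.TFQ.M56
import Pool.Agent.H13.TFQ.M63

/-!
# Vanishing of the functionals implies torsion
-/

set_option autoImplicit false

open Matrix
open scoped Classical

universe t u v w

namespace Pool.Agent.H71.FQ

open Pool.Agent.H71.FJ (IdemMat K0 K0.mk K0.map K0.map_map K0.push K0.rk LiftSys IsPrim isPrim_map LT LT_rep LT_eq_sum LT_aut exists_rep_lift dlt dlt_comm cyc_comm mulAut_finite IsInd zpowers_aut sum_ind isPrim_neg liftK map_liftK T Sat)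
open Pool.Agent.H71.DB (BLift)
open Pool.Agent.H95.WH (FamSub conjHom FinSub)

section Van

variable {k : Type u} [Field k] {K : Type t} [Field K] {G : Type v} [Group G] (X : Ctx k K G)
  {n : ℕ}

/-- Vanishing of a uniform multiple of all traces for the elements in `P`. -/
def VanOn (P : G → Prop) (x : KQ (MonoidAlgebra k G) n) : Prop :=
  ∃ M : ℤ, M ≠ 0 ∧ ∀ c, P c → ∀ (hc : IsOfFinOrder c)
    (φ : (Fin (n + 2) → Subgroup.centralizer ({c} : Set G)) → X.L.Lam)
    (hφ : IsCoc (Subgroup.centralizer ({c} : Set G)) n φ) (m : ℕ),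
    (M : X.L.sys.B m) * X.dtr c hc hφ m x = 0

variable {X} {P : G → Prop}

theorem VanOn.mono {Q : G → Prop} (hPQ : ∀ c, Q c → P c) {x : KQ (MonoidAlgebra k G) n}
    (h : VanOn X P x) : VanOn X Q x := by
  obtain ⟨M, hM, h⟩ := h
  exact ⟨M, hM, fun c hc => h c (hPQ c hc)⟩

theorem VanOn.zero : VanOn X P (0 : KQ (MonoidAlgebra k G) n) :=
  ⟨1, one_ne_zero, fun c _ hc φ hφ m => by rw [map_zero, mul_zero]⟩

theorem VanOn.add {x y : KQ (MonoidAlgebra k G) n} (hx : VanOn X P x) (hy : VanOn X P y) :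
    VanOn X P (x + y) := by
  obtain ⟨M, hM, h⟩ := hx
  obtain ⟨N, hN, h'⟩ := hy
  refine ⟨M * N, mul_ne_zero hM hN, fun c hP hc φ hφ m => ?_⟩
  have h1 := h c hP hc φ hφ m
  have h2 := h' c hP hc φ hφ m
  rw [map_add]
  push_cast
  calc (M : X.L.sys.B m) * N * (X.dtr c hc hφ m x + X.dtr c hc hφ m y)
      = N * (M * X.dtr c hc hφ m x) + M * (N * X.dtr c hc hφ m y) := by ring
    _ = 0 := by rw [h1, h2, mul_zero, mul_zero, add_zero]

theorem VanOn.neg {x : KQ (MonoidAlgebra k G) n} (hx : VanOn X P x) : VanOn X P (-x) := by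
  obtain ⟨M, hM, h⟩ := hx
  refine ⟨M, hM, fun c hP hc φ hφ m => ?_⟩
  rw [map_neg, mul_neg, h c hP hc φ hφ m, neg_zero]

theorem VanOn.sub {x y : KQ (MonoidAlgebra k G) n} (hx : VanOn X P x) (hy : VanOn X P y) :
    VanOn X P (x - y) := by
  rw [sub_eq_add_neg]
  exact hx.add hy.neg

theorem VanOn.of_smul {x : KQ (MonoidAlgebra k G) n} {a : ℤ} (ha : a ≠ 0)
    (hx : VanOn X P (a • x)) : VanOn X P x := by
  obtain ⟨M, hM, h⟩ := hx
  refine ⟨M * a, mul_ne_zero hM ha, fun c hP hc φ hφ m => ?_⟩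
  have h1 := h c hP hc φ hφ m
  rw [map_zsmul, zsmul_eq_mul] at h1
  push_cast
  rw [mul_assoc]
  exact h1

theorem VanOn.smul {x : KQ (MonoidAlgebra k G) n} (a : ℤ) (hx : VanOn X P x) :
    VanOn X P (a • x) := by
  obtain ⟨M, hM, h⟩ := hx
  refine ⟨M, hM, fun c hP hc φ hφ m => ?_⟩
  rw [map_zsmul, zsmul_eq_mul, mul_left_comm, h c hP hc φ hφ m, mul_zero]

theorem VanOn.list_sum (l : List (KQ (MonoidAlgebra k G) n)) (h : ∀ a ∈ l, VanOn X P a) :
    VanOn X P l.sum := by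
  induction l with
  | nil => rw [List.sum_nil]; exact VanOn.zero
  | cons a l ih =>
    rw [List.sum_cons]
    exact (h a List.mem_cons_self).add (ih fun b hb => h b (List.mem_cons_of_mem _ hb))

variable (X)

/-- Symbols over a cyclic subgroup `D₀`. -/
noncomputable def OverS (n : ℕ) (D₀ : FamSub G FinSub) [IsCyclic D₀.1] :
    AddSubgroup (HnK0 k G n) :=
  AddSubgroup.closure {w | ∃ y : K0 (MonoidAlgebra k D₀.1), IsPrim X.L.sys X.i y ∧
    ∃ z : HG (Subgroup.centralizer (D₀.1 : Set G)) n, w = sy D₀ y z}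

theorem over_of_conj (D₀ D : FamSub G FinSub) [IsCyclic D₀.1] [IsCyclic D.1] (c : D₀.1) (d : D.1)
    (hc : Subgroup.zpowers c = ⊤) (hd : Subgroup.zpowers d = ⊤) (h : IsConj (c : G) (d : G))
    (y : K0 (MonoidAlgebra k D.1)) (hy : IsPrim X.L.sys X.i y)
    (z : HG (Subgroup.centralizer (D.1 : Set G)) n) : sy D y z ∈ OverS X n D₀ := by
  obtain ⟨g, hg⟩ := isConj_iff.1 h
  have hg' : g⁻¹ * (d : G) * g⁻¹⁻¹ = c := by rw [← hg]; group
  have h1 : ∀ x ∈ D₀.1, g * x * g⁻¹ ∈ D.1 := by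
    intro x hx
    have : (⟨x, hx⟩ : D₀.1) ∈ Subgroup.zpowers c := by rw [hc]; trivial
    obtain ⟨m, hm⟩ := Subgroup.mem_zpowers_iff.1 this
    have hm' : (c : G) ^ m = x := by
      rw [← Subgroup.coe_zpow, hm]
    rw [← hm', ← conj_zpow, hg]
    exact D.1.zpow_mem d.2 m
  have h2 : ∀ x ∈ D.1, g⁻¹ * x * g⁻¹⁻¹ ∈ D₀.1 := by
    intro x hx
    have : (⟨x, hx⟩ : D.1) ∈ Subgroup.zpowers d := by rw [hd]; trivial
    obtain ⟨m, hm⟩ := Subgroup.mem_zpowers_iff.1 this
    have hm' : (d : G) ^ m = x := by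
      rw [← Subgroup.coe_zpow, hm]
    rw [← hm', ← conj_zpow, hg']
    exact D₀.1.zpow_mem c.2 m
  let e : D.1 ≃* D₀.1 :=
    { toFun := conjHom g⁻¹ D.1 D₀.1 h2
      invFun := conjHom g D₀.1 D.1 h1
      left_inv := by
        intro x
        apply Subtype.ext
        change g * (g⁻¹ * (x : G) * g⁻¹⁻¹) * g⁻¹ = x
        group
      right_inv := by
        intro x
        apply Subtype.ext
        change g⁻¹ * (g * (x : G) * g⁻¹) * g⁻¹⁻¹ = x
        group
      map_mul' := map_mul _ }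
  have h3 : (centConj g⁻¹ D.1 D₀.1 h2).comp (centConj g D₀.1 D.1 h1) = MonoidHom.id _ := by
    apply MonoidHom.ext
    intro γ
    apply Subtype.ext
    change g⁻¹⁻¹ * (g⁻¹ * (γ : G) * g) * g⁻¹ = γ
    group
  have hz' : z = HG.map n (centConj g⁻¹ D.1 D₀.1 h2) (HG.map n (centConj g D₀.1 D.1 h1) z) := by
    rw [HG.map_map, h3, HG.map_id]
  rw [hz']
  refine AddSubgroup.subset_closure
    ⟨K0.map (MonoidAlgebra.mapDomainRingHom k e.toMonoidHom) y, isPrim_map X.L.sys X.i e hy,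
      HG.map n (centConj g D₀.1 D.1 h1) z, ?_⟩
  exact (sy_conj D D₀ g⁻¹ h2 y _).symm

/-- generators of `D₀` -/
def IsGen (D₀ : FamSub G FinSub) (c : G) : Prop := ∃ a : D₀.1, (a : G) = c ∧ Subgroup.zpowers a = ⊤

/-- Symbols over other cyclic groups. -/
theorem vanOn_not_over (D₀ D : FamSub G FinSub) [IsCyclic D₀.1] [IsCyclic D.1]
    (ho : ∀ h : D.1, (orderOf h : k) ≠ 0)
    (y : K0 (MonoidAlgebra k D.1)) (hy : IsPrim X.L.sys X.i y)
    (z : HG (Subgroup.centralizer (D.1 : Set G)) n) (h : ¬ sy D y z ∈ OverS X n D₀) :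
    VanOn X (IsGen D₀) (assemblyN k n G (sy D y z)) := by
  have : Finite D.1 := D.2
  have : Fintype D.1 := Fintype.ofFinite D.1
  refine ⟨1, one_ne_zero, fun c hgen hc φ hφ m => ?_⟩
  obtain ⟨c₀, hc₀, hgen⟩ := hgen
  rw [dtr_sy X D ho z c hc hφ m y, Finset.sum_eq_zero, mul_zero, mul_zero]
  intro a _
  by_cases ha : IsConj c (a : G)
  · have h3 : Subgroup.zpowers a ≠ ⊤ := by
      intro h4
      exact h (over_of_conj X D₀ D c₀ a hgen h4 (by rw [hc₀]; exact ha) y hy z)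
    rw [hy m a h3, mul_zero]
  · rw [vl_zero hφ D.1 a ha, map_zero, zero_mul]

/-- Representation of the elements over `D₀`. -/
theorem exists_fam (D₀ : FamSub G FinSub) [IsCyclic D₀.1] {w : HnK0 k G n}
    (hw : w ∈ OverS X n D₀) :
    ∃ (N : ℕ) (y : Fin N → K0 (MonoidAlgebra k D₀.1))
      (z : Fin N → HG (Subgroup.centralizer (D₀.1 : Set G)) n),
      (∀ j, IsPrim X.L.sys X.i (y j)) ∧ w = ∑ j, sy D₀ (y j) (z j) := by
  induction hw using AddSubgroup.closure_induction with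
  | mem x hx =>
    obtain ⟨y, hy, z, rfl⟩ := hx
    exact ⟨1, fun _ => y, fun _ => z, fun _ => hy, by simp⟩
  | zero => exact ⟨0, Fin.elim0, Fin.elim0, fun j => j.elim0, by simp⟩
  | add a b _ _ ha hb =>
    obtain ⟨N, y, z, h1, rfl⟩ := ha
    obtain ⟨N', y', z', h1', rfl⟩ := hb
    refine ⟨N + N', Fin.append y y', Fin.append z z', ?_, ?_⟩
    · intro j
      refine Fin.addCases (fun j => ?_) (fun j => ?_) j
      · rw [Fin.append_left]; exact h1 j
      · rw [Fin.append_right]; exact h1' j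
    · rw [Fin.sum_univ_add]
      simp only [Fin.append_left, Fin.append_right]
  | neg a _ ha =>
    obtain ⟨N, y, z, h1, rfl⟩ := ha
    refine ⟨N, fun j => -y j, z, fun j => isPrim_neg X.L.sys X.i (h1 j), ?_⟩
    rw [← Finset.sum_neg_distrib]
    refine Finset.sum_congr rfl fun j _ => ?_
    rw [← syH_apply, ← syH_apply, map_neg]

theorem cent_of_gen {D : Subgroup G} (c : D) (hc : Subgroup.zpowers c = ⊤) {x : G}
    (hx : x ∈ Subgroup.centralizer ({(c : G)} : Set G)) :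
    x ∈ Subgroup.centralizer (D : Set G) := by
  rw [Subgroup.mem_centralizer_iff]
  intro a ha
  have h1 : (⟨a, ha⟩ : D) ∈ Subgroup.zpowers c := by rw [hc]; trivial
  obtain ⟨m, hm⟩ := Subgroup.mem_zpowers_iff.1 h1
  have hm' : (c : G) ^ m = a := by rw [← Subgroup.coe_zpow, hm]
  rw [← hm']
  have h2 : Commute (c : G) x := Subgroup.mem_centralizer_iff.1 hx c (Set.mem_singleton _)
  exact h2.zpow_left m

/-- the centralizer of a generator -/
def genC {D : Subgroup G} (c : D) (hc : Subgroup.zpowers c = ⊤) :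
    Subgroup.centralizer ({(c : G)} : Set G) →* Subgroup.centralizer (D : Set G) :=
  Subgroup.inclusion fun _ hx => cent_of_gen c hc hx

theorem conj_cent {D : Subgroup G} {w : MulAut D} {g : G}
    (hg : ∀ d : D, (w d : G) = g * d * g⁻¹) (z : Subgroup.centralizer (D : Set G)) :
    g * z * g⁻¹ ∈ Subgroup.centralizer (D : Set G) := by
  rw [Subgroup.mem_centralizer_iff]
  intro a ha
  have h1 : a = g * (w.symm ⟨a, ha⟩ : D) * g⁻¹ := by
    rw [← hg, w.apply_symm_apply]
  have h2 := Subgroup.mem_centralizer_iff.1 z.2 (w.symm ⟨a, ha⟩ : D) (w.symm ⟨a, ha⟩ : D).2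
  calc a * (g * z * g⁻¹) = g * ((w.symm ⟨a, ha⟩ : D) * z) * g⁻¹ := by
        conv_lhs => rw [h1]
        group
    _ = g * (z * (w.symm ⟨a, ha⟩ : D)) * g⁻¹ := by rw [h2]
    _ = g * z * g⁻¹ * a := by
        conv_rhs => rw [h1]
        group

/-- conjugation of the centralizer by an element which normalizes `D` -/
def cAut {D : Subgroup G} {w : MulAut D} {g : G} (hg : ∀ d : D, (w d : G) = g * d * g⁻¹) :
    Subgroup.centralizer (D : Set G) →* Subgroup.centralizer (D : Set G) where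
  toFun z := ⟨g * z * g⁻¹, conj_cent hg z⟩
  map_one' := by
    apply Subtype.ext
    change g * 1 * g⁻¹ = 1
    group
  map_mul' x y := by
    apply Subtype.ext
    change g * (x * y : G) * g⁻¹ = g * x * g⁻¹ * (g * y * g⁻¹)
    group

theorem sy_ind (D₀ : FamSub G FinSub) (w : MulAut D₀.1) (g : G)
    (hg : ∀ d : D₀.1, (w d : G) = g * d * g⁻¹) (y : K0 (MonoidAlgebra k D₀.1))
    (z : HG (Subgroup.centralizer (D₀.1 : Set G)) n) :
    sy D₀ (K0.map (MonoidAlgebra.mapDomainRingHom k w.toMonoidHom) y) (HG.map n (cAut hg) z) =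
      sy D₀ y z := by
  have h1 : ∀ x ∈ D₀.1, g * x * g⁻¹ ∈ D₀.1 := by
    intro x hx
    rw [← hg ⟨x, hx⟩]
    exact (w ⟨x, hx⟩).2
  have h2 : w.toMonoidHom = conjHom g D₀.1 D₀.1 h1 := by
    apply MonoidHom.ext
    intro a
    exact Subtype.ext (hg a)
  have h3 : (centConj g D₀.1 D₀.1 h1).comp (cAut hg) = MonoidHom.id _ := by
    apply MonoidHom.ext
    intro γ
    apply Subtype.ext
    change g⁻¹ * (g * (γ : G) * g⁻¹) * g = γ
    group
  rw [h2, sy_conj, HG.map_map, h3, HG.map_id]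

theorem torsion_over (D₀ : FamSub G FinSub) [IsCyclic D₀.1]
    (ho : ∀ h : D₀.1, (orderOf h : k) ≠ 0)
    (hsep : ∀ b : HG (Subgroup.centralizer (D₀.1 : Set G)) n,
      (∀ (φ : (Fin (n + 2) → Subgroup.centralizer (D₀.1 : Set G)) → X.L.Lam)
        (hφ : IsCoc (Subgroup.centralizer (D₀.1 : Set G)) n φ), HG.ev hφ b = 0) →
        ∃ m : ℤ, m ≠ 0 ∧ m • b = 0)
    (N : ℕ) (y : Fin N → K0 (MonoidAlgebra k D₀.1)) (hy : ∀ j, IsPrim X.L.sys X.i (y j))
    (z : Fin N → HG (Subgroup.centralizer (D₀.1 : Set G)) n)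
    (hv : VanOn X (IsGen D₀) (assemblyN k n G (∑ j, sy D₀ (y j) (z j)))) :
    ∃ m : ℤ, m ≠ 0 ∧ m • ∑ j, sy D₀ (y j) (z j) = 0 := by
  have : Finite D₀.1 := D₀.2
  have : Fintype D₀.1 := Fintype.ofFinite D₀.1
  have := mulAut_finite D₀.1
  have : Fintype (MulAut D₀.1) := Fintype.ofFinite _
  obtain ⟨M, hM, hv⟩ := hv
  obtain ⟨M', hM'def⟩ : ∃ M' : ℤ, M' = M *
    ((Fintype.card D₀.1 * X.p ^ X.r : ℕ) : ℤ) ^ (n + 2) := ⟨_, rfl⟩
  have hM' : M' ≠ 0 := by
    rw [hM'def]
    refine mul_ne_zero hM (pow_ne_zero _ ?_)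
    exact_mod_cast mul_ne_zero Fintype.card_ne_zero (pow_ne_zero _ X.hp.ne_zero)
  have hS' : ∀ c : G, IsGen D₀ c → ∀ (hc : IsOfFinOrder c)
      (φ : (Fin (n + 2) → Subgroup.centralizer ({c} : Set G)) → X.L.Lam)
      (hφ : IsCoc (Subgroup.centralizer ({c} : Set G)) n φ) (m : ℕ),
      (M' : X.L.sys.B m) * ∑ j, ∑ a : D₀.1, X.L.th m (vl hφ D₀.1 a (z j)) *
        LT X.L.sys m X.i (dlt (X.L.sys.B m) a) (dlt_comm _ a) (y j) = 0 := by
    intro c hgen hc φ hφ m
    have h1 := hv c hgen hc φ hφ m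
    rw [map_sum, map_sum] at h1
    have h2 : X.d c = ((Fintype.card D₀.1 * X.p ^ X.r : ℕ) : ℤ) := by
      obtain ⟨a, rfl, ha⟩ := hgen
      have h3 : orderOf (a : G) = Fintype.card D₀.1 := by
        rw [Subgroup.orderOf_coe, ← Nat.card_zpowers, ha, Subgroup.card_top,
          Nat.card_eq_fintype_card]
      rw [Ctx.d, h3]
    rw [Finset.sum_congr rfl fun j _ => dtr_sy X D₀ ho (z j) c hc hφ m (y j), h2,
      ← Finset.mul_sum, ← mul_assoc] at h1
    rw [hM'def]
    push_cast at h1 ⊢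
    exact h1
  let ι := {w : MulAut D₀.1 // IsInd D₀.1 w}
  have : Fintype ι := Fintype.ofFinite _
  choose g hg using fun w : ι => w.2
  obtain ⟨m, hm, h⟩ := det_tensor X.L X.i
    (fun ν : HG (Subgroup.centralizer (D₀.1 : Set G)) n →+ X.L.Lam =>
      ∃ (φ : (Fin (n + 2) → Subgroup.centralizer (D₀.1 : Set G)) → X.L.Lam)
        (hφ : IsCoc (Subgroup.centralizer (D₀.1 : Set G)) n φ), ν = HG.ev hφ) ho
    (fun b hb => hsep b fun φ hφ => hb _ ⟨φ, hφ, rfl⟩) (syB (k := k) D₀)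
    (fun p : ι × Fin N => K0.map (MonoidAlgebra.mapDomainRingHom k p.1.1.toMonoidHom) (y p.2))
    (fun p : ι × Fin N => HG.map n (cAut (hg p.1)) (z p.2)) M' hM' (by
      rintro m c ν ⟨φ, hφ, rfl⟩
      by_cases hc : Subgroup.zpowers c = ⊤
      · have hcfin : IsOfFinOrder (c : G) := D₀.1.subtype.isOfFinOrder (isOfFinOrder_of_finite c)
        have hφ' := hφ.comp (genC c hc)
        rw [← hS' (c : G) ⟨c, rfl, hc⟩ hcfin _ hφ' m]
        congr 1
        rw [Fintype.sum_prod_type_right]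
        refine Finset.sum_congr rfl fun j _ => ?_
        have h1 : ∑ a : D₀.1, X.L.th m (vl hφ' D₀.1 a (z j)) *
              LT X.L.sys m X.i (dlt (X.L.sys.B m) a) (dlt_comm _ a) (y j) =
            ∑ a ∈ Finset.univ.filter (fun d : D₀.1 => IsConj (c : G) (d : G)),
              X.L.th m (vl hφ' D₀.1 a (z j)) *
                LT X.L.sys m X.i (dlt (X.L.sys.B m) a) (dlt_comm _ a) (y j) := by
          rw [Finset.sum_filter]
          refine Finset.sum_congr rfl fun a _ => ?_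
          by_cases ha : IsConj (c : G) (a : G)
          · rw [if_pos ha]
          · rw [if_neg ha, vl_zero hφ' D₀.1 a ha, map_zero, zero_mul]
        rw [h1, ← sum_ind D₀.1 c hc (fun a => X.L.th m (vl hφ' D₀.1 a (z j)) *
          LT X.L.sys m X.i (dlt (X.L.sys.B m) a) (dlt_comm _ a) (y j))]
        have h2 : ∀ w : ι, X.L.th m (HG.ev hφ (HG.map n (cAut (hg w)) (z j))) *
            LT X.L.sys m X.i (dlt (X.L.sys.B m) c) (dlt_comm _ c)
              (K0.map (MonoidAlgebra.mapDomainRingHom k w.1.toMonoidHom) (y j)) =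
            X.L.th m (vl hφ' D₀.1 (w.1.symm c) (z j)) *
              LT X.L.sys m X.i (dlt (X.L.sys.B m) (w.1.symm c)) (dlt_comm _ (w.1.symm c)) (y j) := by
          intro w
          rw [LT_aut X.L.sys X.i m w.1 c (y j)]
          congr 2
          have h3 : g w * ((w.1.symm c : D₀.1) : G) * (g w)⁻¹ = (c : G) := by
            rw [← hg w, w.1.apply_symm_apply]
          rw [vl_eq hφ' D₀.1 (w.1.symm c) (g w) h3, ← HG.ev_map hφ (genC c hc), HG.map_map]
          congr 1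
        rw [Finset.sum_congr rfl fun w _ => h2 w]
        exact (Finset.sum_subtype _ (fun w => by simp)
          (fun w : MulAut D₀.1 => X.L.th m (vl hφ' D₀.1 (w.symm c) (z j)) *
              LT X.L.sys m X.i (dlt (X.L.sys.B m) (w.symm c)) (dlt_comm _ (w.symm c)) (y j))).symm
      · rw [Finset.sum_eq_zero, mul_zero]
        intro p _
        rw [LT_aut X.L.sys X.i m p.1.1 c (y p.2), hy p.2 m _ (zpowers_aut p.1.1.symm c hc),
          mul_zero])
  have h7 : ∑ p : ι × Fin N, syB D₀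
      (K0.map (MonoidAlgebra.mapDomainRingHom k p.1.1.toMonoidHom) (y p.2))
      (HG.map n (cAut (hg p.1)) (z p.2)) =
      (Fintype.card ι : ℤ) • ∑ j, sy D₀ (y j) (z j) := by
    rw [Fintype.sum_prod_type]
    have h8 : ∀ w : ι, ∑ j : Fin N, syB D₀
        (K0.map (MonoidAlgebra.mapDomainRingHom k w.1.toMonoidHom) (y j))
        (HG.map n (cAut (hg w)) (z j)) = ∑ j, sy D₀ (y j) (z j) := by
      intro w
      refine Finset.sum_congr rfl fun j _ => ?_
      rw [syB_apply]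
      exact sy_ind D₀ w.1 (g w) (hg w) (y j) (z j)
    rw [Finset.sum_congr rfl fun w _ => h8 w, Finset.sum_const, Finset.card_univ, natCast_zsmul]
  rw [h7, smul_smul] at h
  have hne : Nonempty ι := ⟨⟨1, 1, fun d => by simp⟩⟩
  exact ⟨m * Fintype.card ι, mul_ne_zero hm (by exact_mod_cast Fintype.card_ne_zero), h⟩

/-- Sums of primitive symbols. -/
theorem split_list (D₀ : FamSub G FinSub) [IsCyclic D₀.1] (l : List (HnK0 k G n))
    (hl : ∀ w ∈ l, w ∈ PSet X.L.sys X.i G n) :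
    ∃ w₀ ∈ OverS X n D₀, ∃ l' : List (HnK0 k G n),
      (∀ w ∈ l', w ∈ PSet X.L.sys X.i G n ∧ w ∉ OverS X n D₀) ∧ l'.length ≤ l.length ∧
        l.sum = w₀ + l'.sum := by
  induction l with
  | nil => exact ⟨0, AddSubgroup.zero_mem _, [], by simp, le_rfl, by simp⟩
  | cons w l ih =>
    obtain ⟨w₀, hw₀, l', h1, h2, h3⟩ := ih (fun w hw => hl w (List.mem_cons_of_mem _ hw))
    by_cases hw : w ∈ OverS X n D₀
    · refine ⟨w + w₀, AddSubgroup.add_mem _ hw hw₀, l', h1, h2.trans (by simp), ?_⟩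
      rw [List.sum_cons, h3, add_assoc]
    · refine ⟨w₀, hw₀, w :: l', ?_, by simpa using h2, ?_⟩
      · intro w' hw'
        rcases List.mem_cons.1 hw' with rfl | hw'
        · exact ⟨hl _ List.mem_cons_self, hw⟩
        · exact h1 w' hw'
      · rw [List.sum_cons, List.sum_cons, h3]
        abel

variable (hsep : ∀ D : FamSub G FinSub, IsCyclic D.1 → (∀ h : D.1, (orderOf h : k) ≠ 0) →
  ∀ b : HG (Subgroup.centralizer (D.1 : Set G)) n,
    (∀ (φ : (Fin (n + 2) → Subgroup.centralizer (D.1 : Set G)) → X.L.Lam)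
      (hφ : IsCoc (Subgroup.centralizer (D.1 : Set G)) n φ), HG.ev hφ b = 0) →
      ∃ m : ℤ, m ≠ 0 ∧ m • b = 0)

include hsep in
theorem torsion_list (N : ℕ) : ∀ l : List (HnK0 k G n), l.length = N →
    (∀ w ∈ l, w ∈ PSet X.L.sys X.i G n) →
    VanOn X (fun _ => True) (assemblyN k n G l.sum) →
    ∃ m : ℤ, m ≠ 0 ∧ m • l.sum = 0 := by
  induction N using Nat.strong_induction_on with
  | _ N ih =>
    intro l hN hl hv
    match l, hN, hl, hv with
    | [], _, _, _ => exact ⟨1, one_ne_zero, by simp⟩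
    | w :: l, hN, hl, hv =>
      obtain ⟨D₀, hD₀, ho, y₀, hy₀, z₀, hw⟩ := hl w List.mem_cons_self
      have hwO : w ∈ OverS X n D₀ := by
        rw [hw]
        exact AddSubgroup.subset_closure ⟨y₀, hy₀, z₀, rfl⟩
      obtain ⟨w₁, hw₁, l', h1, h2, h3⟩ := split_list X D₀ l
        (fun w hw => hl w (List.mem_cons_of_mem _ hw))
      obtain ⟨N', y, z, hy, hfam⟩ := exists_fam X D₀ (AddSubgroup.add_mem _ hwO hw₁)
      have e1 : (w :: l).sum = (w + w₁) + l'.sum := by rw [List.sum_cons, h3, add_assoc]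
      have hrest : VanOn X (IsGen D₀) (assemblyN k n G l'.sum) := by
        rw [map_list_sum]
        apply VanOn.list_sum
        intro a ha
        obtain ⟨w', hw', rfl⟩ := List.mem_map.1 ha
        obtain ⟨⟨D, hD, ho', y', hy', z', rfl⟩, hno⟩ := h1 w' hw'
        exact vanOn_not_over X D₀ D ho' y' hy' z' hno
      have hv0 : VanOn X (IsGen D₀) (assemblyN k n G (w + w₁)) := by
        have e2 : assemblyN k n G (w + w₁) =
            assemblyN k n G (w :: l).sum - assemblyN k n G l'.sum := by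
          rw [e1, map_add (assemblyN k n G) (w + w₁), add_sub_cancel_right]
        rw [e2]
        exact (hv.mono fun _ _ => trivial).sub hrest
      rw [hfam] at hv0
      obtain ⟨m, hm, hm0⟩ := torsion_over X D₀ ho (hsep D₀ hD₀ ho) N' y hy z hv0
      rw [← hfam] at hm0
      have hv1 : VanOn X (fun _ => True) (assemblyN k n G l'.sum) := by
        apply VanOn.of_smul hm
        have e3 : m • assemblyN k n G l'.sum = m • assemblyN k n G (w :: l).sum := by
          rw [e1, map_add (assemblyN k n G) (w + w₁), smul_add,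
            ← map_zsmul (assemblyN k n G) m (w + w₁), hm0, map_zero, zero_add]
        rw [e3]
        exact hv.smul m
      obtain ⟨m', hm', h4⟩ := ih l'.length (by rw [← hN, List.length_cons]; omega) l' rfl
        (fun w hw => (h1 w hw).1) hv1
      refine ⟨m * m', mul_ne_zero hm hm', ?_⟩
      rw [e1, smul_add, mul_smul m m' l'.sum, h4, smul_zero, add_zero, mul_comm, mul_smul, hm0,
        smul_zero]

theorem pSet_neg {w : HnK0 k G n} (hw : w ∈ PSet X.L.sys X.i G n) :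
    -w ∈ PSet X.L.sys X.i G n := by
  obtain ⟨D, hD, ho, y, hy, z, rfl⟩ := hw
  refine ⟨D, hD, ho, -y, isPrim_neg X.L.sys X.i hy, z, ?_⟩
  rw [← syH_apply, ← syH_apply, map_neg]

theorem exists_list {w : HnK0 k G n}
    (hw : w ∈ AddSubgroup.closure (PSet X.L.sys X.i G n)) :
    ∃ l : List (HnK0 k G n), (∀ w ∈ l, w ∈ PSet X.L.sys X.i G n) ∧ l.sum = w := by
  induction hw using AddSubgroup.closure_induction with
  | mem x hx => exact ⟨[x], by simpa using hx, by simp⟩
  | zero => exact ⟨[], by simp, rfl⟩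
  | add x y _ _ hx hy =>
    obtain ⟨l, h1, rfl⟩ := hx
    obtain ⟨l', h1', rfl⟩ := hy
    refine ⟨l ++ l', ?_, List.sum_append⟩
    intro z hz
    rcases List.mem_append.1 hz with h | h
    · exact h1 z h
    · exact h1' z h
  | neg x _ hx =>
    obtain ⟨l, h1, rfl⟩ := hx
    refine ⟨l.map (- ·), ?_, ?_⟩
    · intro z hz
      obtain ⟨y, hy, rfl⟩ := List.mem_map.1 hz
      exact pSet_neg X (h1 y hy)
    · have hneg : ∀ l : List (HnK0 k G n), (l.map (- ·)).sum = - l.sum := by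
        intro l
        induction l with
        | nil => simp
        | cons a l ih => rw [List.map_cons, List.sum_cons, List.sum_cons, ih, neg_add]
      exact hneg l

include hsep in
/-- If all traces of `assemblyN w` vanish up to a uniform multiple then `w` is torsion. -/
theorem torsion_of_vanOn (w : HnK0 k G n) (hv : VanOn X (fun _ => True) (assemblyN k n G w)) :
    ∃ m : ℤ, m ≠ 0 ∧ m • w = 0 := by
  obtain ⟨m, hm, hw⟩ := mem_sat X.L.sys X.i w
  obtain ⟨l, h1, hl⟩ := exists_list X hw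
  obtain ⟨m', hm', h2⟩ := torsion_list X hsep l.length l rfl h1 (by
    rw [hl, map_zsmul]
    exact hv.smul m)
  exact ⟨m' * m, mul_ne_zero hm' hm, by rw [mul_smul, ← hl, h2]⟩

end Van

end Pool.Agent.H71.FQ
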