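import Pool.Agent.H13.TFQ.M17
import Pool.Agent.H13.TFQ.M50

/-!
# Project FQ: functoriality of the source of the assembly map

For commuting homomorphisms `f : H → G` (`H` finite) and `κ : Γ → G` the element `gsym f κ x z` of `HnK0 R G n` is
the symbol of the subgroup `f(H)`, the image of `x` and the image of `z` in the homology of the centralizer of
`f(H)`. `HnK0.map φ` sends `[F, x, z]` to `gsym (φ ∘ incl) (φ ∘ incl) x z`; this is defined for all homomorphisms
of groups.

PROOFS. `gsym_comp`: the relation `symC` with `g = 1` for `range (f ∘ ψ) ⊆ range f`, and `K0.map_map`, `HG.map_map`.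
`gsym_map`: `HG.map_map`. `gsym_conj`: the relation `symC` for `g`. `symF_le`: as `symRel_le` in Defs.lean with `gsym`
in place of `gasm`. `assemblyN_gsym`: `gasm_comp`, `gasm_map`. `map_gasm'`: `map_asm`. `exists_lift`: for a symbol
`[F, x, z]` the finite set is `F` together with the set of `HG.exists_lift` for `z`; if `G'` contains it then
`F → G` factors as `F → G' → G` and `z` comes from the subgroup `G'.subgroupOf (Z_G(F))` of `Z_G(F)`.
-/

set_option autoImplicit false

open Matrix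

universe u v w

namespace Pool.Agent.H71.FQ

open Pool.Agent.H71.FJ (MatEquiv IdemMat K0 K0.mk K0.lift K0.lift_mk K0.hom_ext K0.map K0.map_map)
open Pool.Agent.H95.WH (FamSub conjHom FinSub)

section

variable {R : Type u} [Ring R] {G : Type v} [Group G] {n : ℕ}

/-- The class of the symbol `[F, x, z]`. -/
noncomputable def gen (F : FamSub G FinSub) (x : K0 (MonoidAlgebra R F.1))
    (z : HG (Subgroup.centralizer (F.1 : Set G)) n) : HnK0 R G n :=
  QuotientAddGroup.mk (symOf R G n F x z)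

theorem gen_conj (F F' : FamSub G FinSub) (g : G) (h : ∀ x ∈ F.1, g * x * g⁻¹ ∈ F'.1)
    (x : K0 (MonoidAlgebra R F.1)) (z : HG (Subgroup.centralizer (F'.1 : Set G)) n) :
    gen F' (K0.map (MonoidAlgebra.mapDomainRingHom R (conjHom g F.1 F'.1 h)) x) z =
      gen F x (HG.map n (centConj g F.1 F'.1 h) z) := by
  refine (QuotientAddGroup.eq_iff_sub_mem).2 ?_
  exact AddSubgroup.subset_closure (Or.inr ⟨F, F', g, h, x, z, rfl⟩)

theorem gen_add_left (F : FamSub G FinSub) (x y : K0 (MonoidAlgebra R F.1))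
    (z : HG (Subgroup.centralizer (F.1 : Set G)) n) : gen F (x + y) z = gen F x z + gen F y z := by
  refine (QuotientAddGroup.eq_iff_sub_mem).2 ?_
  exact AddSubgroup.subset_closure (Or.inl (Or.inl ⟨F, x, y, z, rfl⟩))

theorem gen_add_right (F : FamSub G FinSub) (x : K0 (MonoidAlgebra R F.1))
    (z z' : HG (Subgroup.centralizer (F.1 : Set G)) n) :
    gen F x (z + z') = gen F x z + gen F x z' := by
  refine (QuotientAddGroup.eq_iff_sub_mem).2 ?_
  exact AddSubgroup.subset_closure (Or.inl (Or.inr ⟨F, x, z, z', rfl⟩))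

variable {H : Type*} [Group H] [Finite H] {Γ : Type w} [Group Γ]

/-- the image of a finite group -/
abbrev rangeF (f : H →* G) : FamSub G FinSub :=
  ⟨f.range, Finite.of_surjective f.rangeRestrict f.rangeRestrict_surjective⟩

/-- a homomorphism with values commuting with the values of `f` -/
def centRestrict (f : H →* G) (κ : Γ →* G) (h : ∀ γ a, f a * κ γ = κ γ * f a) :
    Γ →* Subgroup.centralizer ((rangeF f).1 : Set G) :=
  κ.codRestrict _ fun γ => by
    rw [Subgroup.mem_centralizer_iff]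
    rintro _ ⟨a, rfl⟩
    exact h γ a

/-- The class of a pair of commuting homomorphisms. -/
noncomputable def gsym (f : H →* G) (κ : Γ →* G) (h : ∀ γ a, f a * κ γ = κ γ * f a)
    (x : K0 (MonoidAlgebra R H)) (z : HG Γ n) : HnK0 R G n :=
  gen (rangeF f) (K0.map (MonoidAlgebra.mapDomainRingHom R f.rangeRestrict) x)
    (HG.map n (centRestrict f κ h) z)

theorem gsym_add_left (f : H →* G) (κ : Γ →* G) (h : ∀ γ a, f a * κ γ = κ γ * f a)
    (x y : K0 (MonoidAlgebra R H)) (z : HG Γ n) :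
    gsym f κ h (x + y) z = gsym f κ h x z + gsym f κ h y z := by
  rw [gsym, map_add, gen_add_left]
  rfl

theorem gsym_add_right (f : H →* G) (κ : Γ →* G) (h : ∀ γ a, f a * κ γ = κ γ * f a)
    (x : K0 (MonoidAlgebra R H)) (z z' : HG Γ n) :
    gsym f κ h x (z + z') = gsym f κ h x z + gsym f κ h x z' := by
  rw [gsym, map_add, gen_add_right]
  rfl

theorem gsym_comp {H' : Type*} [Group H'] [Finite H'] (f : H →* G) (ψ : H' →* H) (κ : Γ →* G)
    (h : ∀ γ a, f a * κ γ = κ γ * f a) (h' : ∀ γ a, (f.comp ψ) a * κ γ = κ γ * (f.comp ψ) a)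
    (x : K0 (MonoidAlgebra R H')) (z : HG Γ n) :
    gsym f κ h (K0.map (MonoidAlgebra.mapDomainRingHom R ψ) x) z =
      gsym (f.comp ψ) κ h' x z := by
  have hr : ∀ x ∈ (rangeF (f.comp ψ)).1, (1 : G) * x * (1 : G)⁻¹ ∈ (rangeF f).1 := by
    rintro _ ⟨a, rfl⟩
    rw [one_mul, inv_one, mul_one]
    exact ⟨ψ a, rfl⟩
  have e1 : (MonoidAlgebra.mapDomainRingHom R f.rangeRestrict).comp
      (MonoidAlgebra.mapDomainRingHom R ψ) =
      (MonoidAlgebra.mapDomainRingHom R (conjHom 1 (rangeF (f.comp ψ)).1 (rangeF f).1 hr)).comp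
        (MonoidAlgebra.mapDomainRingHom R (f.comp ψ).rangeRestrict) := by
    rw [← MonoidAlgebra.mapDomainRingHom_comp, ← MonoidAlgebra.mapDomainRingHom_comp]
    congr 1
    refine MonoidHom.ext fun a => Subtype.ext ?_
    change f (ψ a) = 1 * f (ψ a) * 1⁻¹
    rw [one_mul, inv_one, mul_one]
  have e2 : (centConj 1 (rangeF (f.comp ψ)).1 (rangeF f).1 hr).comp (centRestrict f κ h) =
      centRestrict (f.comp ψ) κ h' := by
    refine MonoidHom.ext fun a => Subtype.ext ?_
    change (1 : G)⁻¹ * κ a * 1 = κ a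
    rw [inv_one, one_mul, mul_one]
  rw [gsym, gsym, K0.map_map, e1, ← K0.map_map, gen_conj, HG.map_map, e2]

theorem gsym_map {Γ' : Type*} [Group Γ'] (f : H →* G) (κ : Γ →* G) (ψ : Γ' →* Γ)
    (h : ∀ γ a, f a * κ γ = κ γ * f a) (h' : ∀ γ a, f a * (κ.comp ψ) γ = (κ.comp ψ) γ * f a)
    (x : K0 (MonoidAlgebra R H)) (z : HG Γ' n) :
    gsym f κ h x (HG.map n ψ z) = gsym f (κ.comp ψ) h' x z := by
  rw [gsym, gsym, HG.map_map]
  rfl

theorem gsym_conj (f f' : H →* G) (κ κ' : Γ →* G) (g : G) (h : ∀ γ a, f a * κ γ = κ γ * f a)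
    (h' : ∀ γ a, f' a * κ' γ = κ' γ * f' a) (hf : ∀ a, f' a = g * f a * g⁻¹)
    (hκ : ∀ γ, κ' γ = g * κ γ * g⁻¹) (x : K0 (MonoidAlgebra R H)) (z : HG Γ n) :
    gsym f' κ' h' x z = gsym f κ h x z := by
  have hr : ∀ x ∈ (rangeF f).1, g * x * g⁻¹ ∈ (rangeF f').1 := by
    rintro _ ⟨a, rfl⟩
    exact ⟨a, hf a⟩
  have e1 : (MonoidAlgebra.mapDomainRingHom R f'.rangeRestrict) =
      (MonoidAlgebra.mapDomainRingHom R (conjHom g (rangeF f).1 (rangeF f').1 hr)).comp
        (MonoidAlgebra.mapDomainRingHom R f.rangeRestrict) := by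
    rw [← MonoidAlgebra.mapDomainRingHom_comp]
    congr 1
    exact MonoidHom.ext fun a => Subtype.ext (hf a)
  have e2 : (centConj g (rangeF f).1 (rangeF f').1 hr).comp (centRestrict f' κ' h') =
      centRestrict f κ h := by
    refine MonoidHom.ext fun a => Subtype.ext ?_
    change g⁻¹ * κ' a * g = κ a
    rw [hκ]
    group
  rw [gsym, gsym, e1, ← K0.map_map, gen_conj, HG.map_map, e2]

/-- the class of a symbol is the class of the inclusions -/
theorem gen_eq_gsym (F : FamSub G FinSub) (x : K0 (MonoidAlgebra R F.1))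
    (z : HG (Subgroup.centralizer (F.1 : Set G)) n) (hF : Finite F.1) :
    gen F x z = gsym F.1.subtype (Subgroup.centralizer (F.1 : Set G)).subtype
      (cent_comm F.1) x z := by
  have hr : ∀ x ∈ F.1, (1 : G) * x * (1 : G)⁻¹ ∈ (rangeF F.1.subtype).1 := by
    intro a ha
    rw [one_mul, inv_one, mul_one]
    exact ⟨⟨a, ha⟩, rfl⟩
  have e1 : (MonoidAlgebra.mapDomainRingHom R F.1.subtype.rangeRestrict) =
      MonoidAlgebra.mapDomainRingHom R (conjHom 1 F.1 (rangeF F.1.subtype).1 hr) := by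
    congr 1
    refine MonoidHom.ext fun a => Subtype.ext ?_
    change (a : G) = 1 * a * 1⁻¹
    rw [one_mul, inv_one, mul_one]
  have e2 : (centConj 1 F.1 (rangeF F.1.subtype).1 hr).comp
      (centRestrict F.1.subtype (Subgroup.centralizer (F.1 : Set G)).subtype (cent_comm F.1)) =
      MonoidHom.id _ := by
    refine MonoidHom.ext fun a => Subtype.ext ?_
    change (1 : G)⁻¹ * a * 1 = a
    rw [inv_one, one_mul, mul_one]
  rw [gsym, e1, gen_conj, HG.map_map, e2, HG.map_id]

end

section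

variable (R : Type u) [Ring R] (n : ℕ) {G : Type v} [Group G] {G' : Type w} [Group G']

theorem comm_map (φ : G →* G') (F : Subgroup G) (z : Subgroup.centralizer (F : Set G)) (a : F) :
    (φ.comp F.subtype) a * (φ.comp (Subgroup.centralizer (F : Set G)).subtype) z =
      (φ.comp (Subgroup.centralizer (F : Set G)).subtype) z * (φ.comp F.subtype) a := by
  have h := congrArg φ (cent_comm F z a)
  rw [map_mul, map_mul] at h
  exact h

/-- The image of a symbol. -/
noncomputable def symF (φ : G →* G') (s : Sym R G n) : HnK0 R G' n :=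
  haveI : Finite s.F.1 := s.F.2
  gsym (φ.comp s.F.1.subtype) (φ.comp (Subgroup.centralizer (s.F.1 : Set G)).subtype)
    (comm_map φ s.F.1) s.x s.z

theorem symF_le (φ : G →* G') : SymRel R G n ≤ (FreeAbelianGroup.lift (symF R n φ)).ker := by
  rw [SymRel, AddSubgroup.closure_le]
  rintro w ((⟨F, x, y, z, rfl⟩ | ⟨F, x, z, z', rfl⟩) | ⟨F, F', g, h, x, z, rfl⟩)
  · change FreeAbelianGroup.lift (symF R n φ) _ = 0
    rw [symX, symOf, symOf, symOf, map_sub, map_add, FreeAbelianGroup.lift_apply_of,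
      FreeAbelianGroup.lift_apply_of, FreeAbelianGroup.lift_apply_of]
    haveI : Finite F.1 := F.2
    exact sub_eq_zero.2 (gsym_add_left (φ.comp F.1.subtype) _ (comm_map φ F.1) x y z)
  · change FreeAbelianGroup.lift (symF R n φ) _ = 0
    rw [symZ, symOf, symOf, symOf, map_sub, map_add, FreeAbelianGroup.lift_apply_of,
      FreeAbelianGroup.lift_apply_of, FreeAbelianGroup.lift_apply_of]
    haveI : Finite F.1 := F.2
    exact sub_eq_zero.2 (gsym_add_right (φ.comp F.1.subtype) _ (comm_map φ F.1) x z z')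
  · change FreeAbelianGroup.lift (symF R n φ) _ = 0
    rw [symC, symOf, symOf, map_sub, FreeAbelianGroup.lift_apply_of,
      FreeAbelianGroup.lift_apply_of, sub_eq_zero]
    haveI : Finite F.1 := F.2
    haveI : Finite F'.1 := F'.2
    change gsym (φ.comp F'.1.subtype) (φ.comp (Subgroup.centralizer (F'.1 : Set G)).subtype)
        (comm_map φ F'.1) (K0.map (MonoidAlgebra.mapDomainRingHom R (conjHom g F.1 F'.1 h)) x) z =
      gsym (φ.comp F.1.subtype) (φ.comp (Subgroup.centralizer (F.1 : Set G)).subtype)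
        (comm_map φ F.1) x (HG.map n (centConj g F.1 F'.1 h) z)
    have h1 : ∀ (γ : Subgroup.centralizer (F'.1 : Set G)) (a : F.1),
        ((φ.comp F'.1.subtype).comp (conjHom g F.1 F'.1 h)) a *
          (φ.comp (Subgroup.centralizer (F'.1 : Set G)).subtype) γ =
        (φ.comp (Subgroup.centralizer (F'.1 : Set G)).subtype) γ *
          ((φ.comp F'.1.subtype).comp (conjHom g F.1 F'.1 h)) a := fun γ a =>
      comm_map φ F'.1 γ (conjHom g F.1 F'.1 h a)
    have h2 : ∀ (γ : Subgroup.centralizer (F'.1 : Set G)) (a : F.1),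
        (φ.comp F.1.subtype) a * ((φ.comp (Subgroup.centralizer (F.1 : Set G)).subtype).comp
          (centConj g F.1 F'.1 h)) γ =
        ((φ.comp (Subgroup.centralizer (F.1 : Set G)).subtype).comp (centConj g F.1 F'.1 h)) γ *
          (φ.comp F.1.subtype) a := fun γ a => comm_map φ F.1 (centConj g F.1 F'.1 h γ) a
    rw [gsym_comp (φ.comp F'.1.subtype) (conjHom g F.1 F'.1 h) _ (comm_map φ F'.1) h1,
      gsym_map (φ.comp F.1.subtype) _ (centConj g F.1 F'.1 h) (comm_map φ F.1) h2]
    apply gsym_conj _ _ _ _ (φ g)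
    · intro a
      change φ (g * a * g⁻¹) = φ g * φ a * (φ g)⁻¹
      rw [map_mul, map_mul, map_inv]
    · intro γ
      change φ γ = φ g * φ (g⁻¹ * γ * g) * (φ g)⁻¹
      rw [map_mul, map_mul, map_inv]
      group

/-- homomorphisms which agree on the symbols agree -/
theorem HnK0.hom_ext {M : Type*} [AddCommGroup M] {f g : HnK0 R G n →+ M}
    (h : ∀ (F : FamSub G FinSub) (x : K0 (MonoidAlgebra R F.1))
      (z : HG (Subgroup.centralizer (F.1 : Set G)) n), f (gen F x z) = g (gen F x z)) : f = g := by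
  apply QuotientAddGroup.addMonoidHom_ext (SymRel R G n)
  apply FreeAbelianGroup.lift_ext
  rintro ⟨F, x, z⟩
  exact h F x z

theorem asm_congr' {A : Type*} [Ring A] {B : Type*} [Ring B] {Γ : Type*} [Group Γ]
    {φ φ' : B →+* A} {κ κ' : Γ →* Aˣ} (e : φ = φ') (e' : κ = κ')
    (hκ : ∀ γ b, φ b * (κ γ : A) = κ γ * φ b) (hκ' : ∀ γ b, φ' b * (κ' γ : A) = κ' γ * φ' b)
    (x : K0 B) (z : HG Γ n) : asm n φ κ hκ x z = asm n φ' κ' hκ' x z := by
  subst e
  subst e'
  rfl

/-- Functoriality of the source of the assembly map. -/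
noncomputable def HnK0.map (φ : G →* G') : HnK0 R G n →+ HnK0 R G' n :=
  QuotientAddGroup.lift (SymRel R G n) (FreeAbelianGroup.lift (symF R n φ)) (symF_le R n φ)

theorem HnK0.map_gen (φ : G →* G') (F : FamSub G FinSub) (x : K0 (MonoidAlgebra R F.1))
    (z : HG (Subgroup.centralizer (F.1 : Set G)) n) (hF : Finite F.1) :
    HnK0.map R n φ (gen F x z) = gsym (φ.comp F.1.subtype)
      (φ.comp (Subgroup.centralizer (F.1 : Set G)).subtype) (comm_map φ F.1) x z :=
  FreeAbelianGroup.lift_apply_of _ _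

theorem HnK0.map_gsym (φ : G →* G') {H : Type*} [Group H] [Finite H] {Γ : Type*} [Group Γ]
    (f : H →* G) (κ : Γ →* G) (h : ∀ γ a, f a * κ γ = κ γ * f a)
    (h' : ∀ γ a, (φ.comp f) a * (φ.comp κ) γ = (φ.comp κ) γ * (φ.comp f) a)
    (x : K0 (MonoidAlgebra R H)) (z : HG Γ n) :
    HnK0.map R n φ (gsym f κ h x z) = gsym (φ.comp f) (φ.comp κ) h' x z := by
  haveI hfin : Finite (rangeF f).1 := (rangeF f).2
  rw [gsym, HnK0.map_gen R n φ (rangeF f) _ _ hfin,
    gsym_comp (φ.comp (rangeF f).1.subtype) f.rangeRestrict _ (comm_map φ (rangeF f).1)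
      (fun γ a => comm_map φ (rangeF f).1 γ (f.rangeRestrict a)),
    gsym_map ((φ.comp (rangeF f).1.subtype).comp f.rangeRestrict)
      (φ.comp (Subgroup.centralizer ((rangeF f).1 : Set G)).subtype) (centRestrict f κ h) _
      (fun γ a => h' γ a)]
  rfl

theorem HnK0.map_map {G'' : Type*} [Group G''] (φ : G →* G') (ψ : G' →* G'') (z : HnK0 R G n) :
    HnK0.map R n ψ (HnK0.map R n φ z) = HnK0.map R n (ψ.comp φ) z := by
  suffices H : (HnK0.map R n ψ).comp (HnK0.map R n φ) = HnK0.map R n (ψ.comp φ) from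
    DFunLike.congr_fun H z
  refine HnK0.hom_ext R n fun F x z => ?_
  haveI : Finite F.1 := F.2
  rw [AddMonoidHom.comp_apply, HnK0.map_gen R n φ F x z this,
    HnK0.map_gen R n (ψ.comp φ) F x z this]
  exact HnK0.map_gsym R n ψ _ _ _ _ x z

theorem assemblyN_gen (F : FamSub G FinSub) (x : K0 (MonoidAlgebra R F.1))
    (z : HG (Subgroup.centralizer (F.1 : Set G)) n) :
    assemblyN R n G (gen F x z) = gasm R n F.1.subtype
      (Subgroup.centralizer (F.1 : Set G)).subtype (cent_comm F.1) x z :=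
  FreeAbelianGroup.lift_apply_of _ _

theorem assemblyN_gsym {H : Type*} [Group H] [Finite H] {Γ : Type*} [Group Γ]
    (f : H →* G) (κ : Γ →* G) (h : ∀ γ a, f a * κ γ = κ γ * f a)
    (x : K0 (MonoidAlgebra R H)) (z : HG Γ n) :
    assemblyN R n G (gsym f κ h x z) = gasm R n f κ h x z := by
  rw [gsym, assemblyN_gen, gasm_comp R n (rangeF f).1.subtype f.rangeRestrict _ (cent_comm (rangeF f).1)
      (fun γ a => cent_comm (rangeF f).1 γ (f.rangeRestrict a)),
    gasm_map R n _ _ (centRestrict f κ h) _ h]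
  rfl

theorem map_gasm' (φ : G →* G') {H : Type*} [Group H] {Γ : Type*} [Group Γ]
    (f : H →* G) (κ : Γ →* G) (h : ∀ γ a, f a * κ γ = κ γ * f a)
    (h' : ∀ γ a, (φ.comp f) a * (φ.comp κ) γ = (φ.comp κ) γ * (φ.comp f) a)
    (x : K0 (MonoidAlgebra R H)) (z : HG Γ n) :
    KQ.map (MonoidAlgebra.mapDomainRingHom R φ) (gasm R n f κ h x z) =
      gasm R n (φ.comp f) (φ.comp κ) h' x z := by
  have e1 : (MonoidAlgebra.mapDomainRingHom R φ).comp (MonoidAlgebra.mapDomainRingHom R f) =
      MonoidAlgebra.mapDomainRingHom R (φ.comp f) :=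
    (MonoidAlgebra.mapDomainRingHom_comp _ _).symm
  have e2 : (Units.map ((MonoidAlgebra.mapDomainRingHom R φ :
      MonoidAlgebra R G →+* MonoidAlgebra R G') : MonoidAlgebra R G →* MonoidAlgebra R G')).comp
      ((grpHom R G).comp κ) = (grpHom R G').comp (φ.comp κ) := by
    refine MonoidHom.ext fun γ => Units.ext ?_
    change MonoidAlgebra.mapDomain φ (MonoidAlgebra.single (κ γ) 1) =
      MonoidAlgebra.single (φ (κ γ)) 1
    rw [MonoidAlgebra.mapDomain_single]
  have hc : ∀ γ b, ((MonoidAlgebra.mapDomainRingHom R φ).comp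
      (MonoidAlgebra.mapDomainRingHom R f)) b *
      (((Units.map ((MonoidAlgebra.mapDomainRingHom R φ :
        MonoidAlgebra R G →+* MonoidAlgebra R G') : MonoidAlgebra R G →*
          MonoidAlgebra R G')).comp ((grpHom R G).comp κ)) γ : MonoidAlgebra R G') =
      ((Units.map ((MonoidAlgebra.mapDomainRingHom R φ :
        MonoidAlgebra R G →+* MonoidAlgebra R G') : MonoidAlgebra R G →*
          MonoidAlgebra R G')).comp ((grpHom R G).comp κ)) γ *
        ((MonoidAlgebra.mapDomainRingHom R φ).comp (MonoidAlgebra.mapDomainRingHom R f)) b := by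
    rw [e1, e2]
    exact grpHom_comm R (φ.comp f) (φ.comp κ) h'
  exact (map_asm _ _ _ _ hc x z).trans (asm_congr' n e1 e2 _ _ x z)

/-- **The assembly map is natural in the group.** -/
theorem assemblyN_map (φ : G →* G') (z : HnK0 R G n) :
    assemblyN R n G' (HnK0.map R n φ z) =
      KQ.map (MonoidAlgebra.mapDomainRingHom R φ) (assemblyN R n G z) := by
  suffices H : (assemblyN R n G').comp (HnK0.map R n φ) =
      (KQ.map (MonoidAlgebra.mapDomainRingHom R φ)).comp (assemblyN R n G) from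
    DFunLike.congr_fun H z
  refine HnK0.hom_ext R n fun F x z => ?_
  haveI : Finite F.1 := F.2
  rw [AddMonoidHom.comp_apply, AddMonoidHom.comp_apply, HnK0.map_gen R n φ F x z this,
    assemblyN_gsym, assemblyN_gen]
  exact (map_gasm' R n φ _ _ _ _ x z).symm

/-- **Every class comes from the subgroups which contain a finite set.** -/
theorem HnK0.exists_lift (z : HnK0 R G n) :
    ∃ S : Finset G, ∀ G' : Subgroup G, (∀ s ∈ S, s ∈ G') →
      ∃ y : HnK0 R G' n, HnK0.map R n G'.subtype y = z := by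
  classical
  obtain ⟨w, rfl⟩ := QuotientAddGroup.mk_surjective z
  induction w using FreeAbelianGroup.induction_on with
  | zero => exact ⟨∅, fun G' _ => ⟨0, map_zero _⟩⟩
  | of s =>
    obtain ⟨F, x, z⟩ := s
    haveI hfin : Finite F.1 := F.2
    haveI : Fintype F.1 := Fintype.ofFinite _
    obtain ⟨S, hS⟩ := HG.exists_lift z
    refine ⟨(Finset.univ.image fun a : F.1 => (a : G)) ∪ S.image (Subgroup.centralizer (F.1 : Set G)).subtype, ?_⟩
    intro G' hG'
    have hF : ∀ a : F.1, (a : G) ∈ G' := fun a =>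
      hG' _ (Finset.mem_union_left _ (Finset.mem_image_of_mem _ (Finset.mem_univ a)))
    obtain ⟨y, hy⟩ := hS (G'.subgroupOf (Subgroup.centralizer (F.1 : Set G))) fun s hs =>
      hG' _ (Finset.mem_union_right _ (Finset.mem_image_of_mem _ hs))
    let f1 : F.1 →* G' := F.1.subtype.codRestrict G' hF
    let κ1 : G'.subgroupOf (Subgroup.centralizer (F.1 : Set G)) →* G' :=
      ((Subgroup.centralizer (F.1 : Set G)).subtype.comp
        (G'.subgroupOf (Subgroup.centralizer (F.1 : Set G))).subtype).codRestrict G' fun γ => γ.2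
    have hc : ∀ γ a, f1 a * κ1 γ = κ1 γ * f1 a := fun γ a =>
      Subtype.ext (cent_comm F.1 γ.1 a)
    refine ⟨gsym f1 κ1 hc x y, ?_⟩
    rw [HnK0.map_gsym R n G'.subtype f1 κ1 hc (fun γ a => cent_comm F.1 γ.1 a)]
    change _ = gen F x z
    rw [gen_eq_gsym F x z hfin, ← hy, gsym_map _ _ _ _ (fun γ a => cent_comm F.1 γ.1 a)]
    rfl
  | neg s hs =>
    obtain ⟨S, hS⟩ := hs
    refine ⟨S, fun G' hG' => ?_⟩
    obtain ⟨y, hy⟩ := hS G' hG'
    exact ⟨-y, by rw [map_neg, hy]; rfl⟩
  | add a b ha hb =>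
    obtain ⟨S1, h1⟩ := ha
    obtain ⟨S2, h2⟩ := hb
    refine ⟨S1 ∪ S2, fun G' hG' => ?_⟩
    obtain ⟨y1, e1⟩ := h1 G' fun s hs => hG' s (Finset.mem_union_left _ hs)
    obtain ⟨y2, e2⟩ := h2 G' fun s hs => hG' s (Finset.mem_union_right _ hs)
    exact ⟨y1 + y2, by rw [map_add, e1, e2]; rfl⟩

end

end Pool.Agent.H71.FQ
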