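import Pool.Agent.H13.TFQ.H71.FQ.EvD
import Pool.Agent.H13.TFQ.M12
import Pool.Agent.H13.TFQ.M23
import Pool.Agent.H13.TFQ.M24

/-!
# Comparison of the definitions: the source
-/

set_option autoImplicit false

open Matrix

universe u v w

namespace Pool.Agent.H71.FQS

open Pool.Agent.H71.FQ (Cx HG centConj)
open Pool.Agent.H71.FJ (IdemMat K0 K0.mk K0.lift K0.lift_mk K0.hom_ext K0.map)
open Pool.Agent.H95.WH (FamSub conjHom FinSub)

section

variable {R : Type u} [Ring R] {G : Type v} [Group G] {n : ℕ}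

/-- the symbol of an idempotent matrix -/
def hs (F : FamSub G FinSub) (a : IdemMat (MonoidAlgebra R F.1)) (z : Cyc (Cent F.1) n) :
    HSym R G n := ⟨F.1, F.2, a.n, a.mat, a.idem, z⟩

theorem mk_eq {s t : HSym R G n} (h : FreeAbelianGroup.of s - FreeAbelianGroup.of t ∈
    relE R G n ∪ relS R G n ∪ relZ R G n ∪ relC R G n) : HnK0.mk s = HnK0.mk t :=
  (QuotientAddGroup.eq_iff_sub_mem).2 (AddSubgroup.subset_closure h)

theorem mk_add {s t r : HSym R G n} (h : FreeAbelianGroup.of s -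
    (FreeAbelianGroup.of t + FreeAbelianGroup.of r) ∈
      relE R G n ∪ relS R G n ∪ relZ R G n ∪ relC R G n) :
    HnK0.mk s = HnK0.mk t + HnK0.mk r :=
  (QuotientAddGroup.eq_iff_sub_mem).2 (AddSubgroup.subset_closure h)

theorem exists_g (F : FamSub G FinSub) (a : IdemMat (MonoidAlgebra R F.1)) :
    ∃ f : HG (Cent F.1) n →+ HnK0 R G n, ∀ z, f (toHG z) = HnK0.mk (hs F a z) := by
  apply exists_lift
  · intro z z' z'' h
    exact mk_add (Or.inl (Or.inr (Or.inl
      ⟨F.1, F.2, a.n, a.mat, a.idem, z, z', z'', h, rfl⟩)))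
  · intro z h
    exact (QuotientAddGroup.eq_zero_iff _).2 (AddSubgroup.subset_closure
      (Or.inl (Or.inr (Or.inr ⟨F.1, F.2, a.n, a.mat, a.idem, z, h, rfl⟩))))

/-- the homomorphism in the variable `z` -/
noncomputable def gz (F : FamSub G FinSub) (a : IdemMat (MonoidAlgebra R F.1)) :
    HG (Cent F.1) n →+ HnK0 R G n := (exists_g F a).choose

theorem gz_toHG (F : FamSub G FinSub) (a : IdemMat (MonoidAlgebra R F.1))
    (z : Cyc (Cent F.1) n) : gz F a (toHG z) = HnK0.mk (hs F a z) :=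
  (exists_g F a).choose_spec z

/-- the biadditive map -/
noncomputable def gb (F : FamSub G FinSub) :
    K0 (MonoidAlgebra R F.1) →+ (HG (Cent F.1) n →+ HnK0 R G n) :=
  K0.lift (gz F)
    (fun a b h => by
      apply DFunLike.ext
      intro x
      obtain ⟨z, rfl⟩ := toHG_surjective x
      rw [gz_toHG, gz_toHG]
      exact mk_eq (Or.inl (Or.inl (Or.inl
        ⟨F.1, F.2, a.n, b.n, a.mat, b.mat, a.idem, b.idem, z, h, rfl⟩))))
    (fun a b => by
      apply DFunLike.ext
      intro x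
      obtain ⟨z, rfl⟩ := toHG_surjective x
      rw [AddMonoidHom.add_apply, gz_toHG, gz_toHG, gz_toHG]
      exact mk_add (Or.inl (Or.inl (Or.inr
        ⟨F.1, F.2, a.n, b.n, a.mat, b.mat, a.idem, b.idem, (a.sum b).idem, z, rfl⟩))))

theorem gb_mk (F : FamSub G FinSub) (a : IdemMat (MonoidAlgebra R F.1))
    (z : Cyc (Cent F.1) n) : gb F (K0.mk a) (toHG z) = HnK0.mk (hs F a z) := by
  rw [gb, K0.lift_mk, gz_toHG]

theorem gb_conj (F F' : FamSub G FinSub) (g : G) (h : ∀ x ∈ F.1, g * x * g⁻¹ ∈ F'.1)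
    (x : K0 (MonoidAlgebra R F.1)) (z : HG (Cent F'.1) n) :
    gb F' (K0.map (MonoidAlgebra.mapDomainRingHom R (conjHom g F.1 F'.1 h)) x) z =
      gb F x (HG.map n (centConj g F.1 F'.1 h) z) := by
  obtain ⟨z, rfl⟩ := toHG_surjective z
  suffices H : (AddMonoidHom.eval (toHG z)).comp ((gb (n := n) F').comp
      (K0.map (MonoidAlgebra.mapDomainRingHom R (conjHom g F.1 F'.1 h)))) =
      (AddMonoidHom.eval (HG.map n (centConj g F.1 F'.1 h) (toHG z))).comp (gb F) from
    DFunLike.congr_fun H x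
  apply K0.hom_ext
  intro a
  change gb F' (K0.map _ (K0.mk a)) (toHG z) = gb F (K0.mk a) (HG.map n _ (toHG z))
  have e1 := map_toHG' (centConj g F.1 F'.1 h) z
  rw [Pool.Agent.H71.FJ.K0.map_mk', gb_mk]
  refine Eq.trans ?_ (congrArg (gb F (K0.mk a)) e1).symm
  refine Eq.trans ?_ (gb_mk F a _).symm
  exact mk_eq (Or.inr ⟨F.1, F'.1, F.2, F'.2, g, a.n, a.mat,
    (a.map (MonoidAlgebra.mapDomainRingHom R (conjHom g F.1 F'.1 h))).mat, a.idem,
    (a.map (MonoidAlgebra.mapDomainRingHom R (conjHom g F.1 F'.1 h))).idem,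
    z.map (centConj g F.1 F'.1 h), z, conjHom g F.1 F'.1 h, centConj g F.1 F'.1 h,
    fun _ => rfl, fun _ => rfl, fun _ _ => rfl, rfl, rfl⟩)

/-- the comparison homomorphism -/
noncomputable def fromH : FQ.HnK0 R G n →+ HnK0 R G n :=
  QuotientAddGroup.lift _ (FreeAbelianGroup.lift fun s : FQ.Sym R G n => gb s.F s.x s.z) (by
    rw [FQ.SymRel, AddSubgroup.closure_le]
    rintro w ((⟨F, x, y, z, rfl⟩ | ⟨F, x, z, z', rfl⟩) | ⟨F, F', g, h, x, z, rfl⟩)
    · change FreeAbelianGroup.lift _ _ = 0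
      rw [FQ.symX, FQ.symOf, FQ.symOf, FQ.symOf, map_sub, map_add,
        FreeAbelianGroup.lift_apply_of, FreeAbelianGroup.lift_apply_of,
        FreeAbelianGroup.lift_apply_of, sub_eq_zero]
      exact DFunLike.congr_fun (map_add (gb F) x y) z
    · change FreeAbelianGroup.lift _ _ = 0
      rw [FQ.symZ, FQ.symOf, FQ.symOf, FQ.symOf, map_sub, map_add,
        FreeAbelianGroup.lift_apply_of, FreeAbelianGroup.lift_apply_of,
        FreeAbelianGroup.lift_apply_of, sub_eq_zero]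
      exact map_add (gb F x) z z'
    · change FreeAbelianGroup.lift _ _ = 0
      rw [FQ.symC, FQ.symOf, FQ.symOf, map_sub, FreeAbelianGroup.lift_apply_of,
        FreeAbelianGroup.lift_apply_of, sub_eq_zero]
      exact gb_conj F F' g h x z)

theorem fromH_sy (F : FamSub G FinSub) (a : IdemMat (MonoidAlgebra R F.1))
    (z : Cyc (Cent F.1) n) :
    fromH (FQ.sy F (K0.mk a) (toHG (Γ := Subgroup.centralizer (F.1 : Set G)) z)) =
      HnK0.mk (hs F a z) := by
  have h : fromH (FQ.sy F (K0.mk a) (toHG (Γ := Subgroup.centralizer (F.1 : Set G)) z)) =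
      gb F (K0.mk a) (toHG z) := FreeAbelianGroup.lift_apply_of _ _
  rw [h, gb_mk]

/-- the class in the first definition -/
noncomputable def hsy (s : HSym R G n) : FQ.HnK0 R G n :=
  FQ.sy ⟨s.F, s.fin⟩ (K0.mk ⟨s.N, s.e, s.idem⟩)
    (toHG (Γ := Subgroup.centralizer (s.F : Set G)) s.z)

/-- the comparison homomorphism in the other direction -/
noncomputable def toH : HnK0 R G n →+ FQ.HnK0 R G n :=
  QuotientAddGroup.lift _ (FreeAbelianGroup.lift hsy) (by
    rw [AddSubgroup.closure_le]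
    rintro w (((⟨F, hF, N, M, e, f, he, hf, z, h, rfl⟩ |
        ⟨F, hF, N, M, e, f, he, hf, h, z, rfl⟩) |
        (⟨F, hF, N, e, he, z, z', z'', h, rfl⟩ | ⟨F, hF, N, e, he, z, h, rfl⟩)) |
        ⟨F, F', hF, hF', g, N, e, e', he, he', z, z', c, κ, hc, hκ, hee, hz, rfl⟩)
    · change FreeAbelianGroup.lift hsy _ = 0
      rw [map_sub, FreeAbelianGroup.lift_apply_of, FreeAbelianGroup.lift_apply_of, sub_eq_zero]
      have h1 : (K0.mk ⟨N, e, he⟩ : K0 (MonoidAlgebra R F)) = K0.mk ⟨M, f, hf⟩ :=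
        Pool.Agent.H71.FJ.K0.mk_eq_of_equiv h
      exact congrArg (fun x => FQ.sy (⟨F, hF⟩ : FamSub G FinSub) x
        (toHG (Γ := Subgroup.centralizer (F : Set G)) z)) h1
    · change FreeAbelianGroup.lift hsy _ = 0
      rw [map_sub, map_add, FreeAbelianGroup.lift_apply_of, FreeAbelianGroup.lift_apply_of,
        FreeAbelianGroup.lift_apply_of, sub_eq_zero]
      have h1 : (K0.mk ⟨N + M, blkM e f, h⟩ : K0 (MonoidAlgebra R F)) =
          K0.mk ⟨N, e, he⟩ + K0.mk ⟨M, f, hf⟩ :=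
        Pool.Agent.H71.FJ.K0.mk_sum (⟨N, e, he⟩ : IdemMat (MonoidAlgebra R F)) ⟨M, f, hf⟩
      exact (congrArg (fun x => FQ.sy (⟨F, hF⟩ : FamSub G FinSub) x
        (toHG (Γ := Subgroup.centralizer (F : Set G)) z)) h1).trans (FQ.sy_add _ _ _ _)
    · change FreeAbelianGroup.lift hsy _ = 0
      rw [map_sub, map_add, FreeAbelianGroup.lift_apply_of, FreeAbelianGroup.lift_apply_of,
        FreeAbelianGroup.lift_apply_of, sub_eq_zero]
      exact (congrArg (fun x => FQ.sy (⟨F, hF⟩ : FamSub G FinSub) (K0.mk ⟨N, e, he⟩) x)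
        (toHG_add (Γ := Subgroup.centralizer (F : Set G)) h)).trans (FQ.sy_addz _ _ _ _)
    · change FreeAbelianGroup.lift hsy _ = 0
      rw [FreeAbelianGroup.lift_apply_of]
      exact (congrArg (fun x => FQ.syB (⟨F, hF⟩ : FamSub G FinSub) (K0.mk ⟨N, e, he⟩) x)
        (toHG_bnd (Γ := Subgroup.centralizer (F : Set G)) h)).trans (map_zero _)
    · change FreeAbelianGroup.lift hsy _ = 0
      rw [map_sub, FreeAbelianGroup.lift_apply_of, FreeAbelianGroup.lift_apply_of, sub_eq_zero]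
      have hg : ∀ x ∈ F, g * x * g⁻¹ ∈ F' := fun x hx => by
        rw [← hc ⟨x, hx⟩]
        exact (c ⟨x, hx⟩).2
      have h1 : c = conjHom g F F' hg := funext fun a => Subtype.ext (hc a)
      have h2 : κ = centConj g F F' hg := funext fun γ => Subtype.ext (hκ γ)
      subst h1
      subst h2
      have h3 := FQ.sy_conj (⟨F, hF⟩ : FamSub G FinSub) ⟨F', hF'⟩ g hg
        (K0.mk (⟨N, e, he⟩ : IdemMat (MonoidAlgebra R F)))
        (toHG (Γ := Subgroup.centralizer (F' : Set G)) z')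
      rw [map_toHG (Γ := Subgroup.centralizer (F' : Set G))
        (Γ' := Subgroup.centralizer (F : Set G)) (centConj g F F' hg) hz,
        Pool.Agent.H71.FJ.K0.map_mk'] at h3
      have h4 : (⟨N, e, he⟩ : IdemMat (MonoidAlgebra R F)).map
          (MonoidAlgebra.mapDomainRingHom R (conjHom g F F' hg)) = ⟨N, e', he'⟩ := by
        have h5 : e.map (MonoidAlgebra.mapDomainRingHom R (conjHom g F F' hg)) = e' :=
          Matrix.ext fun i j => (hee i j).symm
        subst h5
        rfl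
      rw [h4] at h3
      exact h3)

theorem toH_mk (s : HSym R G n) : toH (HnK0.mk s) = hsy s := FreeAbelianGroup.lift_apply_of _ _

theorem fromH_toH (x : HnK0 R G n) : fromH (toH x) = x := by
  have h : (fromH (R := R) (G := G) (n := n)).comp toH = AddMonoidHom.id _ := by
    apply QuotientAddGroup.addMonoidHom_ext
    apply FreeAbelianGroup.lift_ext
    intro s
    change fromH (toH (HnK0.mk s)) = HnK0.mk s
    rw [toH_mk]
    exact fromH_sy (⟨s.F, s.fin⟩ : FamSub G FinSub) ⟨s.N, s.e, s.idem⟩ s.z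
  exact DFunLike.congr_fun h x

end

end Pool.Agent.H71.FQS
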