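import Pool.Agent.H13.TFQ.H71.FQ.Tors_1
import Pool.Agent.H13.TFQ.M62

/-!
# Rational injectivity of the assembly map for fields of positive characteristic, all degrees
-/

set_option autoImplicit false

open Matrix

universe t u v w

namespace Pool.Agent.H71.FQ

open Pool.Agent.H71.FJ (K0)
open Pool.Agent.H71.DB (BLift bLiftP)
open Pool.Agent.H95.WH (FamSub conjHom FinSub)

section

variable {k : Type u} [Field k] {K : Type t} [Field K] {G : Type v} [Group G] (X : Ctx k K G)
  {n : ℕ}

theorem kernel_torsion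
    (hsep : ∀ D : FamSub G FinSub, IsCyclic D.1 → (∀ h : D.1, (orderOf h : k) ≠ 0) →
      ∀ b : HG (Subgroup.centralizer (D.1 : Set G)) n,
        (∀ (φ : (Fin (n + 2) → Subgroup.centralizer (D.1 : Set G)) → X.L.Lam)
          (hφ : IsCoc (Subgroup.centralizer (D.1 : Set G)) n φ), HG.ev hφ b = 0) →
          ∃ m : ℤ, m ≠ 0 ∧ m • b = 0)
    (z : HnK0 k G n) (M : ℤ) (hM : M ≠ 0) (h : M • assemblyN k n G z = 0) :
    ∃ m : ℤ, m ≠ 0 ∧ m • z = 0 := by
  apply torsion_of_vanOn X hsep z
  refine ⟨M, hM, fun c _ hc φ hφ m => ?_⟩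
  rw [← zsmul_eq_mul, ← map_zsmul, h, map_zero]

end

/-- **Rational injectivity.** -/
theorem main (p : ℕ) [Fact p.Prime] (k : Type u) [Field k] [CharP k p] (G : Type v) [Group G]
    (r : ℕ) (hG : ∀ g : G, (∃ j : ℕ, g ^ p ^ j = 1) → g ^ p ^ r = 1) (n : ℕ)
    (hsep : ∀ C : Subgroup G, Finite C → IsCyclic C → ¬ p ∣ Nat.card C →
      PSep p (Subgroup.centralizer (C : Set G)) n) :
    RatInj (assemblyN k n G) := by
  apply ratInj_of
  intro z M hM h
  let K := AlgebraicClosure k
  have : CharP K p := charP_of_injective_algebraMap (algebraMap k K).injective p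
  have : PerfectRing K p := PerfectField.toPerfectRing p
  let X : Ctx k K G :=
    { L := bLiftP p K
      i := algebraMap k K
      p := p
      hp := Fact.out
      hk := CharP.cast_eq_zero k p
      hq := rfl
      r := r
      hG := hG }
  refine kernel_torsion X ?_ z M hM h
  intro D hD ho b hb
  have hfin : Finite D.1 := D.2
  have hcard : ¬ p ∣ Nat.card D.1 := by
    intro hdvd
    obtain ⟨g, hg⟩ := IsCyclic.exists_generator (α := D.1)
    have h1 : orderOf g = Nat.card D.1 := orderOf_eq_card_of_forall_mem_zpowers hg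
    apply ho g
    rw [h1]
    exact (CharP.cast_eq_zero_iff k p _).2 hdvd
  obtain ⟨ψ, hψ⟩ := Pool.Agent.H71.DB.padic_to_witt p K
  refine hsep D.1 hfin hD hcard b fun f => ?_
  obtain ⟨φ, hφ, hf⟩ := exists_cocycle p f
  have hφ' : IsCoc (Subgroup.centralizer (D.1 : Set G)) n fun x => ψ (φ x) :=
    ⟨fun g x => by rw [hφ.inv], fun x => by
      have h1 := congrArg ψ (hφ.coc x)
      rw [map_zero, map_sum] at h1
      rw [← h1]
      exact Finset.sum_congr rfl fun i _ => (map_zsmul ψ _ _).symm⟩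
  have h2 : HG.ev hφ' b = 0 := hb _ hφ'
  have h3 : HG.ev hφ' b = ψ (HG.ev hφ b) := HG.ev_comp hφ ψ.toAddMonoidHom hφ' b
  rw [hf] at h3
  exact hψ (by rw [map_zero, ← h3]; exact h2)

end Pool.Agent.H71.FQ
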