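import Pool.Agent.H13.TFQ.H71.FQ.Cx

/-!
# Project FQ: homology of groups

`HG Γ n` is the homology of the group `Γ` in degree `n + 1` with coefficients in `ℤ`: the chains of degree `m` are
the integral combinations of the tuples `(x_0, …, x_m)` in `Γ`, modulo `(g x_0, …, g x_m) = (x_0, …, x_m)`
(coinvariants of the standard resolution).

PROOFS. `map_conj`: apply `exists_homotopy` to the two vertex maps `x ↦ f x` and `x ↦ f x * c⁻¹` (point masses),
`b = f`; both commute with the left multiplications, and `push (c * ·)` is the identity modulo `coi`. `map_one`: the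
constant tuple is a boundary (degree odd: `bd` of the constant tuple one degree higher) or the sum of the coefficients
of a cycle is zero. `ev_vmap`: `exists_homotopy` for `ν` and `μ` times the point masses at `ψ x`, `b = ψ`; the
functions `c ↦ linearCombination φ (H c)`.
-/

set_option autoImplicit false

universe u v w

namespace Pool.Agent.H71.FQ

section

variable (Γ : Type v) [Group Γ] (n : ℕ)

/-- the relations `(g x_0, …, g x_n) = (x_0, …, x_n)` -/
noncomputable def coi : Submodule ℤ (Cx ℤ Γ n) :=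
  Submodule.span ℤ {c | ∃ (g : Γ) (x : Fin (n + 1) → Γ),
    c = Finsupp.single (fun j => g * x j) 1 - Finsupp.single x 1}

/-- the chains of degree `n + 1` which are cycles modulo these relations -/
noncomputable def cyc : Submodule ℤ (Cx ℤ Γ (n + 1)) := (coi Γ n).comap (bd ℤ Γ n)

/-- the boundaries and the relations in degree `n + 1` -/
noncomputable def bnd : Submodule ℤ (Cx ℤ Γ (n + 1)) :=
  LinearMap.range (bd ℤ Γ (n + 1)) ⊔ coi Γ (n + 1)

/-- The homology group of degree `n + 1` of the group `Γ` with coefficients in `ℤ`. -/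
def HG : Type v := cyc Γ n ⧸ (bnd Γ n).comap (cyc Γ n).subtype

noncomputable instance instHG : AddCommGroup (HG Γ n) :=
  Submodule.Quotient.addCommGroup ((bnd Γ n).comap (cyc Γ n).subtype)

/-- `φ`, a function of `n + 2` variables in `Γ`, is a homogeneous cocycle of degree `n + 1`: it is invariant and the
alternating sum over the omissions of one of `n + 3` variables vanishes. -/
structure IsCoc {M : Type w} [AddCommGroup M] (φ : (Fin (n + 2) → Γ) → M) : Prop where
  inv : ∀ (g : Γ) (x : Fin (n + 2) → Γ), φ (fun j => g * x j) = φ x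
  coc : ∀ x : Fin (n + 3) → Γ,
    ∑ i : Fin (n + 3), (-1 : ℤ) ^ (i : ℕ) • φ (fun j => x (i.succAbove j)) = 0

end

section

variable {Γ : Type v} [Group Γ] {Γ' : Type w} [Group Γ'] {n : ℕ} {M : Type u} [AddCommGroup M]

/-- a linear map which sends the relations into a submodule -/
theorem coi_le_comap {N : Type*} [AddCommGroup N] (L : Cx ℤ Γ n →ₗ[ℤ] N) (S : Submodule ℤ N)
    (h : ∀ (g : Γ) (x : Fin (n + 1) → Γ),
      L (Finsupp.single (fun j => g * x j) 1) - L (Finsupp.single x 1) ∈ S)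
    {c : Cx ℤ Γ n} (hc : c ∈ coi Γ n) : L c ∈ S := by
  have h1 : coi Γ n ≤ S.comap L := by
    rw [coi, Submodule.span_le]
    rintro _ ⟨g, x, rfl⟩
    show L (Finsupp.single (fun j => g * x j) 1 - Finsupp.single x 1) ∈ S
    rw [map_sub]
    exact h g x
  exact h1 hc

theorem push_coi (f : Γ →* Γ') {c : Cx ℤ Γ n} (hc : c ∈ coi Γ n) : push ℤ f n c ∈ coi Γ' n := by
  refine coi_le_comap (push ℤ f n) (coi Γ' n) ?_ hc
  intro g x
  rw [push_single, push_single]
  refine Submodule.subset_span ⟨f g, fun j => f (x j), ?_⟩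
  simp only [map_mul]

theorem push_cyc (f : Γ →* Γ') {c : Cx ℤ Γ (n + 1)} (hc : c ∈ cyc Γ n) :
    push ℤ f (n + 1) c ∈ cyc Γ' n := by
  show bd ℤ Γ' n (push ℤ f (n + 1) c) ∈ coi Γ' n
  rw [bd_push]
  exact push_coi f hc

theorem push_bnd (f : Γ →* Γ') {c : Cx ℤ Γ (n + 1)} (hc : c ∈ bnd Γ n) :
    push ℤ f (n + 1) c ∈ bnd Γ' n := by
  obtain ⟨_, ⟨b, rfl⟩, d, hd, rfl⟩ := Submodule.mem_sup.1 hc
  rw [map_add, ← bd_push]
  exact Submodule.add_mem_sup (LinearMap.mem_range_self _ _) (push_coi f hd)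

/-- the left translations are the identity modulo the relations -/
theorem push_lmul_sub_mem (g : Γ) (c : Cx ℤ Γ n) :
    push ℤ (fun y => g * y) n c - c ∈ coi Γ n := by
  induction c using Finsupp.induction_linear with
  | zero => simp
  | add a b ha hb =>
    have h : push ℤ (fun y => g * y) n (a + b) - (a + b) =
        (push ℤ (fun y => g * y) n a - a) + (push ℤ (fun y => g * y) n b - b) := by
      rw [map_add]
      abel
    rw [h]
    exact Submodule.add_mem _ ha hb
  | single x r =>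
    have h : (Finsupp.single x r : Cx ℤ Γ n) = r • Finsupp.single x 1 := by
      rw [Finsupp.smul_single, smul_eq_mul, mul_one]
    rw [h, map_smul, push_single, ← smul_sub]
    exact Submodule.smul_mem _ _ (Submodule.subset_span ⟨g, x, rfl⟩)

/-- the class of a cycle -/
noncomputable def HG.mk (z : cyc Γ n) : HG Γ n :=
  Submodule.Quotient.mk (p := (bnd Γ n).comap (cyc Γ n).subtype) z

theorem HG.mk_surjective (x : HG Γ n) : ∃ z : cyc Γ n, HG.mk z = x :=
  Submodule.Quotient.mk_surjective _ x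

theorem HG.mk_add (z z' : cyc Γ n) : HG.mk (z + z') = HG.mk z + HG.mk z' := rfl

theorem HG.mk_eq_iff {z z' : cyc Γ n} : HG.mk z = HG.mk z' ↔ (z : Cx ℤ Γ (n + 1)) - z' ∈ bnd Γ n :=
  Submodule.Quotient.eq _

variable (n) in
/-- The homomorphism of the homology groups induced by a homomorphism of groups. -/
noncomputable def HG.map (f : Γ →* Γ') : HG Γ n →+ HG Γ' n :=
  (Submodule.mapQ ((bnd Γ n).comap (cyc Γ n).subtype) ((bnd Γ' n).comap (cyc Γ' n).subtype)
    ((push ℤ f (n + 1)).restrict fun _ hc => push_cyc f hc)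
    fun _ hc => push_bnd f hc).toAddMonoidHom

theorem HG.map_mk (f : Γ →* Γ') (z : cyc Γ n) :
    HG.map n f (HG.mk z) = HG.mk ⟨push ℤ f (n + 1) z, push_cyc f z.2⟩ := rfl

theorem HG.map_id (x : HG Γ n) : HG.map n (MonoidHom.id Γ) x = x := by
  obtain ⟨z, rfl⟩ := HG.mk_surjective x
  rw [HG.map_mk]
  congr 1
  exact Subtype.ext (push_id (n + 1) (z : Cx ℤ Γ (n + 1)))

theorem HG.map_map {Γ'' : Type*} [Group Γ''] (f : Γ →* Γ') (g : Γ' →* Γ'') (x : HG Γ n) :
    HG.map n g (HG.map n f x) = HG.map n (g.comp f) x := by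
  obtain ⟨z, rfl⟩ := HG.mk_surjective x
  rw [HG.map_mk, HG.map_mk, HG.map_mk]
  congr 1
  exact Subtype.ext (push_push (R := ℤ) f g (n + 1) (z : Cx ℤ Γ (n + 1)))

/-- a family of maps which is equivariant sends the relations to the relations -/
theorem equi_coi (f : Γ →* Γ') {m k : ℕ} (H : Cx ℤ Γ m →ₗ[ℤ] Cx ℤ Γ' k)
    (hH : ∀ (g : Γ) (c : Cx ℤ Γ m), H (push ℤ (fun y => g * y) m c) =
      push ℤ (fun y => f g * y) k (H c)) {c : Cx ℤ Γ m} (hc : c ∈ coi Γ m) : H c ∈ coi Γ' k := by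
  refine coi_le_comap H (coi Γ' k) ?_ hc
  intro g x
  have h := hH g (Finsupp.single x 1)
  rw [push_single] at h
  rw [h]
  exact push_lmul_sub_mem (f g) _

theorem vmap_point {X : Type*} {Y : Type*} (f : X → Y) (m : ℕ) (c : Cx ℤ X m) :
    vmap (fun a => Finsupp.single (f a) (1 : ℤ)) m c = push ℤ f m c := by
  unfold vmap push
  congr 1
  congr 1
  funext x
  exact tens_point f m x

theorem vmap_smul_point {X : Type*} {Y : Type*} (μ : ℤ) (f : X → Y) (m : ℕ) (c : Cx ℤ X m) :
    vmap (fun a => Finsupp.single (f a) μ) m c = μ ^ (m + 1) • push ℤ f m c := by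
  have h : vmap (fun a => Finsupp.single (f a) μ) m = μ ^ (m + 1) • push ℤ f m := by
    refine Finsupp.lhom_ext' fun x => LinearMap.ext_ring ?_
    simp only [LinearMap.comp_apply, Finsupp.lsingle_apply, LinearMap.smul_apply]
    rw [vmap_single, push_single]
    exact tens_smul_point μ f m x
  rw [h]
  rfl

theorem mass_single' {Y : Type*} (y : Y) (r : ℤ) : mass (Finsupp.single y r) = r := by
  unfold mass
  rw [Finsupp.sum_single_index rfl]

/-- inner automorphisms act trivially -/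
theorem HG.map_conj (f g : Γ →* Γ') (c : Γ') (h : ∀ a, g a = c * f a * c⁻¹) (x : HG Γ n) :
    HG.map n g x = HG.map n f x := by
  obtain ⟨z, rfl⟩ := HG.mk_surjective x
  rw [HG.map_mk, HG.map_mk, HG.mk_eq_iff]
  show push ℤ g (n + 1) z - push ℤ f (n + 1) z ∈ bnd Γ' n
  obtain ⟨H, h1, h2⟩ := exists_homotopy (R := ℤ) (fun x : Γ => Finsupp.single (f x) 1)
    (fun x : Γ => Finsupp.single (f x * c⁻¹) 1) 1 (fun x => mass_single' _ _)
    (fun x => mass_single' _ _) f
  have e1 := h1 n z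
  rw [vmap_point, vmap_point, one_smul] at e1
  have e2 : H n (bd ℤ Γ n z) ∈ coi Γ' (n + 1) := by
    refine equi_coi f (H n) ?_ z.2
    intro a d
    refine h2 (fun y => a * y) (fun y => f a * y) ?_ ?_ ?_ n d
    · intro y
      simp only [Finsupp.mapDomain_single, map_mul]
    · intro y
      simp only [Finsupp.mapDomain_single, map_mul, mul_assoc]
    · intro y
      simp only [map_mul]
  have e3 : push ℤ g (n + 1) z = push ℤ (fun y => c * y) (n + 1)
      (push ℤ (fun y => f y * c⁻¹) (n + 1) (z : Cx ℤ Γ (n + 1))) := by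
    rw [push_push]
    congr 1
    congr 1
    funext y
    rw [h, mul_assoc]
  have e4 := push_lmul_sub_mem c (push ℤ (fun y => f y * c⁻¹) (n + 1) (z : Cx ℤ Γ (n + 1)))
  have e5 : push ℤ g (n + 1) z - push ℤ f (n + 1) z = bd ℤ Γ' (n + 1) (-(H (n + 1) z)) +
      ((push ℤ (fun y => c * y) (n + 1)
        (push ℤ (fun y => f y * c⁻¹) (n + 1) (z : Cx ℤ Γ (n + 1))) -
        push ℤ (fun y => f y * c⁻¹) (n + 1) (z : Cx ℤ Γ (n + 1))) - H n (bd ℤ Γ n z)) := by
    rw [e3, map_neg]
    have e6 : push ℤ f (n + 1) z = bd ℤ Γ' (n + 1) (H (n + 1) z) + H n (bd ℤ Γ n z) +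
        push ℤ (fun y => f y * c⁻¹) (n + 1) (z : Cx ℤ Γ (n + 1)) := by
      rw [e1]
      abel
    rw [e6]
    abel
  rw [e5]
  exact Submodule.add_mem_sup (LinearMap.mem_range_self _ _) (Submodule.sub_mem _ e4 e2)

/-- the sum of the coefficients, as a linear map -/
noncomputable def msl {X : Type*} (m : ℕ) : Cx ℤ X m →ₗ[ℤ] ℤ :=
  Finsupp.linearCombination ℤ fun _ => (1 : ℤ)

theorem msl_single {X : Type*} (m : ℕ) (x : Fin (m + 1) → X) :
    msl m (Finsupp.single x 1) = 1 := by
  rw [msl, Finsupp.linearCombination_single, one_smul]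

theorem msl_coi {m : ℕ} {c : Cx ℤ Γ m} (hc : c ∈ coi Γ m) : msl m c = 0 := by
  have h := coi_le_comap (msl m) (⊥ : Submodule ℤ ℤ) (fun g x => by
    rw [msl_single, msl_single, sub_self]
    exact Submodule.zero_mem _) hc
  exact (Submodule.mem_bot ℤ).1 h

theorem alt_sum (k : ℕ) : ∑ i : Fin k, (-1 : ℤ) ^ (i : ℕ) = if Even k then 0 else 1 := by
  rw [Fin.sum_univ_eq_sum_range (fun i => (-1 : ℤ) ^ i) k]
  exact neg_one_geom_sum

theorem msl_bd {X : Type*} (m : ℕ) (c : Cx ℤ X (m + 1)) :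
    msl m (bd ℤ X m c) = (if Even m then 0 else 1) * msl (m + 1) c := by
  have h : (msl m).comp (bd ℤ X m) = (if Even m then (0 : ℤ) else 1) • msl (m + 1) := by
    refine Finsupp.lhom_ext' fun x => LinearMap.ext_ring ?_
    simp only [LinearMap.comp_apply, Finsupp.lsingle_apply, LinearMap.smul_apply]
    rw [bd_single, map_sum]
    simp only [map_smul, msl_single, smul_eq_mul, mul_one]
    rw [alt_sum]
    simp [Nat.even_add]
  have h2 := LinearMap.congr_fun h c
  rw [LinearMap.comp_apply, LinearMap.smul_apply, smul_eq_mul] at h2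
  exact h2

theorem msl_cyc (hn : Odd n) {c : Cx ℤ Γ (n + 1)} (hc : c ∈ cyc Γ n) : msl (n + 1) c = 0 := by
  have h1 : msl n (bd ℤ Γ n c) = 0 := msl_coi hc
  rw [msl_bd, if_neg (by rw [Nat.not_even_iff_odd]; exact hn), one_mul] at h1
  exact h1

/-- the trivial homomorphism induces zero in positive degree -/
theorem HG.map_one (x : HG Γ n) : HG.map n (1 : Γ →* Γ') x = 0 := by
  obtain ⟨z, rfl⟩ := HG.mk_surjective x
  have h0 : (0 : HG Γ' n) = HG.mk 0 := rfl
  rw [HG.map_mk, h0, HG.mk_eq_iff]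
  show push ℤ (1 : Γ →* Γ') (n + 1) z - 0 ∈ bnd Γ' n
  rw [sub_zero]
  have h1 : ∀ c : Cx ℤ Γ (n + 1), push ℤ (1 : Γ →* Γ') (n + 1) c =
      msl (n + 1) c • Finsupp.single (fun _ => (1 : Γ')) 1 := by
    intro c
    have h : push ℤ (1 : Γ →* Γ') (n + 1) =
        (msl (n + 1)).smulRight (Finsupp.single (fun _ => (1 : Γ')) (1 : ℤ)) := by
      refine Finsupp.lhom_ext' fun x => LinearMap.ext_ring ?_
      simp only [LinearMap.comp_apply, Finsupp.lsingle_apply, LinearMap.smulRight_apply]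
      rw [push_single, msl_single, one_smul]
      rfl
    rw [h]
    rfl
  rw [h1]
  rcases Nat.even_or_odd n with he | ho
  · have h2 : bd ℤ Γ' (n + 1) (Finsupp.single (fun _ => (1 : Γ')) 1) =
        Finsupp.single (fun _ => (1 : Γ')) 1 := by
      rw [bd_single, ← Finset.sum_smul, alt_sum, if_neg, one_smul]
      rw [Nat.not_even_iff_odd]
      exact (he.add_odd (by decide : Odd 3))
    refine Submodule.smul_mem _ _ ?_
    have h3 : (Finsupp.single (fun _ => (1 : Γ')) 1 : Cx ℤ Γ' (n + 1)) ∈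
        LinearMap.range (bd ℤ Γ' (n + 1)) := ⟨_, h2⟩
    exact Submodule.mem_sup_left h3
  · rw [msl_cyc ho z.2, zero_smul]
    exact Submodule.zero_mem _

/-- an invariant function vanishes on the relations -/
theorem inv_coi {m : ℕ} {φ : (Fin (m + 1) → Γ) → M}
    (h : ∀ (g : Γ) (x : Fin (m + 1) → Γ), φ (fun j => g * x j) = φ x) {c : Cx ℤ Γ m}
    (hc : c ∈ coi Γ m) : Finsupp.linearCombination ℤ φ c = 0 := by
  have h1 := coi_le_comap (Finsupp.linearCombination ℤ φ) (⊥ : Submodule ℤ M) (fun g x => by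
    rw [Finsupp.linearCombination_single, Finsupp.linearCombination_single, h g x, sub_self]
    exact Submodule.zero_mem _) hc
  exact (Submodule.mem_bot ℤ).1 h1

/-- the value on a boundary is the value of the coboundary -/
theorem lc_bd {X : Type*} {m : ℕ} (φ : (Fin (m + 1) → X) → M) (c : Cx ℤ X (m + 1)) :
    Finsupp.linearCombination ℤ φ (bd ℤ X m c) = Finsupp.linearCombination ℤ
      (fun x : Fin (m + 2) → X =>
        ∑ i : Fin (m + 2), (-1 : ℤ) ^ (i : ℕ) • φ (fun j => x (i.succAbove j))) c := by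
  have h : (Finsupp.linearCombination ℤ φ).comp (bd ℤ X m) = Finsupp.linearCombination ℤ
      (fun x : Fin (m + 2) → X =>
        ∑ i : Fin (m + 2), (-1 : ℤ) ^ (i : ℕ) • φ (fun j => x (i.succAbove j))) := by
    refine Finsupp.lhom_ext' fun x => LinearMap.ext_ring ?_
    simp only [LinearMap.comp_apply, Finsupp.lsingle_apply]
    rw [bd_single, map_sum, Finsupp.linearCombination_single, one_smul]
    simp only [map_smul, Finsupp.linearCombination_single, one_smul]
  exact LinearMap.congr_fun h c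

theorem coc_bnd {φ : (Fin (n + 2) → Γ) → M} (hφ : IsCoc Γ n φ) {c : Cx ℤ Γ (n + 1)}
    (hc : c ∈ bnd Γ n) : Finsupp.linearCombination ℤ φ c = 0 := by
  obtain ⟨_, ⟨b, rfl⟩, d, hd, rfl⟩ := Submodule.mem_sup.1 hc
  rw [map_add, lc_bd, inv_coi hφ.inv hd, add_zero]
  have h : (fun x : Fin (n + 3) → Γ =>
      ∑ i : Fin (n + 3), (-1 : ℤ) ^ (i : ℕ) • φ (fun j => x (i.succAbove j))) =
      fun _ => (0 : M) := by
    funext x
    exact hφ.coc x
  rw [h]
  simp [Finsupp.linearCombination_apply]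

/-- the value of a cocycle on homology -/
noncomputable def HG.ev {φ : (Fin (n + 2) → Γ) → M} (hφ : IsCoc Γ n φ) : HG Γ n →+ M :=
  (Submodule.liftQ ((bnd Γ n).comap (cyc Γ n).subtype)
    ((Finsupp.linearCombination ℤ φ).comp (cyc Γ n).subtype)
    fun _ hc => coc_bnd hφ hc).toAddMonoidHom

theorem HG.ev_mk {φ : (Fin (n + 2) → Γ) → M} (hφ : IsCoc Γ n φ) (z : cyc Γ n) :
    HG.ev hφ (HG.mk z) = Finsupp.linearCombination ℤ φ (z : Cx ℤ Γ (n + 1)) := rfl

theorem IsCoc.comp {φ : (Fin (n + 2) → Γ') → M} (hφ : IsCoc Γ' n φ) (f : Γ →* Γ') :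
    IsCoc Γ n fun x => φ fun j => f (x j) where
  inv g x := by
    simp only [map_mul]
    exact hφ.inv (f g) fun j => f (x j)
  coc x := hφ.coc fun j => f (x j)

theorem lc_push {X : Type*} {Y : Type*} {m : ℕ} (φ : (Fin (m + 1) → Y) → M) (f : X → Y)
    (c : Cx ℤ X m) : Finsupp.linearCombination ℤ φ (push ℤ f m c) =
      Finsupp.linearCombination ℤ (fun x : Fin (m + 1) → X => φ fun j => f (x j)) c := by
  have h : (Finsupp.linearCombination ℤ φ).comp (push ℤ f m) =
      Finsupp.linearCombination ℤ (fun x : Fin (m + 1) → X => φ fun j => f (x j)) := by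
    refine Finsupp.lhom_ext' fun x => LinearMap.ext_ring ?_
    simp only [LinearMap.comp_apply, Finsupp.lsingle_apply]
    rw [push_single, Finsupp.linearCombination_single, Finsupp.linearCombination_single]
  exact LinearMap.congr_fun h c

theorem lc_vmap {X : Type*} {Y : Type*} {m : ℕ} (φ : (Fin (m + 1) → Y) → M) (A : X → Y →₀ ℤ)
    (c : Cx ℤ X m) : Finsupp.linearCombination ℤ φ (vmap A m c) =
      Finsupp.linearCombination ℤ
        (fun x : Fin (m + 1) → X => Finsupp.linearCombination ℤ φ (tens A m x)) c := by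
  have h : (Finsupp.linearCombination ℤ φ).comp (vmap A m) =
      Finsupp.linearCombination ℤ
        (fun x : Fin (m + 1) → X => Finsupp.linearCombination ℤ φ (tens A m x)) := by
    refine Finsupp.lhom_ext' fun x => LinearMap.ext_ring ?_
    simp only [LinearMap.comp_apply, Finsupp.lsingle_apply]
    rw [vmap_single, Finsupp.linearCombination_single, one_smul]
  exact LinearMap.congr_fun h c

theorem HG.ev_map {φ : (Fin (n + 2) → Γ') → M} (hφ : IsCoc Γ' n φ) (f : Γ →* Γ') (x : HG Γ n) :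
    HG.ev hφ (HG.map n f x) = HG.ev (hφ.comp f) x := by
  obtain ⟨z, rfl⟩ := HG.mk_surjective x
  rw [HG.map_mk, HG.ev_mk, HG.ev_mk]
  exact lc_push φ f (z : Cx ℤ Γ (n + 1))

theorem HG.ev_congr {φ φ' : (Fin (n + 2) → Γ) → M} (hφ : IsCoc Γ n φ) (hφ' : IsCoc Γ n φ')
    (h : ∀ x, φ x = φ' x) (x : HG Γ n) : HG.ev hφ x = HG.ev hφ' x := by
  obtain rfl : φ = φ' := funext h
  rfl

theorem HG.ev_comp {M' : Type*} [AddCommGroup M'] {φ : (Fin (n + 2) → Γ) → M} (hφ : IsCoc Γ n φ)
    (f : M →+ M') (hφ' : IsCoc Γ n fun x => f (φ x)) (x : HG Γ n) :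
    HG.ev hφ' x = f (HG.ev hφ x) := by
  obtain ⟨z, rfl⟩ := HG.mk_surjective x
  rw [HG.ev_mk, HG.ev_mk]
  have h : Finsupp.linearCombination ℤ (fun x => f (φ x)) =
      f.toIntLinearMap.comp (Finsupp.linearCombination ℤ φ) := by
    refine Finsupp.lhom_ext' fun x => LinearMap.ext_ring ?_
    simp only [LinearMap.comp_apply, Finsupp.lsingle_apply]
    rw [Finsupp.linearCombination_single, Finsupp.linearCombination_single, one_smul, one_smul]
    rfl
  exact LinearMap.congr_fun h _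

/-- the coboundary of an invariant function vanishes on homology -/
theorem HG.ev_cob (Ψ : (Fin (n + 1) → Γ) → M) (hΨ : ∀ (g : Γ) x, Ψ (fun j => g * x j) = Ψ x)
    (h : IsCoc Γ n fun x => ∑ i : Fin (n + 2), (-1 : ℤ) ^ (i : ℕ) • Ψ (fun j => x (i.succAbove j)))
    (x : HG Γ n) : HG.ev h x = 0 := by
  obtain ⟨z, rfl⟩ := HG.mk_surjective x
  rw [HG.ev_mk, ← lc_bd]
  exact inv_coi hΨ z.2

/-- a constant cocycle vanishes on homology -/
theorem HG.ev_const (m : M) (h : IsCoc Γ n fun _ => m) (x : HG Γ n) : HG.ev h x = 0 := by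
  obtain ⟨z, rfl⟩ := HG.mk_surjective x
  rw [HG.ev_mk]
  have h1 : ∀ c : Cx ℤ Γ (n + 1), Finsupp.linearCombination ℤ (fun _ => m) c =
      msl (n + 1) c • m := by
    intro c
    have h2 : Finsupp.linearCombination ℤ (fun _ : Fin (n + 2) → Γ => m) =
        (msl (n + 1)).smulRight m := by
      refine Finsupp.lhom_ext' fun x => LinearMap.ext_ring ?_
      simp only [LinearMap.comp_apply, Finsupp.lsingle_apply, LinearMap.smulRight_apply]
      rw [Finsupp.linearCombination_single, msl_single]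
    rw [h2]
    rfl
  rw [h1]
  rcases Nat.even_or_odd n with he | ho
  · have h3 := h.coc fun _ => (1 : Γ)
    rw [← Finset.sum_smul, alt_sum, if_neg, one_smul] at h3
    · rw [h3, smul_zero]
    · rw [Nat.not_even_iff_odd]
      exact (he.add_odd (by decide : Odd 3))
  · rw [msl_cyc ho z.2, zero_smul]

/-- **Comparison of a measure valued equivariant vertex map with a homomorphism.** -/
theorem HG.ev_vmap (ψ : Γ →* Γ') (ν : Γ → Γ' →₀ ℤ) (μ : ℤ) (hμ : ∀ x, mass (ν x) = μ)
    (hν : ∀ g x, ν (g * x) = (ν x).mapDomain fun y => ψ g * y) {φ : (Fin (n + 2) → Γ') → M}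
    (hφ : IsCoc Γ' n φ)
    (h : IsCoc Γ n fun x => Finsupp.linearCombination ℤ φ (tens ν (n + 1) x)) (x : HG Γ n) :
    HG.ev h x = μ ^ (n + 2) • HG.ev hφ (HG.map n ψ x) := by
  obtain ⟨z, rfl⟩ := HG.mk_surjective x
  rw [HG.map_mk, HG.ev_mk, HG.ev_mk, ← lc_vmap]
  show Finsupp.linearCombination ℤ φ (vmap ν (n + 1) (z : Cx ℤ Γ (n + 1))) =
    μ ^ (n + 2) • Finsupp.linearCombination ℤ φ (push ℤ ψ (n + 1) (z : Cx ℤ Γ (n + 1)))
  obtain ⟨H, h1, h2⟩ := exists_homotopy (R := ℤ) ν (fun x : Γ => Finsupp.single (ψ x) μ) μ hμ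
    (fun x => mass_single' _ _) ψ
  have e1 := h1 n z
  rw [vmap_smul_point] at e1
  have e2 : H n (bd ℤ Γ n z) ∈ coi Γ' (n + 1) := by
    refine equi_coi ψ (H n) ?_ z.2
    intro a d
    refine h2 (fun y => a * y) (fun y => ψ a * y) ?_ ?_ ?_ n d
    · intro y
      exact (hν a y).symm
    · intro y
      simp only [Finsupp.mapDomain_single, map_mul]
    · intro y
      simp only [map_mul]
  have e3 : vmap ν (n + 1) (z : Cx ℤ Γ (n + 1)) =
      (bd ℤ Γ' (n + 1) (H (n + 1) z) + μ • H n (bd ℤ Γ n z)) +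
        μ ^ (n + 2) • push ℤ ψ (n + 1) (z : Cx ℤ Γ (n + 1)) := by
    rw [e1]
    abel
  have e4 : bd ℤ Γ' (n + 1) (H (n + 1) z) + μ • H n (bd ℤ Γ n z) ∈ bnd Γ' n :=
    Submodule.add_mem_sup (LinearMap.mem_range_self _ _) (Submodule.smul_mem _ _ e2)
  rw [e3, map_add, coc_bnd hφ e4, zero_add, map_smul]

end

end Pool.Agent.H71.FQ
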