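import Pool.Agent.H13.TFQ.H71.FQ.St2

/-!
# The assembly map over `ℤ` on the `K₀`-, `K₁`- and `K₋₁`-parts of the rational source: definitions

* `Hn Γ n` is the homology group `H_n(Γ; ℤ)`.
* `LQ A n` is the quotient of `KQ (A[t, t⁻¹]) n` by the images of `KQ (A[t]) n` and `KQ (A[t⁻¹]) n`; by the fundamental
  theorem of algebraic K-theory its tensor product with `ℚ` is `K_n(A) ⊗ ℚ`.
* `K1Part R G n` is the group `HnK1 R G (n - 1)` of the symbols `[F, U, z]`, `z` of degree `n - 1` (zero for `n = 0`).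
* `HnKm1 R G n` is generated by the symbols `[F, e, z]`, `F` a finite subgroup of `G`, `e` an idempotent matrix over
  `R[F][t, t⁻¹]` and `z` a cycle of degree `n + 1` of the centralizer `Z_G(F)`, modulo the relations of `K₀` in `e`, the
  relation `[F, e, z] = 0` if `e` comes from `R[F][t]` or from `R[F][t⁻¹]`, the relations of `H_{n+1}(Z_G(F); ℤ)` in `z`
  and `[F', c_g(e), z'] = [F, e, c_{g⁻¹}(z')]` for `g F g⁻¹ ⊆ F'`.

The assembly map sends a cycle `z` of `G` to `[1, t × z]`, the symbol `[F, U, z]` to `[N, t × U × z]` and the symbol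
`[F, e, z]` to `[N, ρ z]`, `ρ γ = 1 + e (γ - 1)`; the products are formed by means of the prism `pri`.
-/

set_option autoImplicit false

open Matrix

universe u v w

namespace Pool.Agent.H71.FQ3

open Pool.Agent.H71.FQS (Ch bd push coi bnd Cyc GLm blkM RF Cent KQ MatEquiv Idem)
open Pool.Agent.H71.FQ1 (pri IsCyc HSym1 HnK1)

section Homology

variable (Γ : Type v) [Group Γ] (n : ℕ)

/-- the cycles of degree `n` -/
noncomputable def Zn : AddSubgroup (Ch Γ n) := AddSubgroup.closure {c | IsCyc Γ n c}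

/-- The homology group `H_n(Γ; ℤ)`. -/
def Hn : Type v := Zn Γ n ⧸ (bnd Γ n).addSubgroupOf (Zn Γ n)

noncomputable instance instHn : AddCommGroup (Hn Γ n) := QuotientAddGroup.Quotient.addCommGroup _

variable {Γ n}

/-- the class of a cycle -/
noncomputable def Hn.mk (c : Ch Γ n) (h : IsCyc Γ n c) : Hn Γ n :=
  QuotientAddGroup.mk ⟨c, AddSubgroup.subset_closure h⟩

/-- The classes in `H_n(Γ; ℤ)` which are killed by all homomorphisms to the ring of the rational numbers with denominator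
prime to `p` have finite order. -/
def LSep (p : ℕ) (Γ : Type v) [Group Γ] (n : ℕ) : Prop :=
  ∀ x : Hn Γ n, (∀ f : Hn Γ n →+ ℚ, (∀ y, ¬ p ∣ (f y).den) → f x = 0) →
    ∃ m : ℤ, m ≠ 0 ∧ m • x = 0

end Homology

section Laurent

/-- the ring of Laurent polynomials -/
def Lau (A : Type u) [Ring A] : Type u := AddMonoidAlgebra A ℤ

noncomputable instance instLau (A : Type u) [Ring A] : Ring (Lau A) := AddMonoidAlgebra.ring

variable {A : Type u} [Ring A]

/-- the Laurent polynomial `a t ^ k` -/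
noncomputable def mon (k : ℤ) (a : A) : Lau A := AddMonoidAlgebra.single k a

/-- the coefficient of `t ^ k` -/
def Lau.cf (x : Lau A) (k : ℤ) : A := AddMonoidAlgebra.coeff x k

/-- the image of a polynomial under `X ↦ t ^ ε` -/
noncomputable def pol (ε : ℤ) (f : Polynomial A) : Lau A := f.sum fun i a => mon (ε * i) a

end Laurent

section LQ

variable (A : Type u) [Ring A] (n : ℕ)

/-- the classes of the images of the cycles of `GL_N(A[X])` under `X ↦ t` and `X ↦ t⁻¹` -/
def lRel : Set (KQ (Lau A) n) :=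
  {y | ∃ (ε : ℤ) (N : ℕ) (z : Cyc (GLm N (Polynomial A)) n)
      (β : GLm N (Polynomial A) → GLm N (Lau A)) (z' : Cyc (GLm N (Lau A)) n),
      (ε = 1 ∨ ε = -1) ∧ (∀ u i j, (β u).val i j = pol ε (u.val i j)) ∧
      z'.ch = push β z.ch ∧ y = FQS.KQ.mk N z'}

/-- The quotient of `KQ (A[t, t⁻¹]) n` by the images of `KQ (A[t]) n` and `KQ (A[t⁻¹]) n`. -/
noncomputable def LQ : Type u := KQ (Lau A) n ⧸ AddSubgroup.closure (lRel A n)

noncomputable instance instLQ : AddCommGroup (LQ A n) := QuotientAddGroup.Quotient.addCommGroup _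

variable {A n}

/-- the class of `[N, z]` -/
noncomputable def LQ.mk (N : ℕ) (z : Cyc (GLm N (Lau A)) n) : LQ A n := QuotientAddGroup.mk (FQS.KQ.mk N z)

end LQ

section Km1

variable (R : Type u) [Ring R] (G : Type v) [Group G] (n : ℕ)

/-- the symbols `[F, e, z]` -/
structure HSymM where
  /-- a finite subgroup -/
  F : Subgroup G
  fin : Finite F
  /-- the size of the matrix -/
  N : ℕ
  /-- an idempotent matrix over the Laurent polynomials over the group ring of `F` -/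
  e : Matrix (Fin N) (Fin N) (Lau (RF R F))
  idem : Idem e
  /-- a cycle of the centralizer of `F` -/
  z : Cyc (Cent F) n

/-- the relation `[F, e, z] = [F, f, z]` for `e = x y`, `f = y x`, and `[F, e ⊕ f, z] = [F, e, z] + [F, f, z]` -/
def relES : Set (FreeAbelianGroup (HSymM R G n)) :=
  {y | ∃ (F : Subgroup G) (hF : Finite F) (N M : ℕ) (e : Matrix (Fin N) (Fin N) (Lau (RF R F)))
      (f : Matrix (Fin M) (Fin M) (Lau (RF R F))) (he : Idem e) (hf : Idem f) (z : Cyc (Cent F) n),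
      MatEquiv e f ∧
      y = FreeAbelianGroup.of ⟨F, hF, N, e, he, z⟩ - FreeAbelianGroup.of ⟨F, hF, M, f, hf, z⟩} ∪
    {y | ∃ (F : Subgroup G) (hF : Finite F) (N M : ℕ) (e : Matrix (Fin N) (Fin N) (Lau (RF R F)))
      (f : Matrix (Fin M) (Fin M) (Lau (RF R F))) (he : Idem e) (hf : Idem f)
      (h : Idem (blkM e f)) (z : Cyc (Cent F) n),
      y = FreeAbelianGroup.of ⟨F, hF, N + M, blkM e f, h, z⟩ -
        (FreeAbelianGroup.of ⟨F, hF, N, e, he, z⟩ + FreeAbelianGroup.of ⟨F, hF, M, f, hf, z⟩)}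

/-- the relation `[F, e, z] = 0` if `e` comes from an idempotent matrix over `R[F][X]` under `X ↦ t` or `X ↦ t⁻¹` -/
def relT : Set (FreeAbelianGroup (HSymM R G n)) :=
  {y | ∃ (F : Subgroup G) (hF : Finite F) (ε : ℤ) (N : ℕ)
      (e₀ : Matrix (Fin N) (Fin N) (Polynomial (RF R F)))
      (e : Matrix (Fin N) (Fin N) (Lau (RF R F))) (he : Idem e) (z : Cyc (Cent F) n),
      (ε = 1 ∨ ε = -1) ∧ Idem e₀ ∧ (∀ i j, e i j = pol ε (e₀ i j)) ∧
      y = FreeAbelianGroup.of ⟨F, hF, N, e, he, z⟩}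

/-- additivity in `z` and boundaries -/
def relZM : Set (FreeAbelianGroup (HSymM R G n)) :=
  {y | ∃ (F : Subgroup G) (hF : Finite F) (N : ℕ) (e : Matrix (Fin N) (Fin N) (Lau (RF R F)))
      (he : Idem e) (z z' z'' : Cyc (Cent F) n), z''.ch = z.ch + z'.ch ∧
      y = FreeAbelianGroup.of ⟨F, hF, N, e, he, z''⟩ -
        (FreeAbelianGroup.of ⟨F, hF, N, e, he, z⟩ + FreeAbelianGroup.of ⟨F, hF, N, e, he, z'⟩)} ∪
    {y | ∃ (F : Subgroup G) (hF : Finite F) (N : ℕ) (e : Matrix (Fin N) (Fin N) (Lau (RF R F)))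
      (he : Idem e) (z : Cyc (Cent F) n), z.ch ∈ bnd (Cent F) (n + 1) ∧
      y = FreeAbelianGroup.of ⟨F, hF, N, e, he, z⟩}

/-- the relation `[F', c_g(e), z'] = [F, e, c_{g⁻¹}(z')]` for `g F g⁻¹ ⊆ F'` -/
def relCM : Set (FreeAbelianGroup (HSymM R G n)) :=
  {y | ∃ (F F' : Subgroup G) (hF : Finite F) (hF' : Finite F') (g : G) (N : ℕ)
      (e : Matrix (Fin N) (Fin N) (Lau (RF R F))) (e' : Matrix (Fin N) (Fin N) (Lau (RF R F')))
      (he : Idem e) (he' : Idem e') (z : Cyc (Cent F) n) (z' : Cyc (Cent F') n)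
      (c : F → F') (κ : Cent F' → Cent F),
      (∀ a, (c a : G) = g * a * g⁻¹) ∧ (∀ γ, (κ γ).val = g⁻¹ * γ.val * g) ∧
      (∀ i j k, (e' i j).cf k = MonoidAlgebra.mapDomain c ((e i j).cf k)) ∧
      z.ch = push κ z'.ch ∧
      y = FreeAbelianGroup.of ⟨F', hF', N, e', he', z'⟩ - FreeAbelianGroup.of ⟨F, hF, N, e, he, z⟩}

/-- The group generated by the symbols `[F, e, z]`. -/
def HnKm1 : Type (max u v) :=
  FreeAbelianGroup (HSymM R G n) ⧸
    AddSubgroup.closure (relES R G n ∪ relT R G n ∪ relZM R G n ∪ relCM R G n)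

noncomputable instance instHnKm1 : AddCommGroup (HnKm1 R G n) :=
  QuotientAddGroup.Quotient.addCommGroup _

variable {R G n}

/-- the class of `[F, e, z]` -/
def HnKm1.mk (s : HSymM R G n) : HnKm1 R G n := QuotientAddGroup.mk (FreeAbelianGroup.of s)

end Km1

section Assembly

/-- the symbols `[F, U, z]` with `z` of degree `n - 1` -/
def K1Part (R : Type u) [Ring R] (G : Type v) [Group G] : ℕ → Type (max u v)
  | 0 => PUnit
  | n + 1 => HnK1 R G n

noncomputable instance instK1Part (R : Type u) [Ring R] (G : Type v) [Group G] :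
    (n : ℕ) → AddCommGroup (K1Part R G n)
  | 0 => PUnit.addCommGroup
  | n + 1 => FQ1.instHnK1 R G n

variable {R : Type u} [Ring R] {G : Type v} [Group G]

/-- `α` is the assembly map on `H_n(G; ℤ)`: `α [z] = [1, t × z]`. -/
def IsAssemblyH {n : ℕ} (α : Hn G n → LQ (MonoidAlgebra R G) n) : Prop :=
  ∀ (z : Ch G n) (hz : IsCyc G n z) (σ : G → GLm 1 (Lau (MonoidAlgebra R G)))
    (t : GLm 1 (Lau (MonoidAlgebra R G))) (z' : Cyc (GLm 1 (Lau (MonoidAlgebra R G))) n),
    (∀ g, (σ g).val = Matrix.diagonal fun _ => mon 0 (MonoidAlgebra.single g 1)) →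
    t.val = (Matrix.diagonal fun _ => mon 1 1) →
    z'.ch = pri t (push σ z) → α (Hn.mk z hz) = LQ.mk 1 z'

/-- `α` is the assembly map on the `K₁`-part: `α [F, U, z] = [N, t × U × z]`. -/
def IsAssemblyU : {n : ℕ} → (K1Part R G n → LQ (MonoidAlgebra R G) n) → Prop
  | 0, _ => True
  | n + 1, α => ∀ (s : HSym1 R G n) (σ : Cent s.F → GLm s.N (Lau (MonoidAlgebra R G)))
    (u t : GLm s.N (Lau (MonoidAlgebra R G)))
    (z' : Cyc (GLm s.N (Lau (MonoidAlgebra R G))) (n + 1)),
    (∀ γ, (σ γ).val = Matrix.diagonal fun _ => mon 0 (MonoidAlgebra.single γ.val 1)) →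
    (∀ i j, u.val i j = mon 0 (MonoidAlgebra.mapDomain (fun a : s.F => (a : G)) (s.U.val i j))) →
    t.val = (Matrix.diagonal fun _ => mon 1 1) →
    z'.ch = pri t (pri u (push σ s.z)) → α (FQ1.HnK1.mk s) = LQ.mk s.N z'

/-- `α` is the assembly map on the `K₋₁`-part: `α [F, e, z] = [N, ρ z]`, `ρ γ = 1 + e (γ - 1)`. -/
def IsAssemblyE {n : ℕ} (α : HnKm1 R G n → LQ (MonoidAlgebra R G) n) : Prop :=
  ∀ (s : HSymM R G n) (ρ : Cent s.F → GLm s.N (Lau (MonoidAlgebra R G)))
    (z' : Cyc (GLm s.N (Lau (MonoidAlgebra R G))) n),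
    (∀ (γ : Cent s.F) (i j : Fin s.N) (k : ℤ), ((ρ γ).val i j).cf k =
      (if i = j ∧ k = 0 then 1 else 0) +
        (MonoidAlgebra.mapDomain (fun a : s.F => (a : G) * γ.val) ((s.e i j).cf k) -
          MonoidAlgebra.mapDomain (fun a : s.F => (a : G)) ((s.e i j).cf k))) →
    z'.ch = push ρ s.z.ch → α (HnKm1.mk s) = LQ.mk s.N z'

end Assembly

/-- The condition on the group: every finite subset of `G` lies in a subgroup `G'` in which, for every prime `p`, the
elements of `p`-power order have bounded order (only for `n ≥ 1`) and, for the centralizers `Z` in `G'` of the finite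
cyclic subgroups of order divisible by `p`, `LSep p Z (n - 1)` and `LSep p Z (n + 1)` hold. -/
def LocGrpZ (G : Type v) [Group G] (n : ℕ) : Prop :=
  ∀ S : Finset G, ∃ G' : Subgroup G, (∀ g ∈ S, g ∈ G') ∧ ∀ p : ℕ, p.Prime →
    (n = 0 ∨ ∃ r : ℕ, ∀ g : G', (∃ j : ℕ, g ^ p ^ j = 1) → g ^ p ^ r = 1) ∧
    ∀ C : Subgroup G', Finite C → IsCyclic C → p ∣ Nat.card C →
      LSep p (Cent C) (n - 1) ∧ LSep p (Cent C) (n + 1)

end Pool.Agent.H71.FQ3
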