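import Pool.Agent.H13.TFQ.M15
import Pool.Agent.H13.TFQ.M25

/-!
# Project FQ: moving an idempotent matrix through a word

`D` is a finite subgroup of `G`, `e` an idempotent matrix over `B[D]`, `Ψ` a function of words such that
`Ψ (… (x s, l) (y, i) …) = Ψ (… (x, l) (s y, i) …)` for `s ∈ D`. For elements `g` of the centralizer of `D` the
matrices `1 + e (g - 1) = e g + (1 - e)` commute with `e`; in `lam Ψ` a product of the corresponding `io` splits into
the part of `e` and the part of `1 - e`.

PROOF. Induction on the list: for all `Y`, `lam Ψ ((∏ io l_j (1 + e (g_j - 1))) * Y)` is the sum of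
`lam Ψ ((∏_{j < k} io l_j g_j) * io l_k (g_k e) * Y)` and `lam Ψ ((∏_{j < k} io l_j 1) * io l_k (1 - e) * Y)`; multiply
by `io l (e g + (1 - e))` and use `lam_move`: `io l_k (g_k e) * io l (e g + (1 - e))` is equivalent to
`io l_k (g_k) * io l (e g)` and `e g = g e`.
-/

set_option autoImplicit false

open Matrix

universe u v w

namespace Pool.Agent.H71.FQ

open Pool.Agent.H71.DB (bmat)

section

variable {G : Type u} [Group G] {ι : Type v} [Fintype ι] [DecidableEq ι] {B : Type w} [CommRing B]

/-- the matrix `1 + e (g - 1)` over `B[G]` -/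
noncomputable def eg (D : Subgroup G) (e : Matrix ι ι (MonoidAlgebra B D)) (g : G) :
    Matrix ι ι (MonoidAlgebra B G) :=
  bmat (MonoidAlgebra.mapDomainRingHom B D.subtype) e (MonoidAlgebra.single g 1)

/-- induction on matrices over a monoid ring -/
private theorem eva_induction {M : Type*} {P : Matrix ι ι (MonoidAlgebra B M) → Prop} (h0 : P 0)
    (hadd : ∀ a b, P a → P b → P (a + b))
    (h1 : ∀ i j x r, P (Matrix.single i j (MonoidAlgebra.single x r)))
    (a : Matrix ι ι (MonoidAlgebra B M)) : P a := by
  have h2 : ∀ i j (b : MonoidAlgebra B M), P (Matrix.single i j b) := by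
    intro i j b
    induction b using MonoidAlgebra.induction_linear with
    | zero => rw [Matrix.single_zero]; exact h0
    | add f g hf hg => rw [Matrix.single_add]; exact hadd _ _ hf hg
    | single x r => exact h1 i j x r
  have hsum : ∀ {κ : Type v} (s : Finset κ) (f : κ → Matrix ι ι (MonoidAlgebra B M)),
      (∀ k, P (f k)) → P (∑ k ∈ s, f k) := by
    intro κ s f hf
    classical
    induction s using Finset.induction_on with
    | empty => simpa using h0
    | insert k s hk ih => rw [Finset.sum_insert hk]; exact hadd _ _ (hf k) ih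
  rw [Matrix.matrix_eq_sum_single a]
  exact hsum _ _ fun i => hsum _ _ fun j => h2 i j _

/-- the scalar matrix of a group element -/
private noncomputable def gm (g : G) : Matrix ι ι (MonoidAlgebra B G) :=
  Matrix.diagonal fun _ => MonoidAlgebra.single g 1

omit [Fintype ι] in
private theorem gm_one : (gm (1 : G) : Matrix ι ι (MonoidAlgebra B G)) = 1 := by
  rw [gm, ← MonoidAlgebra.one_def]
  exact Matrix.diagonal_one

private theorem one_eq_sum : (1 : Matrix ι ι B) = ∑ i, Matrix.single i i 1 := by
  ext i j
  rw [Matrix.sum_apply]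
  by_cases h : i = j
  · subst h
    rw [Matrix.one_apply_eq, Finset.sum_eq_single i, Matrix.single_apply_same]
    · intro k _ hk
      exact Matrix.single_apply_of_ne _ _ _ _ _ fun h => hk h.1
    · intro h
      exact absurd (Finset.mem_univ _) h
  · rw [Matrix.one_apply_ne h]
    refine (Finset.sum_eq_zero fun k _ => Matrix.single_apply_of_ne _ _ _ _ _ ?_).symm
    rintro ⟨rfl, rfl⟩
    exact h rfl

private theorem gm_eq_sum (g : G) : (gm g : Matrix ι ι (MonoidAlgebra B G)) =
    ∑ i, Matrix.single i i (MonoidAlgebra.single g 1) := by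
  ext i j : 1
  rw [Matrix.sum_apply]
  by_cases h : i = j
  · subst h
    rw [gm, Matrix.diagonal_apply_eq, Finset.sum_eq_single i, Matrix.single_apply_same]
    · intro k _ hk
      exact Matrix.single_apply_of_ne _ _ _ _ _ fun h => hk h.1
    · intro h
      exact absurd (Finset.mem_univ _) h
  · rw [gm, Matrix.diagonal_apply_ne _ h]
    refine (Finset.sum_eq_zero fun k _ => Matrix.single_apply_of_ne _ _ _ _ _ ?_).symm
    rintro ⟨rfl, rfl⟩
    exact h rfl

private theorem io_gm (l : ℕ) (g : G) :
    (io l (gm g : Matrix ι ι (MonoidAlgebra B G)) : FR G ι B) = MonoidAlgebra.single (let1 g l) 1 := by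
  rw [gm_eq_sum, map_sum, one_eq_sum]
  simp only [io_single]
  have h := map_sum (MonoidAlgebra.singleAddHom (R := Matrix ι ι B) (let1 g l))
    (fun i => Matrix.single i i (1 : B)) Finset.univ
  simp only [MonoidAlgebra.singleAddHom_apply] at h
  exact h.symm

private theorem prod_io_gm (L : List (G × ℕ)) :
    (L.map fun a => (io a.2 (gm a.1) : FR G ι B)).prod =
      MonoidAlgebra.single (L.map fun a => let1 a.1 a.2).prod 1 := by
  induction L with
  | nil => rfl
  | cons a L ih =>
    rw [List.map_cons, List.prod_cons, ih, io_gm, MonoidAlgebra.single_mul_single, List.map_cons,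
      List.prod_cons, one_mul]

private theorem lam_last (D : Subgroup G) [Fintype D] (Ψ : Wd G → B) (L : List (G × ℕ)) (g : G) (l : ℕ)
    (e : Matrix ι ι (MonoidAlgebra B D)) :
    lam Ψ ((L.map fun a => (io a.2 (gm a.1) : FR G ι B)).prod *
        io l (gm g * e.map (MonoidAlgebra.mapDomainRingHom B D.subtype))) =
      ∑ x : D, (trace e).coeff x * Ψ ((L.map fun a => let1 a.1 a.2).prod * let1 (g * x) l) := by
  classical
  rw [prod_io_gm]
  induction e using eva_induction with
  | h0 => simp
  | hadd a b ha hb =>
    have h1 : (a + b).map (MonoidAlgebra.mapDomainRingHom B D.subtype) =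
        a.map (MonoidAlgebra.mapDomainRingHom B D.subtype) +
          b.map (MonoidAlgebra.mapDomainRingHom B D.subtype) :=
      Matrix.map_add _ (fun x y => map_add _ x y) a b
    rw [h1, mul_add, map_add, mul_add, map_add, ha, hb, ← Finset.sum_add_distrib]
    refine Finset.sum_congr rfl fun x _ => ?_
    rw [Matrix.trace_add, MonoidAlgebra.coeff_add, Finsupp.add_apply, add_mul]
  | h1 i j x r =>
    have h1 : (gm g : Matrix ι ι (MonoidAlgebra B G)) * (Matrix.single i j
        (MonoidAlgebra.single x r : MonoidAlgebra B D)).map (MonoidAlgebra.mapDomainRingHom B D.subtype) =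
        Matrix.single i j (MonoidAlgebra.single (g * x) r) := by
      rw [gm]
      ext a b : 1
      rw [Matrix.diagonal_mul, Matrix.map_apply]
      by_cases h : i = a ∧ j = b
      · obtain ⟨rfl, rfl⟩ := h
        rw [Matrix.single_apply_same, Matrix.single_apply_same,
          MonoidAlgebra.mapDomainRingHom_apply, MonoidAlgebra.mapDomain_single,
          MonoidAlgebra.single_mul_single, one_mul]
        rfl
      · rw [Matrix.single_apply_of_ne _ _ _ _ _ h, Matrix.single_apply_of_ne _ _ _ _ _ h, map_zero,
          mul_zero]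
    rw [h1, io_single, MonoidAlgebra.single_mul_single, one_mul, lam_single]
    by_cases hij : i = j
    · subst hij
      rw [Matrix.trace_single_eq_same, Matrix.trace_single_eq_same, Finset.sum_eq_single x]
      · rw [MonoidAlgebra.coeff_single, Finsupp.single_eq_same]
      · intro y _ hy
        rw [MonoidAlgebra.coeff_single, Finsupp.single_eq_of_ne hy, zero_mul]
      · intro h
        exact absurd (Finset.mem_univ _) h
    · rw [Matrix.trace_single_eq_of_ne _ _ _ hij, Matrix.trace_single_eq_of_ne _ _ _ hij, zero_mul]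
      simp

private theorem comm_gm (D : Subgroup G) {g : G} (hg : g ∈ Subgroup.centralizer (D : Set G))
    (b : MonoidAlgebra B D) : MonoidAlgebra.mapDomainRingHom B D.subtype b * MonoidAlgebra.single g 1 =
      MonoidAlgebra.single g 1 * MonoidAlgebra.mapDomainRingHom B D.subtype b := by
  induction b using MonoidAlgebra.induction_linear with
  | zero => simp
  | add f g hf hg => rw [map_add, add_mul, mul_add, hf, hg]
  | single x r =>
    rw [MonoidAlgebra.mapDomainRingHom_apply, MonoidAlgebra.mapDomain_single,
      MonoidAlgebra.single_mul_single, MonoidAlgebra.single_mul_single, one_mul, mul_one]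
    have h : (D.subtype x : G) * g = g * D.subtype x := (Subgroup.mem_centralizer_iff.1 hg) x x.2
    rw [h]

private theorem eg_eq (D : Subgroup G) (e : Matrix ι ι (MonoidAlgebra B D)) {g : G}
    (hg : g ∈ Subgroup.centralizer (D : Set G)) :
    eg D e g = gm g * e.map (MonoidAlgebra.mapDomainRingHom B D.subtype) +
      (1 - e).map (MonoidAlgebra.mapDomainRingHom B D.subtype) := by
  rw [eg, bmat, gm]
  ext i j : 1
  rw [Matrix.add_apply, Matrix.add_apply, Matrix.map_apply, Matrix.diagonal_mul, Matrix.map_apply,
    Matrix.map_apply, Matrix.sub_apply, map_sub, mul_sub, comm_gm D hg, mul_one]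
  have h : (MonoidAlgebra.mapDomainRingHom B D.subtype) ((1 : Matrix ι ι (MonoidAlgebra B D)) i j) =
      (1 : Matrix ι ι (MonoidAlgebra B G)) i j := by
    by_cases hij : i = j
    · subst hij
      rw [Matrix.one_apply_eq, Matrix.one_apply_eq, map_one]
    · rw [Matrix.one_apply_ne hij, Matrix.one_apply_ne hij, map_zero]
  rw [h]
  abel

private theorem map_comm_gm (D : Subgroup G) (e : Matrix ι ι (MonoidAlgebra B D)) {g : G}
    (hg : g ∈ Subgroup.centralizer (D : Set G)) :
    e.map (MonoidAlgebra.mapDomainRingHom B D.subtype) * gm g =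
      gm g * e.map (MonoidAlgebra.mapDomainRingHom B D.subtype) := by
  rw [gm]
  ext i j : 1
  rw [Matrix.diagonal_mul, Matrix.mul_diagonal, Matrix.map_apply, comm_gm D hg]

private theorem lam_split (D : Subgroup G) {Ψ : Wd G → B}
    (h : ∀ V W x y l i, ∀ s ∈ D,
      Ψ (V * let1 (x * s) l * let1 y i * W) = Ψ (V * let1 x l * let1 (s * y) i * W))
    (e : Matrix ι ι (MonoidAlgebra B D)) (he : e * e = e) (L : List (G × ℕ)) :
    ∀ (g : G) (l : ℕ), (∀ a ∈ L, a.1 ∈ Subgroup.centralizer (D : Set G)) →
      g ∈ Subgroup.centralizer (D : Set G) → ∀ Y : FR G ι B,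
      lam Ψ ((L.map fun a => (io a.2 (eg D e a.1) : FR G ι B)).prod * io l (eg D e g) * Y) =
        lam Ψ ((L.map fun a => (io a.2 (gm a.1) : FR G ι B)).prod *
          io l (gm g * e.map (MonoidAlgebra.mapDomainRingHom B D.subtype)) * Y) +
        lam Ψ ((L.map fun a => (io a.2 1 : FR G ι B)).prod *
          io l ((1 - e).map (MonoidAlgebra.mapDomainRingHom B D.subtype)) * Y) := by
  have hmap : ∀ a b : Matrix ι ι (MonoidAlgebra B D),
      (a * b).map (MonoidAlgebra.mapDomainRingHom B D.subtype) =
        a.map (MonoidAlgebra.mapDomainRingHom B D.subtype) *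
          b.map (MonoidAlgebra.mapDomainRingHom B D.subtype) := fun a b => Matrix.map_mul
  have he1 : e * (1 - e) = 0 := by rw [mul_sub, he, mul_one, sub_self]
  have he2 : (1 - e) * e = 0 := by rw [sub_mul, he, one_mul, sub_self]
  have he3 : (1 - e) * (1 - e) = 1 - e := by rw [mul_sub, he2, mul_one, sub_zero]
  have hz : (0 : Matrix ι ι (MonoidAlgebra B D)).map (MonoidAlgebra.mapDomainRingHom B D.subtype) =
      0 := Matrix.map_zero _ (map_zero _)
  induction L using List.reverseRecOn with
  | nil =>
    intro g l _ hg Y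
    simp only [List.map_nil, List.prod_nil, one_mul]
    rw [eg_eq D e hg, map_add, add_mul, map_add]
  | append_singleton L a ih =>
    intro g l hL hg Y
    have ha : a.1 ∈ Subgroup.centralizer (D : Set G) := hL a (by simp)
    have hL' : ∀ a ∈ L, a.1 ∈ Subgroup.centralizer (D : Set G) := fun a ha => hL a (by simp [ha])
    have h1 := ih a.1 a.2 hL' ha (io l (eg D e g) * Y)
    simp only [← mul_assoc] at h1
    simp only [List.map_append, List.map_cons, List.map_nil, List.prod_append, List.prod_singleton]
    rw [h1, lam_move D (fun V W x y s hs => h V W x y a.2 l s hs)]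
    have h2 := lam_move D (fun V W x y s hs => h V W x y a.2 l s hs)
      (L.map fun a => (io a.2 1 : FR G ι B)).prod Y 1 (eg D e g) (1 - e)
    rw [one_mul] at h2
    rw [h2]
    have h3 : e.map (MonoidAlgebra.mapDomainRingHom B D.subtype) * eg D e g =
        gm g * e.map (MonoidAlgebra.mapDomainRingHom B D.subtype) := by
      rw [eg_eq D e hg, mul_add, ← mul_assoc, map_comm_gm D e hg, mul_assoc, ← hmap, ← hmap, he, he1,
        hz, add_zero]
    have h4 : (1 - e).map (MonoidAlgebra.mapDomainRingHom B D.subtype) * eg D e g =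
        (1 - e).map (MonoidAlgebra.mapDomainRingHom B D.subtype) := by
      rw [eg_eq D e hg, mul_add, ← mul_assoc, map_comm_gm D (1 - e) hg, mul_assoc, ← hmap, ← hmap,
        he2, he3, hz, mul_zero, zero_add]
    rw [h3, h4]

theorem lam_idem (D : Subgroup G) [Fintype D] {Ψ : Wd G → B}
    (h : ∀ V W x y l i, ∀ s ∈ D,
      Ψ (V * let1 (x * s) l * let1 y i * W) = Ψ (V * let1 x l * let1 (s * y) i * W))
    (e : Matrix ι ι (MonoidAlgebra B D)) (he : e * e = e) (L : List (G × ℕ))
    (hL : ∀ a ∈ L, a.1 ∈ Subgroup.centralizer (D : Set G)) (g : G) (l : ℕ)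
    (hg : g ∈ Subgroup.centralizer (D : Set G)) :
    lam Ψ ((L.map fun a => (io a.2 (eg D e a.1) : FR G ι B)).prod * io l (eg D e g)) =
      (∑ x : D, (trace e).coeff x * Ψ ((L.map fun a => let1 a.1 a.2).prod * let1 (g * x) l)) +
        ∑ x : D, (trace (1 - e)).coeff x * Ψ ((L.map fun a => let1 1 a.2).prod * let1 (x : G) l) := by
  have h1 := lam_split D h e he L g l hL hg 1
  rw [mul_one, mul_one, mul_one] at h1
  rw [h1, lam_last]
  congr 1
  have h2 := lam_last D Ψ (L.map fun a => ((1 : G), a.2)) 1 l (1 - e)
  rw [List.map_map, List.map_map, gm_one, one_mul] at h2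
  have h3 : ((fun a : G × ℕ => (io a.2 (gm a.1) : FR G ι B)) ∘ fun a : G × ℕ => ((1 : G), a.2)) =
      fun a => (io a.2 1 : FR G ι B) := by
    funext a
    simp only [Function.comp_apply, gm_one]
  rw [h3] at h2
  rw [h2]
  simp only [one_mul]
  rfl

end

end Pool.Agent.H71.FQ
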