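import Pool.Agent.H13.TFQ.H71.FQ.Asm
import Pool.Agent.H13.TFQ.M34

/-!
# Project FQ: the value on the symbols, for functions which are invariant under `D`, second half

PROOFS. `TK_rho`: `TK_eq`; `(rho γ)⁻¹ * rho γ' = rho (γ⁻¹ γ')` has the value `1 + e (γ⁻¹ γ' - 1)`, a lift is `eg`.
`trT_gasm`: `asm_mk`, `trT_cls`, `HG.ev_map`, `HG.ev_sum`, `HG.ev_const`.
-/

set_option autoImplicit false

open Matrix

universe u v w

namespace Pool.Agent.H71.FQ

open Pool.Agent.H71.FJ (MatEquiv IdemMat K0 K0.mk K0.lift K0.lift_mk K0.hom_ext K0.map)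
open Pool.Agent.H71.DB (bmat bU bmat_mul bmat_one)

section

variable {K : Type u} [CommRing K] {p m : ℕ} (L : LD K p m) {G : Type v} [Group G] {n : ℕ} {c : G}

theorem cent_comm' (D : Subgroup G) (γ : Subgroup.centralizer (D : Set G)) (a : D) :
    D.subtype a * (Subgroup.centralizer (D : Set G)).subtype γ =
      (Subgroup.centralizer (D : Set G)).subtype γ * D.subtype a :=
  Subgroup.mem_centralizer_iff.1 γ.2 a a.2

/-- the reduction of the matrices `1 + e (g - 1)` -/
theorem red_eg {ι : Type*} [Fintype ι] [DecidableEq ι] (D : Subgroup G)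
    (e : Matrix ι ι (MonoidAlgebra L.B D)) (g : G) :
    L.red (eg D e g) = bmat (MonoidAlgebra.mapDomainRingHom K D.subtype)
      (e.map (MonoidAlgebra.mapRingHom D L.π)) (MonoidAlgebra.single g 1) := by
  have h1 : ∀ x : MonoidAlgebra L.B D, MonoidAlgebra.mapRingHom G L.π
      (MonoidAlgebra.mapDomainRingHom L.B D.subtype x) =
      MonoidAlgebra.mapDomainRingHom K D.subtype (MonoidAlgebra.mapRingHom D L.π x) := fun x =>
    RingHom.congr_fun (MonoidAlgebra.mapRingHom_comp_mapDomainRingHom L.π D.subtype) x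
  refine Matrix.ext fun i j => ?_
  have h2 : MonoidAlgebra.mapRingHom G L.π ((1 : Matrix ι ι (MonoidAlgebra L.B G)) i j) =
      (1 : Matrix ι ι (MonoidAlgebra K G)) i j := by
    rw [Matrix.one_apply, Matrix.one_apply]
    split_ifs
    · exact map_one _
    · exact map_zero _
  unfold eg bmat LD.red
  rw [Matrix.map_apply, Matrix.add_apply, Matrix.add_apply, Matrix.map_apply, Matrix.map_apply,
    Matrix.map_apply, map_add, map_mul, map_sub, map_one, h1, h2, MonoidAlgebra.mapRingHom_single,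
    map_one]

/-- The value of `TK` on the representation given by an idempotent. -/
theorem TK_rho {k : ℕ} {Φ : (Fin (k + 1) → Fin (p ^ m) → G) → L.B} (hΦ : IsInv c Φ)
    (D : Subgroup G) [Fintype D] (hD : RInv D Φ) (a : IdemMat (MonoidAlgebra L.B D))
    (z : Fin (k + 1) → Subgroup.centralizer (D : Set G)) :
    TK L c Φ (fun j => rho (MonoidAlgebra.mapDomainRingHom K D.subtype)
      ((grpHom K G).comp (Subgroup.centralizer (D : Set G)).subtype)
      (grpHom_comm K D.subtype (Subgroup.centralizer (D : Set G)).subtype (cent_comm' D))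
      (a.map (MonoidAlgebra.mapRingHom D L.π)) (z j)) =
      (∑ x : D, (trace a.mat).coeff x * rs c Φ (x : G) (fun j => (z j : G))) +
        ∑ x : D, (trace (1 - a.mat)).coeff x * rs c Φ (x : G) (fun _ => 1) := by
  refine (TK_eq (ι := Fin a.n) L hΦ _ (fun j => eg D a.mat ((z j : G)⁻¹ * z (j + 1))) ?_).trans
    (TB_eg (pow_pos L.hp.pos m) hΦ D hD a.mat a.idem (fun j => (z j : G)) fun j => (z j).2)
  intro j
  rw [red_eg]
  have h1 : ∀ γ γ' : Subgroup.centralizer (D : Set G), (((rho (MonoidAlgebra.mapDomainRingHom K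
      D.subtype) ((grpHom K G).comp (Subgroup.centralizer (D : Set G)).subtype)
      (grpHom_comm K D.subtype (Subgroup.centralizer (D : Set G)).subtype (cent_comm' D))
      (a.map (MonoidAlgebra.mapRingHom D L.π))) γ)⁻¹ *
      (rho (MonoidAlgebra.mapDomainRingHom K D.subtype)
      ((grpHom K G).comp (Subgroup.centralizer (D : Set G)).subtype)
      (grpHom_comm K D.subtype (Subgroup.centralizer (D : Set G)).subtype (cent_comm' D))
      (a.map (MonoidAlgebra.mapRingHom D L.π))) γ').val =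
      1 + (a.map (MonoidAlgebra.mapRingHom D L.π)).mat.map fun b =>
        MonoidAlgebra.mapDomainRingHom K D.subtype b *
          ((grpHom K G ((γ⁻¹ * γ' : Subgroup.centralizer (D : Set G)) : G) :
            MonoidAlgebra K G) - 1) := by
    intro γ γ'
    rw [← map_inv, ← map_mul, rho_val]
    rfl
  exact (h1 (z j) (z (j + 1))).symm

theorem IsCoc.mul {Γ : Type*} [Group Γ] {S : Type*} [CommRing S] (a : S)
    {φ : (Fin (n + 2) → Γ) → S} (h : IsCoc Γ n φ) : IsCoc Γ n fun x => a * φ x where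
  inv g x := by rw [h.inv g x]
  coc x := by
    simp only [← mul_smul_comm]
    rw [← Finset.mul_sum, h.coc x, mul_zero]

/-- **The value on the symbols.** -/
theorem trT_gasm {Φ : (Fin (n + 2) → Fin (p ^ m) → G) → L.B} (hΦ : IsPhi c Φ) (D : Subgroup G)
    [Fintype D] (hD : RInv D Φ) (a : IdemMat (MonoidAlgebra L.B D))
    (z : HG (Subgroup.centralizer (D : Set G)) n) :
    trT L hΦ (gasm K n D.subtype (Subgroup.centralizer (D : Set G)).subtype (cent_comm' D)
      (K0.map (MonoidAlgebra.mapRingHom D L.π) (K0.mk a)) z) =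
      ∑ x : D, (trace a.mat).coeff x * HG.ev (isCoc_rs hΦ D x) z := by
  have hmk : K0.map (MonoidAlgebra.mapRingHom D L.π) (K0.mk a) =
      K0.mk (a.map (MonoidAlgebra.mapRingHom D L.π)) :=
    Pool.Agent.H71.FJ.K0.map_mk' _ a
  unfold gasm
  rw [hmk, asm_mk, trT_cls, HG.ev_map]
  have h1 : ∀ x : D, IsCoc (Subgroup.centralizer (D : Set G)) n fun z =>
      (trace a.mat).coeff x * rs c Φ (x : G) fun j => (z j : G) := fun x =>
    (isCoc_rs hΦ D x).mul _
  have h2 := IsCoc.sum Finset.univ fun x _ => h1 x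
  obtain ⟨C, hC⟩ : ∃ C : L.B, C =
      ∑ x : D, (trace (1 - a.mat)).coeff x * rs c Φ (x : G) (fun _ : Fin (n + 2) => 1) := ⟨_, rfl⟩
  obtain ⟨φ, hφ, hφe⟩ : ∃ (φ : (Fin (n + 2) → Subgroup.centralizer (D : Set G)) → L.B)
      (h : IsCoc (Subgroup.centralizer (D : Set G)) n φ), HG.ev ((isCoc_TK L (a.map
        (MonoidAlgebra.mapRingHom D L.π)).n hΦ).comp
        (rho (MonoidAlgebra.mapDomainRingHom K D.subtype)
          ((grpHom K G).comp (Subgroup.centralizer (D : Set G)).subtype)
          (grpHom_comm K D.subtype (Subgroup.centralizer (D : Set G)).subtype (cent_comm' D))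
          (a.map (MonoidAlgebra.mapRingHom D L.π)))) z = HG.ev h z ∧
        ∀ x, φ x = (∑ y : D, (trace a.mat).coeff y * rs c Φ (y : G) fun j => (x j : G)) + C :=
    ⟨_, _, rfl, fun x => by
      rw [hC]
      exact TK_rho L hΦ.toIsInv D hD a x⟩
  obtain ⟨e1, e2⟩ := hφe
  have h3 : IsCoc (Subgroup.centralizer (D : Set G)) n fun _ => C := by
    refine ⟨fun _ _ => rfl, fun x => ?_⟩
    have e3 : ∀ x, C = φ x - ∑ y : D, (trace a.mat).coeff y * rs c Φ (y : G) fun j => (x j : G) := by
      intro x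
      rw [e2 x]
      ring
    have e4 : ∀ i : Fin (n + 3), (-1 : ℤ) ^ (i : ℕ) • C =
        (-1 : ℤ) ^ (i : ℕ) • φ (fun j => x (i.succAbove j)) -
        (-1 : ℤ) ^ (i : ℕ) • ∑ y : D, (trace a.mat).coeff y *
          rs c Φ (y : G) fun j => (x (i.succAbove j) : G) := by
      intro i
      rw [← smul_sub, ← e3]
    rw [Finset.sum_congr rfl fun i _ => e4 i, Finset.sum_sub_distrib, hφ.coc x]
    have e5 := h2.coc x
    rw [e5, sub_zero]
  rw [e1, HG.ev_add hφ h2 h3 e2 z, HG.ev_const, add_zero, HG.ev_sum h1 h2]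
  exact Finset.sum_congr rfl fun x _ => HG.ev_mul _ (isCoc_rs hΦ D x) (h1 x) z

end

end Pool.Agent.H71.FQ
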