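import Pool.Agent.H13.TFQ.H71.FQ.FRingA
import Pool.Agent.H13.TFQ.M03

/-!
# Project FQ: the free ring and its functionals, second part

`FR G ι B` is the monoid ring of the words with coefficients in the matrices over `B`; `io l a` is the element of
degree one with label `l` defined by a matrix `a` over `B[G]`: the sum over `x ∈ G` of the coefficient of `a` at `x`
(a matrix over `B`) times the letter `(x, l)`. `lam Ψ X` is the sum over the words `W` of the trace of the coefficient
of `X` at `W` times `Ψ W`.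

PROOFS: everything is additive in the matrices; check on `Matrix.single i j (MonoidAlgebra.single x r)` and on the
monomials `MonoidAlgebra.single W A`.
-/

set_option autoImplicit false

open Matrix

universe u v w

namespace Pool.Agent.H71.FQ

section

variable {G : Type u} [Group G] {ι : Type v} [Fintype ι] [DecidableEq ι] {B : Type w} [CommRing B]

/-- the words all whose labels smaller than `k` occur equally often form a submonoid -/
def Bal (k : ℕ) (W : Wd G) : Prop := ∃ r, ∀ i < k, cnt i W = r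

theorem Bal.mul {k : ℕ} {V W : Wd G} (hV : Bal k V) (hW : Bal k W) : Bal k (V * W) := by
  obtain ⟨r, hr⟩ := hV
  obtain ⟨s, hs⟩ := hW
  exact ⟨r + s, fun i hi => by rw [cnt_mul, hr i hi, hs i hi]⟩

theorem mem_support_mul {X Y : FR G ι B} {W : Wd G} (h : W ∈ (X * Y).coeff.support) :
    ∃ V ∈ X.coeff.support, ∃ V' ∈ Y.coeff.support, V * V' = W := by
  classical
  exact Finset.mem_mul.1 (MonoidAlgebra.support_coeff_mul_subset X Y h)

theorem mem_support_one {W : Wd G} (h : W ∈ (1 : FR G ι B).coeff.support) : W = 1 := by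
  classical
  exact Finset.mem_one.1 (MonoidAlgebra.support_coeff_one_subset h)

/-- the subring of the elements supported on these words -/
def balR (G : Type u) [Group G] (ι : Type v) [Fintype ι] [DecidableEq ι] (B : Type w) [CommRing B]
    (k : ℕ) : Subring (FR G ι B) where
  carrier := {X | ∀ W ∈ X.coeff.support, Bal k W}
  mul_mem' := by
    intro X Y hX hY W hW
    obtain ⟨V, hV, V', hV', rfl⟩ := mem_support_mul hW
    exact (hX V hV).mul (hY V' hV')
  one_mem' := by
    intro W hW
    rw [mem_support_one hW]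
    exact ⟨0, fun i _ => cnt_one i⟩
  add_mem' := by
    classical
    intro X Y hX hY W hW
    rw [MonoidAlgebra.coeff_add] at hW
    rcases Finset.mem_union.1 (Finsupp.support_add hW) with h | h
    · exact hX W h
    · exact hY W h
  zero_mem' := by
    intro W hW
    simp at hW
  neg_mem' := by
    intro X hX W hW
    rw [MonoidAlgebra.coeff_neg, Finsupp.support_neg] at hW
    exact hX W hW

theorem lam_bal {c : G} {k q : ℕ} {Φ : (Fin k → Fin q → G) → B} (hΦ : IsInv c Φ) {X Y : FR G ι B}
    (hX : X ∈ balR G ι B k) :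
    lam (wf c Φ fun j => (j : ℕ)) (X * Y) = lam (wf c Φ fun j => (j : ℕ)) (Y * X) := by
  refine lam_comm ?_
  intro V hV W _
  obtain ⟨r, hr⟩ := hX V hV
  exact wf_rot hΦ _ V W r fun j => hr j j.2

/-- all the words of `X` have `n` letters with label `i` -/
def Deg (i n : ℕ) (X : FR G ι B) : Prop := ∀ W ∈ X.coeff.support, cnt i W = n

theorem Deg.mul {i n m : ℕ} {X Y : FR G ι B} (hX : Deg i n X) (hY : Deg i m Y) :
    Deg i (n + m) (X * Y) := by
  intro W hW
  obtain ⟨V, hV, V', hV', rfl⟩ := mem_support_mul hW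
  rw [cnt_mul, hX V hV, hY V' hV']

theorem Deg.one (i : ℕ) : Deg i 0 (1 : FR G ι B) := by
  intro W hW
  rw [mem_support_one hW]
  exact cnt_one i

theorem Deg.io (i l : ℕ) (a : Matrix ι ι (MonoidAlgebra B G)) :
    Deg i (if l = i then 1 else 0) (io l a) := by
  intro W hW
  obtain ⟨x, rfl⟩ := io_support l a hW
  exact cnt_let1 i x l

theorem Deg.ofFn {i k : ℕ} {f : Fin k → FR G ι B} {n : Fin k → ℕ} (h : ∀ j, Deg i (n j) (f j)) :
    Deg i (∑ j, n j) (List.ofFn f).prod := by
  induction k with
  | zero =>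
    simp only [List.ofFn_zero, List.prod_nil, Finset.univ_eq_empty, Finset.sum_empty]
    exact Deg.one i
  | succ k ih =>
    rw [List.ofFn_succ, List.prod_cons, Fin.sum_univ_succ]
    exact (h 0).mul (ih fun j => h j.succ)

theorem Deg.pow {i n : ℕ} {X : FR G ι B} (h : Deg i n X) (q : ℕ) : Deg i (q * n) (X ^ q) := by
  induction q with
  | zero =>
    rw [pow_zero, zero_mul]
    exact Deg.one i
  | succ q ih =>
    rw [pow_succ, add_mul, one_mul]
    exact ih.mul h

theorem Deg.prod_io {k : ℕ} (b : Fin k → Matrix ι ι (MonoidAlgebra B G)) (i : ℕ) (hi : i < k) :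
    Deg i 1 ((List.ofFn fun j : Fin k => (FQ.io (j : ℕ) (b j) : FR G ι B)).prod) := by
  have h := Deg.ofFn fun j : Fin k => Deg.io i (j : ℕ) (b j)
  have h1 : ∑ j : Fin k, (if (j : ℕ) = i then 1 else 0) = 1 := by
    rw [Finset.sum_eq_single (⟨i, hi⟩ : Fin k)]
    · rw [if_pos rfl]
    · intro j _ hj
      rw [if_neg]
      intro h2
      exact hj (Fin.ext h2)
    · intro h2
      exact absurd (Finset.mem_univ _) h2
  rw [h1] at h
  exact h

theorem pow_prod_io_mem {k : ℕ} (q : ℕ) (b : Fin k → Matrix ι ι (MonoidAlgebra B G)) {W : Wd G}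
    (h : W ∈ ((List.ofFn fun j : Fin k => (io (j : ℕ) (b j) : FR G ι B)).prod ^ q).coeff.support)
    (i : ℕ) (hi : i < k) : cnt i W = q := by
  have h1 := (Deg.prod_io b i hi).pow q W h
  rw [mul_one] at h1
  exact h1

/-- change of the labels -/
noncomputable def relR (ρ : ℕ → ℕ) : FR G ι B →+* FR G ι B :=
  MonoidAlgebra.mapDomainRingHom (Matrix ι ι B) (relab ρ)

theorem relR_single (ρ : ℕ → ℕ) (W : Wd G) (A : Matrix ι ι B) :
    relR ρ (MonoidAlgebra.single W A) = MonoidAlgebra.single (relab ρ W) A :=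
  MonoidAlgebra.mapDomain_single

theorem relR_io (ρ : ℕ → ℕ) (l : ℕ) (a : Matrix ι ι (MonoidAlgebra B G)) :
    relR ρ (io l a : FR G ι B) = io (ρ l) a := by
  show relR ρ (∑ i, ∑ j, (a i j).coeff.sum fun x r =>
      MonoidAlgebra.single (let1 x l) (Matrix.single i j r)) =
    ∑ i, ∑ j, (a i j).coeff.sum fun x r =>
      MonoidAlgebra.single (let1 x (ρ l)) (Matrix.single i j r)
  simp only [map_sum, map_finsuppSum, relR_single, relab_let1]

theorem lam_relR {Ψ Ψ' : Wd G → B} (ρ : ℕ → ℕ) (h : ∀ W, Ψ' (relab ρ W) = Ψ W) (X : FR G ι B) :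
    lam Ψ' (relR ρ X) = lam Ψ X := by
  induction X using MonoidAlgebra.induction_linear with
  | zero => rw [map_zero, map_zero, map_zero]
  | add X Y hX hY => rw [map_add, map_add, map_add, hX, hY]
  | single W A => rw [relR_single, lam_single, lam_single, h]

end

section

variable {G : Type u} [Group G] {B : Type w} [CommRing B]

/-- the ring homomorphism given by the block sum of the coefficients -/
noncomputable def blkHom (N M : ℕ) (B : Type w) [CommRing B] :
    Matrix (Fin N) (Fin N) B × Matrix (Fin M) (Fin M) B →+* Matrix (Fin (N + M)) (Fin (N + M)) B where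
  toFun w := (fromBlocks w.1 0 0 w.2).submatrix finSumFinEquiv.symm finSumFinEquiv.symm
  map_one' := by
    show (fromBlocks 1 0 0 1).submatrix finSumFinEquiv.symm finSumFinEquiv.symm = 1
    rw [fromBlocks_one, submatrix_one_equiv]
  map_mul' := by
    intro w w'
    show (fromBlocks (w.1 * w'.1) 0 0 (w.2 * w'.2)).submatrix finSumFinEquiv.symm
      finSumFinEquiv.symm = _
    rw [submatrix_mul_equiv, fromBlocks_multiply]
    simp
  map_zero' := by
    show (fromBlocks 0 0 0 0).submatrix finSumFinEquiv.symm finSumFinEquiv.symm = 0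
    rw [fromBlocks_zero]
    rfl
  map_add' := by
    intro w w'
    show (fromBlocks (w.1 + w'.1) 0 0 (w.2 + w'.2)).submatrix finSumFinEquiv.symm
      finSumFinEquiv.symm = _
    have h := fromBlocks_add w.1 0 0 w.2 w'.1 0 0 w'.2
    rw [add_zero, add_zero] at h
    rw [← h]
    rfl

theorem blkHom_apply {N M : ℕ} (A : Matrix (Fin N) (Fin N) B) (A' : Matrix (Fin M) (Fin M) B) :
    blkHom N M B (A, A') =
      (fromBlocks A 0 0 A').submatrix finSumFinEquiv.symm finSumFinEquiv.symm := rfl

theorem trace_blk {N M : ℕ} (A : Matrix (Fin N) (Fin N) B) (A' : Matrix (Fin M) (Fin M) B) :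
    (blkHom N M B (A, A')).trace = A.trace + A'.trace := by
  rw [blkHom_apply]
  simp only [Matrix.trace, Matrix.diag, submatrix_apply]
  rw [← Equiv.sum_comp finSumFinEquiv]
  simp only [Equiv.symm_apply_apply, Fintype.sum_sum_type, fromBlocks_apply₁₁,
    fromBlocks_apply₂₂]

/-- the element with prescribed coefficients at the letters -/
theorem eq_io {ι : Type v} [Fintype ι] [DecidableEq ι] {l : ℕ}
    {a : Matrix ι ι (MonoidAlgebra B G)} {X : FR G ι B}
    (h1 : ∀ x, X.coeff (let1 x l) = cof a x) (h2 : ∀ W, (∀ x, W ≠ let1 x l) → X.coeff W = 0) :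
    X = io l a := by
  apply MonoidAlgebra.ext
  ext1 W
  by_cases h : ∃ x, W = let1 x l
  · obtain ⟨x, rfl⟩ := h
    rw [h1, io_coeff]
  · rw [h2 W fun x hx => h ⟨x, hx⟩]
    symm
    by_contra h3
    exact h (io_support l a (Finsupp.mem_support_iff.2 h3))

theorem io_coeff_of_ne {ι : Type v} [Fintype ι] [DecidableEq ι] {l : ℕ}
    (a : Matrix ι ι (MonoidAlgebra B G)) {W : Wd G} (h : ∀ x, W ≠ let1 x l) :
    (io l a : FR G ι B).coeff W = 0 := by
  by_contra h3
  obtain ⟨x, hx⟩ := io_support l a (Finsupp.mem_support_iff.2 h3)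
  exact h x hx

/-- the pair of two elements -/
noncomputable def pr2 {N M : ℕ} (X : FR G (Fin N) B) (Y : FR G (Fin M) B) :
    MonoidAlgebra (Matrix (Fin N) (Fin N) B × Matrix (Fin M) (Fin M) B) (Wd G) :=
  MonoidAlgebra.map (AddMonoidHom.inl _ _) X + MonoidAlgebra.map (AddMonoidHom.inr _ _) Y

theorem pr2_coeff {N M : ℕ} (X : FR G (Fin N) B) (Y : FR G (Fin M) B) (W : Wd G) :
    (pr2 X Y).coeff W = (X.coeff W, Y.coeff W) := by
  unfold pr2
  rw [MonoidAlgebra.coeff_add, Finsupp.add_apply, MonoidAlgebra.coeff_map,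
    MonoidAlgebra.coeff_map, Finsupp.mapRange_apply, Finsupp.mapRange_apply]
  simp

theorem fst_pr2 {N M : ℕ} (X : FR G (Fin N) B) (Y : FR G (Fin M) B) :
    MonoidAlgebra.mapRingHom (Wd G) (RingHom.fst _ _) (pr2 X Y) = X := by
  apply MonoidAlgebra.ext
  ext1 W
  rw [MonoidAlgebra.coeff_mapRingHom, pr2_coeff]
  rfl

theorem snd_pr2 {N M : ℕ} (X : FR G (Fin N) B) (Y : FR G (Fin M) B) :
    MonoidAlgebra.mapRingHom (Wd G) (RingHom.snd _ _) (pr2 X Y) = Y := by
  apply MonoidAlgebra.ext
  ext1 W
  rw [MonoidAlgebra.coeff_mapRingHom, pr2_coeff]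
  rfl

theorem blk_pr2 {N M : ℕ} (l : ℕ) (a : Matrix (Fin N) (Fin N) (MonoidAlgebra B G))
    (a' : Matrix (Fin M) (Fin M) (MonoidAlgebra B G)) :
    MonoidAlgebra.mapRingHom (Wd G) (blkHom N M B) (pr2 (io l a) (io l a')) =
      io l ((fromBlocks a 0 0 a').submatrix finSumFinEquiv.symm finSumFinEquiv.symm) := by
  apply eq_io
  · intro x
    rw [MonoidAlgebra.coeff_mapRingHom, pr2_coeff, io_coeff, io_coeff, blkHom_apply]
    unfold cof
    rw [← submatrix_map, fromBlocks_map]
    congr 2
  · intro W hW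
    rw [MonoidAlgebra.coeff_mapRingHom, pr2_coeff, io_coeff_of_ne a hW, io_coeff_of_ne a' hW]
    exact map_zero (blkHom N M B)

theorem lam_pair {N M : ℕ} (Ψ : Wd G → B)
    (Z : MonoidAlgebra (Matrix (Fin N) (Fin N) B × Matrix (Fin M) (Fin M) B) (Wd G)) :
    lam Ψ (MonoidAlgebra.mapRingHom (Wd G) (blkHom N M B) Z) =
      lam Ψ (MonoidAlgebra.mapRingHom (Wd G) (RingHom.fst _ _) Z) +
        lam Ψ (MonoidAlgebra.mapRingHom (Wd G) (RingHom.snd _ _) Z) := by
  induction Z using MonoidAlgebra.induction_linear with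
  | zero => simp only [map_zero, add_zero]
  | add X Y hX hY =>
    simp only [map_add]
    rw [hX, hY]
    abel
  | single W A =>
    rw [MonoidAlgebra.mapRingHom_single, MonoidAlgebra.mapRingHom_single,
      MonoidAlgebra.mapRingHom_single, lam_single, lam_single, lam_single]
    rw [show A = (A.1, A.2) from rfl, trace_blk, add_mul]
    rfl

/-- **Block sums**: `lam` of a product of block sums (at least one factor). -/
theorem lam_blk {N M : ℕ} (Ψ : Wd G → B) {k q : ℕ} (hk : 0 < k) (hq : 0 < q)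
    (b : Fin k → Matrix (Fin N) (Fin N) (MonoidAlgebra B G))
    (b' : Fin k → Matrix (Fin M) (Fin M) (MonoidAlgebra B G)) :
    lam Ψ ((List.ofFn fun j : Fin k => (io (j : ℕ)
        ((fromBlocks (b j) 0 0 (b' j)).submatrix finSumFinEquiv.symm finSumFinEquiv.symm) :
          FR G (Fin (N + M)) B)).prod ^ q) =
      lam Ψ ((List.ofFn fun j : Fin k => (io (j : ℕ) (b j) : FR G (Fin N) B)).prod ^ q) +
        lam Ψ ((List.ofFn fun j : Fin k => (io (j : ℕ) (b' j) : FR G (Fin M) B)).prod ^ q) := by
  have h := lam_pair Ψ ((List.ofFn fun j : Fin k => pr2 (io (j : ℕ) (b j) : FR G (Fin N) B)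
    (io (j : ℕ) (b' j) : FR G (Fin M) B)).prod ^ q)
  simp only [map_pow, map_list_prod, List.map_ofFn, Function.comp_def, fst_pr2, snd_pr2,
    blk_pr2] at h
  exact h

/-- naturality in the coefficients -/
theorem lam_map {ι : Type v} [Fintype ι] [DecidableEq ι] {B' : Type*} [CommRing B'] (f : B →+* B')
    (Ψ : Wd G → B) {k q : ℕ} (b : Fin k → Matrix ι ι (MonoidAlgebra B G)) :
    lam (fun W => f (Ψ W)) ((List.ofFn fun j : Fin k => (io (j : ℕ)
        ((b j).map (MonoidAlgebra.mapRingHom G f)) : FR G ι B')).prod ^ q) =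
      f (lam Ψ ((List.ofFn fun j : Fin k => (io (j : ℕ) (b j) : FR G ι B)).prod ^ q)) := by
  have h1 : ∀ Z : FR G ι B, lam (fun W => f (Ψ W))
      (MonoidAlgebra.mapRingHom (Wd G) (f.mapMatrix (m := ι)) Z) = f (lam Ψ Z) := by
    intro Z
    induction Z using MonoidAlgebra.induction_linear with
    | zero => simp only [map_zero]
    | add X Y hX hY =>
      simp only [map_add]
      rw [hX, hY]
    | single W A =>
      rw [MonoidAlgebra.mapRingHom_single, lam_single, lam_single, map_mul]
      congr 1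
      simp [Matrix.trace, map_sum]
  have h2 : ∀ (l : ℕ) (a : Matrix ι ι (MonoidAlgebra B G)),
      MonoidAlgebra.mapRingHom (Wd G) (f.mapMatrix (m := ι)) (io l a) =
        io l (a.map (MonoidAlgebra.mapRingHom G f)) := by
    intro l a
    apply eq_io
    · intro x
      rw [MonoidAlgebra.coeff_mapRingHom, io_coeff]
      ext i j
      simp [cof]
    · intro W hW
      rw [MonoidAlgebra.coeff_mapRingHom, io_coeff_of_ne a hW]
      exact map_zero _
  have h := h1 ((List.ofFn fun j : Fin k => (io (j : ℕ) (b j) : FR G ι B)).prod ^ q)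
  simp only [map_pow, map_list_prod, List.map_ofFn, Function.comp_def, h2] at h
  exact h

end

end Pool.Agent.H71.FQ
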