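import Pool.Agent.H13.TFQ.H71.FQ.Word

/-!
# Project FQ: the free ring and its functionals, first part

`FR G ι B` is the monoid ring of the words with coefficients in the matrices over `B`; `io l a` is the element of
degree one with label `l` defined by a matrix `a` over `B[G]`: the sum over `x ∈ G` of the coefficient of `a` at `x`
(a matrix over `B`) times the letter `(x, l)`. `lam Ψ X` is the sum over the words `W` of the trace of the coefficient
of `X` at `W` times `Ψ W`.

PROOFS: everything is additive in the matrices; check on `Matrix.single i j (MonoidAlgebra.single x r)` and on the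
monomials `MonoidAlgebra.single W A`.
-/

set_option autoImplicit false

open Matrix

universe u v w

namespace Pool.Agent.H71.FQ

/-- the free ring -/
abbrev FR (G : Type u) (ι : Type v) [Fintype ι] [DecidableEq ι] (B : Type w) [CommRing B] :
    Type (max u v w) := MonoidAlgebra (Matrix ι ι B) (Wd G)

section

variable {G : Type u} [Group G] {ι : Type v} [Fintype ι] [DecidableEq ι] {B : Type w} [CommRing B]

/-- the coefficient at `x` of a matrix over `B[G]` -/
def cof (a : Matrix ι ι (MonoidAlgebra B G)) (x : G) : Matrix ι ι B := a.map fun b => b.coeff x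

/-- induction on matrices over a monoid ring -/
theorem mat_induction {M : Type*} {P : Matrix ι ι (MonoidAlgebra B M) → Prop} (h0 : P 0)
    (hadd : ∀ a b, P a → P b → P (a + b))
    (h1 : ∀ i j x r, P (Matrix.single i j (MonoidAlgebra.single x r)))
    (a : Matrix ι ι (MonoidAlgebra B M)) : P a := by
  have h2 : ∀ i j (b : MonoidAlgebra B M), P (Matrix.single i j b) := by
    intro i j b
    induction b using MonoidAlgebra.induction_linear with
    | zero => rw [Matrix.single_zero]; exact h0
    | add f g hf hg => rw [Matrix.single_add]; exact hadd _ _ hf hg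
    | single x r => exact h1 i j x r
  have hsum : ∀ {κ : Type v} (s : Finset κ) (f : κ → Matrix ι ι (MonoidAlgebra B M)),
      (∀ k, P (f k)) → P (∑ k ∈ s, f k) := by
    intro κ s f hf
    classical
    induction s using Finset.induction_on with
    | empty => simpa using h0
    | insert k s hk ih => rw [Finset.sum_insert hk]; exact hadd _ _ (hf k) ih
  rw [Matrix.matrix_eq_sum_single a]
  exact hsum _ _ fun i => hsum _ _ fun j => h2 i j _

/-- The element with label `l` defined by a matrix. -/
noncomputable def io (l : ℕ) : Matrix ι ι (MonoidAlgebra B G) →+ FR G ι B where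
  toFun a := ∑ i, ∑ j, (a i j).coeff.sum fun x r => MonoidAlgebra.single (let1 x l) (Matrix.single i j r)
  map_zero' := by
    simp
  map_add' a b := by
    rw [← Finset.sum_add_distrib]
    refine Finset.sum_congr rfl fun i _ => ?_
    rw [← Finset.sum_add_distrib]
    refine Finset.sum_congr rfl fun j _ => ?_
    rw [Matrix.add_apply, MonoidAlgebra.coeff_add]
    exact Finsupp.sum_add_index' (fun x => by simp) (fun x r s => by
      rw [Matrix.single_add, MonoidAlgebra.single_add])

theorem io_apply (l : ℕ) (a : Matrix ι ι (MonoidAlgebra B G)) : (io l a : FR G ι B) =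
    ∑ i, ∑ j, (a i j).coeff.sum fun x r => MonoidAlgebra.single (let1 x l) (Matrix.single i j r) := rfl

theorem io_single (l : ℕ) (i j : ι) (x : G) (r : B) :
    io l (Matrix.single i j (MonoidAlgebra.single x r)) =
      MonoidAlgebra.single (let1 x l) (Matrix.single i j r) := by
  rw [io_apply, Finset.sum_eq_single i, Finset.sum_eq_single j]
  · rw [Matrix.single_apply_same, MonoidAlgebra.coeff_single, Finsupp.sum_single_index]
    simp
  · intro j' _ hj'
    rw [Matrix.single_apply_of_ne]
    · simp
    · rintro ⟨_, rfl⟩
      exact hj' rfl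
  · intro h
    exact absurd (Finset.mem_univ _) h
  · intro i' _ hi'
    refine Finset.sum_eq_zero fun j' _ => ?_
    rw [Matrix.single_apply_of_ne]
    · simp
    · rintro ⟨rfl, _⟩
      exact hi' rfl
  · intro h
    exact absurd (Finset.mem_univ _) h

theorem let1_injective (l : ℕ) {x y : G} (h : let1 x l = let1 y l) : x = y := by
  have := FreeMonoid.of_injective h
  exact (Prod.mk.inj this).1

theorem io_coeff (l : ℕ) (a : Matrix ι ι (MonoidAlgebra B G)) (x : G) :
    (io l a).coeff (let1 x l) = cof a x := by
  induction a using mat_induction with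
  | h0 => rw [map_zero]; ext i j; simp [cof]
  | hadd a b ha hb =>
      rw [map_add, MonoidAlgebra.coeff_add, Finsupp.add_apply, ha, hb]
      ext i j
      simp [cof]
  | h1 i j y r =>
      classical
      rw [io_single, MonoidAlgebra.coeff_single, Finsupp.single_apply]
      ext i' j'
      by_cases hxy : y = x
      · subst hxy
        simp only [if_true, cof, Matrix.map_apply]
        by_cases h : i = i' ∧ j = j'
        · obtain ⟨rfl, rfl⟩ := h
          simp
        · rw [Matrix.single_apply_of_ne _ _ _ _ _ h, Matrix.single_apply_of_ne _ _ _ _ _ h]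
          simp
      · rw [if_neg (fun h => hxy (let1_injective l h))]
        simp only [cof, Matrix.map_apply, Matrix.zero_apply]
        by_cases h : i = i' ∧ j = j'
        · obtain ⟨rfl, rfl⟩ := h
          simp [Finsupp.single_apply, hxy]
        · rw [Matrix.single_apply_of_ne _ _ _ _ _ h]
          simp

theorem io_support (l : ℕ) (a : Matrix ι ι (MonoidAlgebra B G)) {W : Wd G}
    (h : W ∈ (io l a).coeff.support) : ∃ x, W = let1 x l := by
  by_contra hW
  push_neg at hW
  rw [Finsupp.mem_support_iff] at h
  apply h
  induction a using mat_induction with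
  | h0 => simp
  | hadd a b ha hb =>
      have ha' : (io l a : FR G ι B).coeff W = 0 := by
        by_contra h'
        exact h' (ha h')
      have hb' : (io l b : FR G ι B).coeff W = 0 := by
        by_contra h'
        exact h' (hb h')
      rw [map_add, MonoidAlgebra.coeff_add, Finsupp.add_apply, ha', hb', add_zero]
  | h1 i j y r =>
      classical
      rw [io_single, MonoidAlgebra.coeff_single, Finsupp.single_apply, if_neg (fun h => hW y h.symm)]

/-- The functional defined by a function of words. -/
noncomputable def lam (Ψ : Wd G → B) : FR G ι B →+ B where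
  toFun X := X.coeff.sum fun W A => A.trace * Ψ W
  map_zero' := by
    simp
  map_add' X Y := by
    rw [MonoidAlgebra.coeff_add]
    exact Finsupp.sum_add_index' (fun W => by simp) (fun W A A' => by
      rw [Matrix.trace_add, add_mul])

theorem lam_apply (Ψ : Wd G → B) (X : FR G ι B) :
    lam Ψ X = X.coeff.sum fun W A => A.trace * Ψ W := rfl

theorem lam_single (Ψ : Wd G → B) (W : Wd G) (A : Matrix ι ι B) :
    lam Ψ (MonoidAlgebra.single W A) = A.trace * Ψ W := by
  rw [lam_apply, MonoidAlgebra.coeff_single, Finsupp.sum_single_index]
  simp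

theorem lam_mul (Ψ : Wd G → B) (X Y : FR G ι B) :
    lam Ψ (X * Y) = ∑ V ∈ X.coeff.support, ∑ W ∈ Y.coeff.support,
      (X.coeff V * Y.coeff W).trace * Ψ (V * W) := by
  rw [MonoidAlgebra.mul_def]
  simp only [Finsupp.sum, map_sum, lam_single]

theorem lam_comm {Ψ : Wd G → B} {X Y : FR G ι B}
    (h : ∀ V ∈ X.coeff.support, ∀ W ∈ Y.coeff.support, Ψ (V * W) = Ψ (W * V)) :
    lam Ψ (X * Y) = lam Ψ (Y * X) := by
  rw [lam_mul, lam_mul, Finset.sum_comm]
  refine Finset.sum_congr rfl fun W hW => Finset.sum_congr rfl fun V hV => ?_
  rw [h V hV W hW, Matrix.trace_mul_comm]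

end

end Pool.Agent.H71.FQ
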