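import Pool.Agent.H13.TFQ.M12
import Pool.Agent.H13.TFQ.M14
import Pool.Agent.H13.TFQ.M17

/-!
# Project FQ: change of the coefficient ring

`NatK0 R S G`: a family of homomorphisms `K₀(R[F]) → K₀(S[F])`, `F` a finite subgroup of `G`, compatible with the
conjugations. It induces a homomorphism of the sources (`NatK0.src`). `ratInj_of_family`: if `c x = ∑ σ_i (τ_i x)` for
families `τ_i : R → S_i`, `σ_i : S_i → R`, and the `τ_i` are compatible with homomorphisms of the targets, then the
rational injectivity of the assembly maps of the `S_i` implies the rational injectivity of that of `R`.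
`ratInj_of_nilKer`: surjections with nilpotent kernel.
-/

set_option autoImplicit false

open Matrix

universe u u' v w

namespace Pool.Agent.H71.FQ

open Pool.Agent.H71.FJ (IdemMat K0 K0.mk K0.map K0.map_map K0.nilLift K0.map_nilLift K0.nilLift_map K0.map_injective NilKer)
open Pool.Agent.H95.WH (FamSub conjHom FinSub)

section RatInj

end RatInj

section Nat

variable {R : Type u} [Ring R] {S : Type u'} [Ring S] {G : Type v} [Group G]

/-- The homomorphism of the sources. -/
noncomputable def NatK0.src (τ : NatK0 R S G) (n : ℕ) : HnK0 R G n →+ HnK0 S G n :=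
  QuotientAddGroup.lift (SymRel R G n)
    (FreeAbelianGroup.lift fun s : Sym R G n => (sy s.F (τ.app s.F s.x) s.z : HnK0 S G n)) (by
      rw [SymRel, AddSubgroup.closure_le]
      rintro w ((⟨F, x, y, z, rfl⟩ | ⟨F, x, z, z', rfl⟩) | ⟨F, F', g, h, x, z, rfl⟩)
      · change FreeAbelianGroup.lift _ _ = 0
        rw [symX, symOf, symOf, symOf, map_sub, map_add, FreeAbelianGroup.lift_apply_of,
          FreeAbelianGroup.lift_apply_of, FreeAbelianGroup.lift_apply_of, map_add, sy_add, sub_self]
      · change FreeAbelianGroup.lift _ _ = 0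
        rw [symZ, symOf, symOf, symOf, map_sub, map_add, FreeAbelianGroup.lift_apply_of,
          FreeAbelianGroup.lift_apply_of, FreeAbelianGroup.lift_apply_of, sy_addz, sub_self]
      · change FreeAbelianGroup.lift _ _ = 0
        rw [symC, symOf, symOf, map_sub, FreeAbelianGroup.lift_apply_of,
          FreeAbelianGroup.lift_apply_of, τ.nat, sy_conj, sub_self])

theorem NatK0.src_sy (τ : NatK0 R S G) {n : ℕ} (F : FamSub G FinSub)
    (x : K0 (MonoidAlgebra R F.1)) (z : HG (Subgroup.centralizer (F.1 : Set G)) n) :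
    τ.src n (sy F x z) = sy F (τ.app F x) z := by
  have h : FreeAbelianGroup.lift (fun s : Sym R G n => (sy s.F (τ.app s.F s.x) s.z : HnK0 S G n))
      (FreeAbelianGroup.of ⟨F, x, z⟩) = sy F (τ.app F x) z := FreeAbelianGroup.lift_apply_of _ _
  exact h

/-- two homomorphisms which agree on the symbols are equal -/
theorem hnk0_ext {n : ℕ} {M : Type w} [AddCommGroup M] {f g : HnK0 R G n →+ M}
    (h : ∀ (F : FamSub G FinSub) (x : K0 (MonoidAlgebra R F.1))
      (z : HG (Subgroup.centralizer (F.1 : Set G)) n), f (sy F x z) = g (sy F x z)) : f = g := by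
  ext y
  induction y using hnk0_induction with
  | h0 => rw [map_zero, map_zero]
  | h1 F x z => exact h F x z
  | h2 a b ha hb => rw [map_add, map_add, ha, hb]
  | h3 a ha => rw [map_neg, map_neg, ha]

/-- **The reduction principle.** -/
theorem ratInj_of_family {ι : Type w} (s : Finset ι) (T : ι → Type u') [∀ i, Ring (T i)] (n : ℕ)
    (τ : ∀ i, NatK0 R (T i) G) (σ : ∀ i, NatK0 (T i) R G) {c : ℕ} (hc : c ≠ 0)
    (hστ : ∀ (F : FamSub G FinSub) (x : K0 (MonoidAlgebra R F.1)),
      ∑ i ∈ s, (σ i).app F ((τ i).app F x) = c • x)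
    (κ : ∀ i, KQ (MonoidAlgebra R G) n →+ KQ (MonoidAlgebra (T i) G) n)
    (hκ : ∀ i ∈ s, ∀ (F : FamSub G FinSub) (x : K0 (MonoidAlgebra R F.1))
      (z : HG (Subgroup.centralizer (F.1 : Set G)) n),
      κ i (assemblyN R n G (sy F x z)) = assemblyN (T i) n G (sy F ((τ i).app F x) z))
    (h : ∀ i ∈ s, RatInj (assemblyN (T i) n G)) : RatInj (assemblyN R n G) := by
  classical
  have hκ' : ∀ i ∈ s, ∀ w, κ i (assemblyN R n G w) = assemblyN (T i) n G ((τ i).src n w) := by
    intro i hi w
    have h1 : (κ i).comp (assemblyN R n G) = (assemblyN (T i) n G).comp ((τ i).src n) := by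
      apply hnk0_ext
      intro F x z
      rw [AddMonoidHom.comp_apply, AddMonoidHom.comp_apply, hκ i hi, NatK0.src_sy]
    exact DFunLike.congr_fun h1 w
  have hid : ∀ w : HnK0 R G n, ∑ i ∈ s, (σ i).src n ((τ i).src n w) = c • w := by
    intro w
    have h1 : ∑ i ∈ s, ((σ i).src n).comp ((τ i).src n) = c • AddMonoidHom.id (HnK0 R G n) := by
      apply hnk0_ext
      intro F x z
      rw [AddMonoidHom.finsetSum_apply, AddMonoidHom.nsmul_apply, AddMonoidHom.id_apply]
      have h2 : ∀ i ∈ s, (((σ i).src n).comp ((τ i).src n)) (sy F x z) =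
          syH F z ((σ i).app F ((τ i).app F x)) := by
        intro i _
        rw [AddMonoidHom.comp_apply, NatK0.src_sy, NatK0.src_sy]
        rfl
      rw [Finset.sum_congr rfl h2, ← map_sum, hστ, map_nsmul]
      rfl
    have h3 := DFunLike.congr_fun h1 w
    rw [AddMonoidHom.finsetSum_apply, AddMonoidHom.nsmul_apply] at h3
    exact h3
  rw [ratInj_iff]
  intro z M hM hz
  have h4 : ∀ i : ι, ∃ m : ℤ, m ≠ 0 ∧ (i ∈ s → m • (τ i).src n z = 0) := by
    intro i
    by_cases hi : i ∈ s
    · obtain ⟨m, hm, h5⟩ := ratInj_iff.1 (h i hi) ((τ i).src n z) M hM (by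
        rw [← hκ' i hi, ← map_zsmul, hz, map_zero])
      exact ⟨m, hm, fun _ => h5⟩
    · exact ⟨1, one_ne_zero, fun h => absurd h hi⟩
  choose m hm h5 using h4
  refine ⟨(∏ i ∈ s, m i) * c, mul_ne_zero (Finset.prod_ne_zero_iff.2 fun i _ => hm i)
    (by exact_mod_cast hc), ?_⟩
  have h6 : ∀ i ∈ s, (∏ i ∈ s, m i) • (τ i).src n z = 0 := by
    intro i hi
    rw [← Finset.prod_erase_mul s m hi, mul_smul, h5 i hi, smul_zero]
  calc ((∏ i ∈ s, m i) * c) • z = (∏ i ∈ s, m i) • ∑ i ∈ s, (σ i).src n ((τ i).src n z) := by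
        rw [hid, mul_smul, natCast_zsmul]
    _ = ∑ i ∈ s, (σ i).src n ((∏ i ∈ s, m i) • (τ i).src n z) := by
      rw [Finset.smul_sum]
      exact Finset.sum_congr rfl fun i _ => (map_zsmul _ _ _).symm
    _ = 0 := Finset.sum_eq_zero fun i hi => by rw [h6 i hi, map_zero]

/-- the case of one ring -/
theorem ratInj_of_one (n : ℕ) (τ : NatK0 R S G) (σ : NatK0 S R G) {c : ℕ} (hc : c ≠ 0)
    (hστ : ∀ (F : FamSub G FinSub) (x : K0 (MonoidAlgebra R F.1)),
      σ.app F (τ.app F x) = c • x)
    (κ : KQ (MonoidAlgebra R G) n →+ KQ (MonoidAlgebra S G) n)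
    (hκ : ∀ (F : FamSub G FinSub) (x : K0 (MonoidAlgebra R F.1))
      (z : HG (Subgroup.centralizer (F.1 : Set G)) n),
      κ (assemblyN R n G (sy F x z)) = assemblyN S n G (sy F (τ.app F x) z))
    (h : RatInj (assemblyN S n G)) : RatInj (assemblyN R n G) := by
  refine ratInj_of_family (ι := Unit) Finset.univ (fun _ => S) n (fun _ => τ) (fun _ => σ) hc
    (fun F x => ?_) (fun _ => κ) (fun _ _ => hκ) (fun _ _ => h)
  rw [Finset.univ_unique, Finset.sum_singleton]
  exact hστ F x

theorem NatK0.ofHom_asm (φ : R →+* S) {n : ℕ} (F : FamSub G FinSub)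
    (x : K0 (MonoidAlgebra R F.1)) (z : HG (Subgroup.centralizer (F.1 : Set G)) n) :
    KQ.map (MonoidAlgebra.mapRingHom G φ) (assemblyN R n G (sy F x z)) =
      assemblyN S n G (sy F ((NatK0.ofHom G φ).app F x) z) := by
  rw [asmN_sy, asmN_sy, map_gasm]
  rfl

/-- **Nilpotent kernels.** -/
theorem ratInj_of_nilKer (n : ℕ) {φ : R →+* S} (hs : Function.Surjective φ) (hn : NilKer φ)
    (h : RatInj (assemblyN S n G)) : RatInj (assemblyN R n G) :=
  ratInj_of_one n (NatK0.ofHom G φ) (NatK0.ofNil G hs hn) one_ne_zero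
    (fun F x => by
      rw [one_smul]
      exact K0.nilLift_map (mapRing_surjective hs F.1) (hn.monoidAlgebra F.1) x)
    (KQ.map (MonoidAlgebra.mapRingHom G φ)) (NatK0.ofHom_asm φ) h

end Nat

end Pool.Agent.H71.FQ
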