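import Pool.Agent.H13.TFQ.H71.FQ.LocF
import Pool.Agent.H13.TFQ.M51

/-!
# Project FQ: rational injectivity of the assembly map is a local property

If every finite subset of `G` lies in a subgroup `G'` for which the assembly map of `R[G']` is rationally injective,
then the assembly map of `R[G]` is rationally injective.
-/

set_option autoImplicit false

open Matrix

universe u v w

namespace Pool.Agent.H71.FQ

theorem mapDomainRingHom_injective (R : Type u) [Ring R] {G : Type v} [Group G] {G' : Type w}
    [Group G'] (f : G →* G') (hf : Function.Injective f) :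
    Function.Injective (MonoidAlgebra.mapDomainRingHom R f) :=
  fun _ _ h => MonoidAlgebra.mapDomain_injective hf h

theorem mem_range_mapDomainRingHom (R : Type u) [Ring R] {G : Type v} [Group G]
    (G' : Subgroup G) (a : MonoidAlgebra R G) (h : ∀ g ∈ a.coeff.support, g ∈ G') :
    a ∈ Set.range (MonoidAlgebra.mapDomainRingHom R G'.subtype) := by
  refine ⟨MonoidAlgebra.comapDomain G'.subtype G'.subtype_injective a, ?_⟩
  exact MonoidAlgebra.mapDomain_comapDomain (f := G'.subtype)
    (fun g hg => ⟨⟨g, h g hg⟩, rfl⟩) G'.subtype_injective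

/-- **Rational injectivity of the assembly map is a local property.** -/
theorem ratInj_directed {R : Type u} [Ring R] {G : Type v} [Group G] {n : ℕ}
    (P : Subgroup G → Prop)
    (hP : ∀ S : Finset G, ∃ G' : Subgroup G, P G' ∧ ∀ g ∈ S, g ∈ G')
    (h : ∀ G', P G' → RatInj (assemblyN R n G')) : RatInj (assemblyN R n G) := by
  classical
  rw [ratInj_iff]
  intro z M hM hz
  obtain ⟨S, hS⟩ := HnK0.exists_lift R n z
  obtain ⟨z1, hz1⟩ := hS (Subgroup.closure (S : Set G)) fun s hs => Subgroup.subset_closure hs
  have h1 : KQ.map (MonoidAlgebra.mapDomainRingHom R (Subgroup.closure (S : Set G)).subtype)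
      (M • assemblyN R n (Subgroup.closure (S : Set G)) z1) = 0 := by
    rw [map_zsmul, ← assemblyN_map, hz1, hz]
  obtain ⟨T, hT⟩ := KQ.exists_zero.{max u v, max u v, max u v} _ _ h1
  obtain ⟨G', hPG, hG'⟩ := hP (S ∪ T.biUnion fun a => a.coeff.support)
  have hle : Subgroup.closure (S : Set G) ≤ G' := by
    rw [Subgroup.closure_le]
    intro s hs
    exact hG' s (Finset.mem_union_left _ hs)
  have hcomp : G'.subtype.comp (Subgroup.inclusion hle) =
      (Subgroup.closure (S : Set G)).subtype := rfl
  have h2 : KQ.map (MonoidAlgebra.mapDomainRingHom R (Subgroup.inclusion hle))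
      (M • assemblyN R n (Subgroup.closure (S : Set G)) z1) = 0 := by
    refine hT (MonoidAlgebra.mapDomainRingHom R G'.subtype) _
      (mapDomainRingHom_injective R _ G'.subtype_injective) ?_ ?_
    · rw [← hcomp]
      exact (MonoidAlgebra.mapDomainRingHom_comp _ _).symm
    · intro a ha
      exact mem_range_mapDomainRingHom R G' a fun g hg =>
        hG' g (Finset.mem_union_right _ (Finset.mem_biUnion.2 ⟨a, ha, hg⟩))
  rw [map_zsmul, ← assemblyN_map] at h2
  obtain ⟨m, hm, h3⟩ := ratInj_iff.1 (h G' hPG) _ M hM h2
  refine ⟨m, hm, ?_⟩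
  have h4 := congrArg (HnK0.map R n G'.subtype) h3
  rw [map_zsmul, HnK0.map_map, map_zero, hcomp, hz1] at h4
  exact h4

end Pool.Agent.H71.FQ
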