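import Pool.Agent.H13.TFQ.H71.FU1.LocF1
import Pool.Agent.H13.TFQ.H71.FU1.Mor1
import Pool.Agent.H13.TFQ.H71.FU1.Nil1
import Pool.Agent.H13.TFQ.H71.FU1.Prod1
import Pool.Agent.H13.TFQ.M46
import Pool.Agent.H13.TFQ.M67

/-!
# Rational injectivity on the `K₀`-part and the `K₁`-part: the classes of rings and groups
-/

set_option autoImplicit false

open Matrix

universe u v w

namespace Pool.Agent.H71.FQS

open Pool.Agent.H71.FJ (NilKer)
open Pool.Agent.H16.FU (assembly01 assembly1 sy1 syB1 hnk1_induction ratInj01_of_local)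
open Pool.Agent.H71.FU1 (ratInj01_of_nilKer ratInj01_pi ratInj01_matrix ratInj01_finExt ratInj01_directed)
open Pool.Agent.H95.WH (K1 FamSub FinSub)

section

variable {R : Type u} [Ring R] {G : Type v} [Group G] {n : ℕ}

/-- The statement for the fields of characteristic `p`. -/
def FieldCase : Prop :=
  ∀ (p : ℕ) [Fact p.Prime] (k : Type u) [Field k] [CharP k p] (G : Type v) [Group G]
    (r : ℕ) (_ : ∀ g : G, (∃ j : ℕ, g ^ p ^ j = 1) → g ^ p ^ r = 1) (n : ℕ)
    (_ : ∀ C : Subgroup G, Finite C → IsCyclic C → ¬ p ∣ Nat.card C →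
      FQ.PSep p (Subgroup.centralizer (C : Set G)) n ∧
        FQ.PSep p (Subgroup.centralizer (C : Set G)) (n + 1)),
    FQ.RatInj (assembly01 k n G)

/-- The condition on the group in the degrees `n + 1` and `n + 2`. -/
def LocGrp1 (p : ℕ) (G : Type v) [Group G] (n : ℕ) : Prop :=
  ∀ S : Finset G, ∃ G' : Subgroup G, (∀ g ∈ S, g ∈ G') ∧
    (∃ r : ℕ, ∀ g : G', (∃ j : ℕ, g ^ p ^ j = 1) → g ^ p ^ r = 1) ∧
    ∀ C : Subgroup G', Finite C → IsCyclic C → ¬ p ∣ Nat.card C →
      PSep p (Cent C) n ∧ PSep p (Cent C) (n + 1)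

theorem ratInj01_alg (hmain : FieldCase.{u, v}) {p : ℕ} [Fact p.Prime] (k : Type u) [Field k]
    [CharP k p] (A : Type u) [Ring A] [Algebra k A] [Module.Finite k A] (G' : Type v) [Group G']
    (h1 : ∃ r : ℕ, ∀ g : G', (∃ j : ℕ, g ^ p ^ j = 1) → g ^ p ^ r = 1)
    (h2 : ∀ C : Subgroup G', Finite C → IsCyclic C → ¬ p ∣ Nat.card C →
      PSep p (Cent C) n ∧ PSep p (Cent C) (n + 1)) :
    FQ.RatInj (assembly01 A n G') := by
  obtain ⟨r0, hr0⟩ := h1
  obtain ⟨L, _, _, _, m, r, φ, hr, hs, hn⟩ := FQ.exists_splitting k A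
  have : CharP L p := charP_of_injective_algebraMap (algebraMap k L).injective p
  have hp : (p : TensorProduct k L A) = 0 := by
    have h3 : (algebraMap L (TensorProduct k L A)) (p : L) = (p : TensorProduct k L A) :=
      map_natCast _ p
    rw [← h3, CharP.cast_eq_zero, map_zero]
  refine ratInj01_finExt k L A (ratInj01_of_nilKer n hs hn (Fact.out : p.Prime).ne_zero hp
    (ratInj01_pi _ n fun i => ?_))
  exact ratInj01_matrix (r i) (hr i) (hmain p L G' r0 hr0 n fun C h3 h4 h5 =>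
    ⟨psep_of (Γ := Subgroup.centralizer (C : Set G')) (h2 C h3 h4 h5).1,
      psep_of (Γ := Subgroup.centralizer (C : Set G')) (h2 C h3 h4 h5).2⟩)

theorem ratInj01_fd (hmain : FieldCase.{u, v}) {p : ℕ} [Fact p.Prime] (k : Type u) [Field k]
    [CharP k p] (A : Type u) [Ring A] [Algebra k A] [Module.Finite k A] (h : LocGrp1 p G n) :
    FQ.RatInj (assembly01 A n G) := by
  refine ratInj01_directed (fun G' : Subgroup G =>
    (∃ r : ℕ, ∀ g : G', (∃ j : ℕ, g ^ p ^ j = 1) → g ^ p ^ r = 1) ∧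
      ∀ C : Subgroup G', Finite C → IsCyclic C → ¬ p ∣ Nat.card C →
        PSep p (Cent C) n ∧ PSep p (Cent C) (n + 1)) (fun S => ?_)
    fun G' hG' => ratInj01_alg hmain k A G' hG'.1 hG'.2
  obtain ⟨G', h1, h2, h3⟩ := h S
  exact ⟨G', ⟨h2, h3⟩, h1⟩

theorem k1_subsingleton [Subsingleton R] (x : K1 R) : x = 0 := by
  have h1 : (AddMonoidHom.id (K1 R)) = 0 := by
    apply K1.hom_ext
    intro N U
    change K1.mk U = 0
    have h2 : U = 1 := Units.ext (Subsingleton.elim _ _)
    have h3 : (K1.mk (1 : (Matrix (Fin N) (Fin N) R)ˣ)) + K1.mk (1 : (Matrix (Fin N) (Fin N) R)ˣ) =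
        K1.mk (1 : (Matrix (Fin N) (Fin N) R)ˣ) := by
      rw [← K1.mk_mul, mul_one]
    rw [h2]
    exact left_eq_add.1 h3.symm
  exact DFunLike.congr_fun h1 x

theorem hnK1_subsingleton [Subsingleton R] (x : Pool.Agent.H16.FU.HnK1 R G n) : x = 0 := by
  induction x using hnk1_induction with
  | h0 => rfl
  | h1 F x z =>
    have : Subsingleton (MonoidAlgebra R F.1) := inferInstance
    have h1 : x = 0 := k1_subsingleton x
    rw [h1, ← Pool.Agent.H16.FU.syB1_apply, map_zero, AddMonoidHom.zero_apply]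
  | h2 a b ha hb => rw [ha, hb, add_zero]
  | h3 a ha => rw [ha, neg_zero]

theorem ratInj01_subsingleton [Subsingleton R] : FQ.RatInj (assembly01 R n G) := by
  apply FQ.ratInj_of
  intro z M hM h
  refine ⟨1, one_ne_zero, ?_⟩
  rw [one_smul]
  exact Prod.ext (hnK0_subsingleton z.1) (hnK1_subsingleton z.2)

theorem ratInj01_nilFin (hmain : FieldCase.{u, v}) (h : NilFin R)
    (hG : ∀ (p : ℕ) [Fact p.Prime], p ∣ ringChar R → LocGrp1 p G n) :
    FQ.RatInj (assembly01 R n G) := by
  obtain ⟨m, A, hA, φ, hs, ⟨N, hN⟩, h⟩ := h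
  have hq : ∃ M : ℕ, M ≠ 0 ∧ (M : R) = 0 := by
    choose p k hk hka hp hc hf using h
    refine ⟨(∏ i, p i) ^ N, pow_ne_zero _ (Finset.prod_ne_zero_iff.2 fun i _ => (hp i).ne_zero), ?_⟩
    have h1 : ((∏ i, p i : ℕ) : R) ∈ RingHom.ker φ := by
      rw [RingHom.mem_ker, map_natCast]
      funext i
      have h2 : ((∏ i, p i : ℕ) : A i) = 0 := by
        rw [← Finset.mul_prod_erase Finset.univ p (Finset.mem_univ i), Nat.cast_mul]
        have h3 : ((p i : ℕ) : A i) = 0 := by
          let _ := hk i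
          let _ := hka i
          have := hc i
          have h4 : (algebraMap (k i) (A i)) ((p i : ℕ) : k i) = ((p i : ℕ) : A i) :=
            map_natCast _ _
          rw [← h4, CharP.cast_eq_zero, map_zero]
        rw [h3, zero_mul]
      rw [Pi.natCast_apply, h2]
      rfl
    have h5 : ((∏ i, p i : ℕ) : R) ^ N ∈ RingHom.ker φ ^ N := Ideal.pow_mem_pow h1 N
    rw [hN] at h5
    rw [Nat.cast_pow]
    exact (Submodule.mem_bot R).1 h5
  obtain ⟨M, hM, hM0⟩ := hq
  refine ratInj01_of_nilKer n hs (FQ.nilKer_of_ker_pow φ hN) hM hM0 (ratInj01_pi _ n fun i => ?_)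
  obtain ⟨p, k, _, _, hp, hk, hf⟩ := h i
  have : Fact p.Prime := ⟨hp⟩
  rcases subsingleton_or_nontrivial (A i) with hi | hi
  · exact ratInj01_subsingleton
  · refine ratInj01_fd hmain k (A i) (hG p ?_)
    have h1 : ((ringChar R : ℕ) : A i) = 0 := by
      have h2 : φ ((ringChar R : ℕ) : R) i = 0 := by
        rw [CharP.cast_eq_zero, map_zero]
        rfl
      rw [map_natCast] at h2
      exact h2
    have : CharP (A i) p := charP_of_injective_algebraMap (algebraMap k (A i)).injective p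
    exact (CharP.cast_eq_zero_iff (A i) p _).1 h1

/-- **Rational injectivity of the assembly map on the `K₀`-part and the `K₁`-part.** -/
theorem ratInj01_main (hmain : FieldCase.{u, v}) (hR : LocRing R)
    (hG : ∀ (p : ℕ) [Fact p.Prime], p ∣ ringChar R → LocGrp1 p G n) :
    FQ.RatInj (assembly01 R n G) := by
  refine ratInj01_of_local fun S => ?_
  obtain ⟨R', h1, h2⟩ := hR S
  refine ⟨R', inferInstance, R'.subtype, Subtype.val_injective,
    fun s hs => ⟨⟨s, h1 s hs⟩, rfl⟩, ?_⟩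
  have h3 : ringChar R' = ringChar R := by
    have h4 := ringChar.charP R
    have h5 : CharP R' (ringChar R) := inferInstance
    exact ringChar.eq R' (ringChar R)
  have h4 : NilFin R' := h2.elim (fun h => nilFin_of_finite) id
  refine ratInj01_nilFin hmain h4 fun p hp hd => hG p ?_
  rw [← h3]
  exact hd

end

end Pool.Agent.H71.FQS
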