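import Mathlib

/-!
# Project FQ: functions of words

A word is a list of letters `(x, l)`, `x ∈ G`, `l ∈ ℕ` (the label). A word together with a starting point `y ∈ G` is
a path in `G`: the letter `(x, l)` leads from the vertex `y` to the vertex `y * x`. `occ i W y` is the list of the
vertices before the letters with label `i`. The function `wf c Φ ℓ` of words: if the product of the letters is
conjugate to `c` and all the labels `ℓ j` occur exactly `q` times, start at `u` with `u * prd W * u⁻¹ = c` and
evaluate `Φ` on the tuples of vertices of the labels `ℓ j`; otherwise the value is `0`.

PROOFS. `occ_mul`: `occ i (V ++ W) y = occ i V y ++ occ i W (y * prd V)`; `occ_smul`: `occ i W (g * y)` is the image of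
`occ i W y` under `g * ·`. `wf_eq`: two starting points differ by an element of the centralizer of `c`. `wf_rot`: for
`V * W` start at `u`, for `W * V` at `u * prd V`; the second list is the first one rotated `r` times, the end
multiplied by `c` from the left: this is `sig` iterated `r` times. `wf_move`: only the vertex between the two letters
changes, `y * x * s` instead of `y * x`: one entry of one tuple (or none) is multiplied by `s` from the right.
-/

set_option autoImplicit false

universe u v w

namespace Pool.Agent.H71.FQ

/-- the words: lists of letters with a label -/
abbrev Wd (G : Type u) : Type u := FreeMonoid (G × ℕ)

section

variable {G : Type u} [Group G]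

/-- the letter `x` with label `l` -/
def let1 (x : G) (l : ℕ) : Wd G := FreeMonoid.of (x, l)

section

end

end

end Pool.Agent.H71.FQ
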